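import Pool.Agent.MVF.C011
import Pool.Agent.MVF.C029
import Pool.Agent.MVF.C084
import Pool.Agent.TWM.C01
import Pool.Agent.TWN.D01

/-! Parts: Lib_helper28.FROB.Count2, RI.GALB, RI.MAINB, RI.NSF, RI.PD, RI.SPL, RI.COUNTG, RI.FROBD, RI.FROBOF, RI.GALE, RI.MAIND, RI.PDGE, RI.Stmts3, RI.MAINB2, RI.FinalB -/

section

/-!
# Frobenius: the sum of the orders of the decomposition groups above a rational prime
-/

open NumberField IsDedekindDomain Ideal MulAction
open scoped Pointwise ENNReal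

namespace Pool.Agent.Lib_helper28.FROB

variable {M : Type*} [Field M] [NumberField M] [IsGalois ℚ M]

/-- the primes above `p` -/
noncomputable def overEquiv (p : ℕ) :
    {w : HeightOneSpectrum (𝓞 M) // pr w = p} ≃
      {P : (span {(p : ℤ)}).primesOver (𝓞 M) // p.Prime} where
  toFun w := ⟨toOver p w, w.2 ▸ pr_prime w.1⟩
  invFun P := ⟨⟨P.1.1, P.1.2.1, by
    intro h0
    have h1 := P.1.2.2.over
    rw [h0, Ideal.under_bot, Ideal.span_singleton_eq_bot] at h1
    exact P.2.ne_zero (by exact_mod_cast h1)⟩, by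
      have h1 := P.1.2.2.over
      show absNorm (P.1.1.under ℤ) = p
      rw [← h1]
      simp⟩
  left_inv w := rfl
  right_inv P := rfl

theorem sum_dec (p : ℕ) (hp : p.Prime) :
    ∑' w : {w : HeightOneSpectrum (𝓞 M) // pr w = p}, (Nat.card (Dec w.1) : ℝ≥0∞) =
      Nat.card Gal(M/ℚ) := by
  have hF := Fact.mk hp
  have hpi : Prime (p : ℤ) := Nat.prime_iff_prime_int.mp hp
  have hbot : (span {(p : ℤ)} : Ideal ℤ) ≠ ⊥ := by
    rw [Ne, Ideal.span_singleton_eq_bot]
    exact_mod_cast hp.ne_zero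
  have hprime : (span {(p : ℤ)} : Ideal ℤ).IsPrime := (Ideal.span_singleton_prime
    (by exact_mod_cast hp.ne_zero)).mpr hpi
  have hmax : (span {(p : ℤ)} : Ideal ℤ).IsMaximal :=
    Ring.DimensionLEOne.maximalOfPrime hbot hprime
  have hperf := perfect_under (span {(p : ℤ)} : Ideal ℤ) hbot
  have h1 : ∀ w : {w : HeightOneSpectrum (𝓞 M) // pr w = p}, (Nat.card (Dec w.1) : ℝ≥0∞) =
      (((span {(p : ℤ)} : Ideal ℤ).ramificationIdxIn (𝓞 M) *
        (span {(p : ℤ)} : Ideal ℤ).inertiaDegIn (𝓞 M) : ℕ) : ℝ≥0∞) := by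
    intro w
    have : w.1.asIdeal.LiesOver (span {(p : ℤ)}) := (toOver p w).2.2
    exact congrArg Nat.cast
      (Ideal.card_stabilizer_eq (G := Gal(M/ℚ)) (span {(p : ℤ)}) w.1.asIdeal)
  have hfin := fiber_finite (K := M) p
  have := Fintype.ofFinite {w : HeightOneSpectrum (𝓞 M) // pr w = p}
  have e : Nat.card {w : HeightOneSpectrum (𝓞 M) // pr w = p} =
      ((span {(p : ℤ)}).primesOver (𝓞 M)).ncard := by
    rw [Nat.card_congr (overEquiv p), ← Nat.card_coe_set_eq]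
    exact Nat.card_congr ⟨fun P => P.1, fun P => ⟨P, hp⟩, fun P => rfl, fun P => rfl⟩
  rw [tsum_congr h1, tsum_fintype, Finset.sum_const, Finset.card_univ, nsmul_eq_mul,
    ← Nat.card_eq_fintype_card, e, ← Nat.cast_mul,
    ncard_primesOver_mul_ramificationIdxIn_mul_inertiaDegIn (span {(p : ℤ)}) (𝓞 M) Gal(M/ℚ)]

/-- Sums over the prime ideals of functions of the rational prime below, weighted by the order of
the decomposition group. -/
theorem tsum_dec (f : ℕ → ℝ≥0∞) :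
    ∑' w : HeightOneSpectrum (𝓞 M), (Nat.card (Dec w) : ℝ≥0∞) * f (pr w) =
      Nat.card Gal(M/ℚ) * ∑' p : Nat.Primes, f p := by
  let g : HeightOneSpectrum (𝓞 M) → Nat.Primes := fun v => ⟨pr v, pr_prime v⟩
  rw [← ENNReal.tsum_fiberwise
    (fun w : HeightOneSpectrum (𝓞 M) => (Nat.card (Dec w) : ℝ≥0∞) * f (pr w)) g,
    ← ENNReal.tsum_mul_left]
  refine tsum_congr fun p => ?_
  have h1 : ∀ v : ↑(g ⁻¹' {p}), (Nat.card (Dec v.1) : ℝ≥0∞) * f (pr v.1) =
      (Nat.card (Dec v.1) : ℝ≥0∞) * f p := by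
    intro v
    have : g v.1 = p := v.2
    exact congrArg (fun q : Nat.Primes => (Nat.card (Dec v.1) : ℝ≥0∞) * f (q : ℕ)) this
  let e : ↑(g ⁻¹' {p}) ≃ {v : HeightOneSpectrum (𝓞 M) // pr v = (p : ℕ)} :=
    Equiv.subtypeEquivRight fun v => Subtype.ext_iff
  rw [tsum_congr h1, ENNReal.tsum_mul_right]
  congr 1
  rw [← sum_dec (p : ℕ) p.2]
  exact e.tsum_eq (fun w : {v : HeightOneSpectrum (𝓞 M) // pr v = (p : ℕ)} =>
    (Nat.card (Dec w.1) : ℝ≥0∞))

end Pool.Agent.Lib_helper28.FROB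


end

section

/-!
# GALB: a Galois element that generates the groups of all conjugates
-/

set_option autoImplicit false

open NumberField

namespace Pool.Agent.RI

namespace GALB

/-! ### Group theory -/

theorem grp (h : GEN2) {G C₁ : Type} [Group G] [Finite G] [Group C₁] [IsCyclic C₁]
    (A B C : Subgroup G) (hBn : B.Normal) (φ : B →* C₁) (hφ : Function.Surjective φ)
    (hker : ∀ b : B, φ b = 1 → (b : G) ∈ C)
    (hA : ∀ a ∈ A, ∀ c ∈ C, a * c * a⁻¹ ∈ C)
    (hidx : ∀ x y : G, x ∉ A → y ∉ A → x⁻¹ * y ∈ A) :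
    ∃ σ ∈ B, ∀ τ : G, ∀ ρ ∈ B, ∃ j : ℤ, ρ * (τ * σ ^ j * τ⁻¹)⁻¹ ∈ C := by
  obtain ⟨τ₀, hτ₀⟩ : ∃ τ₀ : G, ∀ τ : G, τ ∉ A → τ * τ₀⁻¹ ∈ A := by
    by_cases hA' : ∃ t, t ∉ A
    · obtain ⟨t, ht⟩ := hA'
      refine ⟨t, fun τ hτ => ?_⟩
      have h1 := hidx τ⁻¹ t⁻¹ (fun h => hτ (by simpa using A.inv_mem h))
        (fun h => ht (by simpa using A.inv_mem h))
      rwa [inv_inv] at h1
    · push Not at hA'
      exact ⟨1, fun τ hτ => absurd (hA' τ) hτ⟩
  have hfin : Finite C₁ := Finite.of_surjective φ hφ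
  let φ₂ : B →* C₁ := φ.comp (MulAut.conjNormal τ₀ : B ≃* B).toMonoidHom
  have hφ₂ : Function.Surjective φ₂ := hφ.comp (MulAut.conjNormal τ₀ : B ≃* B).surjective
  have hcomm : ∀ a b : C₁, a * b = b * a := by
    let _ := IsCyclic.commGroup (α := C₁)
    exact fun a b => mul_comm a b
  let ψ : B →* C₁ × C₁ := φ.prod φ₂
  let _ : CommGroup ψ.range :=
    { (inferInstance : Group ψ.range) with
      mul_comm := fun a b => Subtype.ext (Prod.ext (hcomm _ _) (hcomm _ _)) }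
  have hs₁ : Function.Surjective ((MonoidHom.fst C₁ C₁).comp ψ.range.subtype) := by
    intro c
    obtain ⟨b, hb⟩ := hφ c
    exact ⟨⟨ψ b, ⟨b, rfl⟩⟩, hb⟩
  have hs₂ : Function.Surjective ((MonoidHom.snd C₁ C₁).comp ψ.range.subtype) := by
    intro c
    obtain ⟨b, hb⟩ := hφ₂ c
    exact ⟨⟨ψ b, ⟨b, rfl⟩⟩, hb⟩
  obtain ⟨⟨_, ⟨σ, rfl⟩⟩, hx₁, hx₂⟩ := h ψ.range C₁ C₁
    ((MonoidHom.fst C₁ C₁).comp ψ.range.subtype) ((MonoidHom.snd C₁ C₁).comp ψ.range.subtype)
    hs₁ hs₂
  have hg₁ : Subgroup.zpowers (φ σ) = ⊤ := hx₁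
  have hg₂ : Subgroup.zpowers (φ₂ σ) = ⊤ := hx₂
  refine ⟨σ, σ.2, fun τ ρ hρ => ?_⟩
  have hbB : τ⁻¹ * ρ * τ ∈ B := by
    have := hBn.conj_mem ρ hρ τ⁻¹
    rwa [inv_inv] at this
  obtain ⟨b, hb⟩ : ∃ b : B, (b : G) = τ⁻¹ * ρ * τ := ⟨⟨_, hbB⟩, rfl⟩
  by_cases hτ : τ ∈ A
  · have h1 : φ b ∈ Subgroup.zpowers (φ σ) := by rw [hg₁]; exact Subgroup.mem_top _
    obtain ⟨j, hj⟩ := Subgroup.mem_zpowers_iff.1 h1
    refine ⟨j, ?_⟩
    have h2 : φ (b * (σ ^ j)⁻¹) = 1 := by
      rw [map_mul, map_inv, map_zpow, hj, mul_inv_cancel]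
    have h3 := hA τ hτ _ (hker _ h2)
    have h4 : τ * ((b * (σ ^ j)⁻¹ : B) : G) * τ⁻¹ = ρ * (τ * (σ : G) ^ j * τ⁻¹)⁻¹ := by
      rw [Subgroup.coe_mul, Subgroup.coe_inv, Subgroup.coe_zpow, hb]
      group
    rwa [h4] at h3
  · have h1 : φ₂ b ∈ Subgroup.zpowers (φ₂ σ) := by rw [hg₂]; exact Subgroup.mem_top _
    obtain ⟨j, hj⟩ := Subgroup.mem_zpowers_iff.1 h1
    refine ⟨j, ?_⟩
    have h2 : φ₂ (b * (σ ^ j)⁻¹) = 1 := by
      rw [map_mul, map_inv, map_zpow, hj, mul_inv_cancel]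
    have h3 := hA _ (hτ₀ τ hτ) _ (hker _ h2)
    have h5 : (((MulAut.conjNormal τ₀ : B ≃* B).toMonoidHom (b * (σ ^ j)⁻¹) : B) : G) =
        τ₀ * ((b * (σ ^ j)⁻¹ : B) : G) * τ₀⁻¹ := MulAut.conjNormal_apply _ _
    have h4 : τ * τ₀⁻¹ * (((MulAut.conjNormal τ₀ : B ≃* B).toMonoidHom (b * (σ ^ j)⁻¹) : B) : G) *
        (τ * τ₀⁻¹)⁻¹ = ρ * (τ * (σ : G) ^ j * τ⁻¹)⁻¹ := by
      rw [h5, Subgroup.coe_mul, Subgroup.coe_inv, Subgroup.coe_zpow, hb]
      group
    rwa [h4] at h3

/-! ### Automorphisms that fix a subfield -/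

/-- The automorphisms of `L` that fix the elements of `E`. -/
def fixG (L E : IntermediateField ℚ ℂ) : Subgroup (L ≃ₐ[ℚ] L) where
  carrier := {g | ∀ x : L, (x : ℂ) ∈ E → g x = x}
  mul_mem' := by
    intro a b ha hb x hx
    have h1 : (a * b) x = a (b x) := rfl
    rw [h1, hb x hx, ha x hx]
  one_mem' := fun x _ => rfl
  inv_mem' := by
    intro a ha x hx
    exact (AlgEquiv.symm_apply_eq a).2 (ha x hx).symm

theorem mem_fixG {L E : IntermediateField ℚ ℂ} {g : L ≃ₐ[ℚ] L} :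
    g ∈ fixG L E ↔ ∀ x : L, (x : ℂ) ∈ E → g x = x := Iff.rfl

/-- A normal subfield is stable. -/
theorem stab {k K L : IntermediateField ℚ ℂ} (hkK : k ≤ K) (hKL : K ≤ L)
    (hgal : Normal k (IntermediateField.extendScalars hkK)) (g : L ≃ₐ[ℚ] L)
    (hg : g ∈ fixG L k) (x : L) (hx : (x : ℂ) ∈ K) : ((g x : L) : ℂ) ∈ K := by
  let f : IntermediateField.extendScalars hkK →ₐ[k] ℂ :=
    { toFun := fun y => ((g ⟨y.1, hKL y.2⟩ : L) : ℂ)
      map_one' := congrArg (fun z : L => (z : ℂ)) (map_one g)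
      map_mul' := fun a b => congrArg (fun z : L => (z : ℂ))
        (map_mul g ⟨a.1, hKL a.2⟩ ⟨b.1, hKL b.2⟩)
      map_zero' := congrArg (fun z : L => (z : ℂ)) (map_zero g)
      map_add' := fun a b => congrArg (fun z : L => (z : ℂ))
        (map_add g ⟨a.1, hKL a.2⟩ ⟨b.1, hKL b.2⟩)
      commutes' := fun a => congrArg (fun z : L => (z : ℂ)) (hg ⟨a.1, hKL (hkK a.2)⟩ a.2) }
  have h1 : f.fieldRange = IntermediateField.extendScalars hkK := AlgHom.fieldRange_of_normal f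
  have h2 : f ⟨x, hx⟩ ∈ f.fieldRange := ⟨_, rfl⟩
  rw [h1] at h2
  exact h2

/-- A subfield normal over `ℚ` is stable. -/
theorem stabQ {F L : IntermediateField ℚ ℂ} (hFL : F ≤ L) (hgal : Normal ℚ F) (g : L ≃ₐ[ℚ] L)
    (x : L) (hx : (x : ℂ) ∈ F) : ((g x : L) : ℂ) ∈ F := by
  let f : F →ₐ[ℚ] ℂ := (L.val.comp g.toAlgHom).comp (IntermediateField.inclusion hFL)
  have hn : @Normal ℚ F _ _ (IntermediateField.algebra' F) := hgal
  have h1 : f.fieldRange = F := AlgHom.fieldRange_of_normal f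
  have h2 : f ⟨x, hx⟩ ∈ f.fieldRange := ⟨_, rfl⟩
  rw [h1] at h2
  exact h2

/-- Restriction to `K`. -/
noncomputable def res {F K L : IntermediateField ℚ ℂ} (hFK : F ≤ K) (hKL : K ≤ L)
    (hgal : Normal F (IntermediateField.extendScalars hFK)) :
    fixG L F →* ((IntermediateField.extendScalars hFK) ≃ₐ[F]
      (IntermediateField.extendScalars hFK)) where
  toFun g :=
    { toFun := fun x => ⟨((g.1 ⟨x.1, hKL x.2⟩ : L) : ℂ), stab hFK hKL hgal g.1 g.2 _ x.2⟩
      invFun := fun x => ⟨((g.1⁻¹ ⟨x.1, hKL x.2⟩ : L) : ℂ),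
        stab hFK hKL hgal g.1⁻¹ (g⁻¹).2 _ x.2⟩
      left_inv := fun x => Subtype.ext (congrArg (fun z : L => (z : ℂ))
        (g.1.symm_apply_apply (⟨x.1, hKL x.2⟩ : L)))
      right_inv := fun x => Subtype.ext (congrArg (fun z : L => (z : ℂ))
        (g.1.apply_symm_apply (⟨x.1, hKL x.2⟩ : L)))
      map_mul' := fun a b => Subtype.ext
        (congrArg (fun z : L => (z : ℂ)) (map_mul g.1 ⟨a.1, hKL a.2⟩ ⟨b.1, hKL b.2⟩))
      map_add' := fun a b => Subtype.ext
        (congrArg (fun z : L => (z : ℂ)) (map_add g.1 ⟨a.1, hKL a.2⟩ ⟨b.1, hKL b.2⟩))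
      commutes' := fun a => Subtype.ext
        (congrArg (fun z : L => (z : ℂ)) (g.2 ⟨a.1, hKL (hFK a.2)⟩ a.2)) }
  map_one' := rfl
  map_mul' _ _ := rfl

theorem res_apply {F K L : IntermediateField ℚ ℂ} (hFK : F ≤ K) (hKL : K ≤ L)
    (hgal : Normal F (IntermediateField.extendScalars hFK)) (g : fixG L F)
    (x : IntermediateField.extendScalars hFK) :
    ((res hFK hKL hgal g x : IntermediateField.extendScalars hFK) : ℂ) =
      ((g.1 ⟨x.1, hKL x.2⟩ : L) : ℂ) := rfl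

theorem res_surjective {F K L : IntermediateField ℚ ℂ} (hFK : F ≤ K) (hKL : K ≤ L)
    (hgal : Normal F (IntermediateField.extendScalars hFK)) (hL : Normal ℚ L) :
    Function.Surjective (res (L := L) hFK hKL hgal) := by
  intro s
  let _ : Algebra K L := algC hKL
  have hst : IsScalarTower ℚ K L := IsScalarTower.of_algebraMap_eq (fun _ => rfl)
  let χ : K ≃ₐ[ℚ] K :=
    { toFun := fun x => ⟨(s ⟨x.1, x.2⟩).1, (s ⟨x.1, x.2⟩).2⟩
      invFun := fun x => ⟨(s.symm ⟨x.1, x.2⟩).1, (s.symm ⟨x.1, x.2⟩).2⟩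
      left_inv := fun x => Subtype.ext (congrArg
        (fun z : IntermediateField.extendScalars hFK => (z : ℂ))
        (s.symm_apply_apply (⟨x.1, x.2⟩ : IntermediateField.extendScalars hFK)))
      right_inv := fun x => Subtype.ext (congrArg
        (fun z : IntermediateField.extendScalars hFK => (z : ℂ))
        (s.apply_symm_apply (⟨x.1, x.2⟩ : IntermediateField.extendScalars hFK)))
      map_mul' := fun a b => Subtype.ext (congrArg
        (fun z : IntermediateField.extendScalars hFK => (z : ℂ))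
        (map_mul s (⟨a.1, a.2⟩ : IntermediateField.extendScalars hFK) ⟨b.1, b.2⟩))
      map_add' := fun a b => Subtype.ext (congrArg
        (fun z : IntermediateField.extendScalars hFK => (z : ℂ))
        (map_add s (⟨a.1, a.2⟩ : IntermediateField.extendScalars hFK) ⟨b.1, b.2⟩))
      commutes' := fun a => Subtype.ext (congrArg
        (fun z : IntermediateField.extendScalars hFK => (z : ℂ))
        (s.commutes (algebraMap ℚ F a))) }
  have hχ : ∀ x : K, ((χ.liftNormal L (algebraMap K L x) : L) : ℂ) =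
      ((s ⟨x.1, x.2⟩ : IntermediateField.extendScalars hFK) : ℂ) := by
    intro x
    rw [AlgEquiv.liftNormal_commutes]
    rfl
  refine ⟨⟨χ.liftNormal L, ?_⟩, ?_⟩
  · intro x hx
    have h1 := hχ ⟨x.1, hFK hx⟩
    apply Subtype.ext
    have h2 : (algebraMap K L ⟨x.1, hFK hx⟩ : L) = x := rfl
    rw [h2] at h1
    rw [h1]
    exact congrArg (fun z : IntermediateField.extendScalars hFK => (z : ℂ))
      (s.commutes (⟨x.1, hx⟩ : F))
  · apply AlgEquiv.ext
    intro x
    apply Subtype.ext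
    rw [res_apply]
    exact hχ ⟨x.1, x.2⟩

/-- Two automorphisms that are nontrivial on a quadratic field agree on it. -/
theorem quad {k L : IntermediateField ℚ ℂ} (hkL : k ≤ L) (hk : Module.finrank ℚ k = 2)
    (x y : L ≃ₐ[ℚ] L) (hx : x ∉ fixG L k) (hy : y ∉ fixG L k) : x⁻¹ * y ∈ fixG L k := by
  classical
  have hfd : FiniteDimensional ℚ k := FiniteDimensional.of_finrank_pos (by omega)
  let f : (L ≃ₐ[ℚ] L) → (k →+* ℂ) := fun g =>
    ((L.val.comp g.toAlgHom).comp (IntermediateField.inclusion hkL)).toRingHom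
  have hf : ∀ g, (g ∉ fixG L k) → f g ≠ f 1 := by
    intro g hg he
    apply hg
    intro z hz
    have h1 := congrArg (fun h : k →+* ℂ => h ⟨z, hz⟩) he
    exact Subtype.ext h1
  have hcard : Fintype.card (k →+* ℂ) = 2 := by
    rw [NumberField.Embeddings.card k ℂ, hk]
  have hxy : f x = f y := by
    by_contra hne
    have h3 : ({f 1, f x, f y} : Finset (k →+* ℂ)).card = 3 := by
      rw [Finset.card_eq_three]
      exact ⟨_, _, _, (hf x hx).symm, (hf y hy).symm, hne, rfl⟩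
    have h4 := Finset.card_le_univ ({f 1, f x, f y} : Finset (k →+* ℂ))
    omega
  intro z hz
  have h1 := congrArg (fun h : k →+* ℂ => h ⟨z, hz⟩) hxy
  have h2 : x z = y z := Subtype.ext h1
  have h3 : (x⁻¹ * y) z = x.symm (y z) := rfl
  rw [h3, ← h2]
  exact x.symm_apply_apply z

end GALB

theorem GALB_thm (h : GEN2) : GALB := by
  intro k F K _ hkF hFK hk _ hKk _ hFQ _ hcyc
  let L : IntermediateField ℚ ℂ := IntermediateField.normalClosure ℚ K ℂ
  have hKL : K ≤ L := IntermediateField.le_normalClosure K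
  have hFL : F ≤ L := hFK.trans hKL
  have hkL : k ≤ L := hkF.trans hFL
  have hfd : FiniteDimensional ℚ L := inferInstance
  have hnc : IsNormalClosure ℚ K L :=
    Algebra.IsAlgebraic.isNormalClosure_normalClosure
      (fun x => IsAlgClosed.splits _)
  have hnL : Normal ℚ L := hnc.normal (K := K)
  have hgL : IsGalois ℚ L := ⟨⟩
  have hnk : Normal k (IntermediateField.extendScalars (hkF.trans hFK)) := hKk.to_normal
  have hnF : Normal F (IntermediateField.extendScalars hFK) := by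
    have g1 := (isGalois_algC (hkF.trans hFK)).2 hKk
    let _ := algC hkF
    let _ := algC hFK
    let _ := algC (hkF.trans hFK)
    have g2 := towerC hkF hFK
    have g3 : IsGalois F K := IsGalois.tower_top_of_isGalois k F K
    exact ((isGalois_algC hFK).1 g3).to_normal
  have hgrp := GALB.grp h (GALB.fixG L k) (GALB.fixG L F) (GALB.fixG L K) ?_
    (GALB.res hFK hKL hnF) (GALB.res_surjective hFK hKL hnF hnL) ?_ ?_ ?_
  · obtain ⟨σ, hσ, hσ'⟩ := hgrp
    exact ⟨L, hKL, hfd, hgL, σ, hσ, fun τ ρ hρ => hσ' τ ρ hρ⟩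
  · -- normal
    constructor
    intro b hb g x hx
    have h1 : (g * b * g⁻¹) x = g (b (g⁻¹ x)) := rfl
    rw [h1, hb _ (GALB.stabQ hFL hFQ.to_normal g⁻¹ x hx)]
    exact g.apply_symm_apply x
  · -- kernel
    intro b hb x hx
    have h1 := congrArg (fun s => ((s ⟨x.1, hx⟩ : IntermediateField.extendScalars hFK) : ℂ)) hb
    exact Subtype.ext h1
  · -- conjugation
    intro a ha c hc x hx
    have h1 : (a * c * a⁻¹) x = a (c (a⁻¹ x)) := rfl
    rw [h1, hc _ (GALB.stab (hkF.trans hFK) hKL hnk a⁻¹ (inv_mem ha) x hx)]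
    exact a.apply_symm_apply x
  · exact fun x y hx hy => GALB.quad hkL hk x y hx hy

end Pool.Agent.RI


end

section

/-!
# Positive density of primes with trivial relative `p`-class groups in the cyclotomic tower
-/

open NumberField IsDedekindDomain
open scoped Pointwise

namespace Pool.Agent.RI

namespace MAINB

/-- The subfield `F` of `L` as an intermediate field of `L / ℚ`. -/
noncomputable def inL (F L : IntermediateField ℚ ℂ) : IntermediateField ℚ L := F.comap L.val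

lemma mem_inL {F L : IntermediateField ℚ ℂ} (x : L) : x ∈ inL F L ↔ (x : ℂ) ∈ F := Iff.rfl

/-- `F` and `inL F L` are isomorphic. -/
noncomputable def equivL {F L : IntermediateField ℚ ℂ} (h : F ≤ L) : F ≃ₐ[ℚ] inL F L where
  toFun := fun x => ⟨⟨x.1, h x.2⟩, x.2⟩
  invFun := fun x => ⟨x.1.1, x.2⟩
  left_inv := fun _ => rfl
  right_inv := fun _ => rfl
  map_mul' := fun _ _ => rfl
  map_add' := fun _ _ => rfl
  commutes' := fun _ => rfl

lemma nonsplit_of (hNSF : NSF) {F K L : IntermediateField ℚ ℂ} [FiniteDimensional ℚ L]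
    [IsGalois ℚ L] (hFK : F ≤ K) (hKL : K ≤ L) (σ : L ≃ₐ[ℚ] L)
    (hσ : ∀ τ ρ : L ≃ₐ[ℚ] L, (∀ x : L, (x : ℂ) ∈ F → ρ x = x) →
          ∃ j : ℤ, ∀ x : L, (x : ℂ) ∈ K → (ρ * (τ * σ ^ j * τ⁻¹)⁻¹) x = x)
    (q : ℕ) (hq : q.Prime) (P : Ideal (𝓞 L)) (hP : P.IsPrime) (hqP : (q : 𝓞 L) ∈ P)
    (hst : MulAction.stabilizer (L ≃ₐ[ℚ] L) P = Subgroup.zpowers σ) : Nonsplit q hFK := by
  intro P₁ P₂ hP₁ hP₂ hq₁ hq₂ h12
  have hfK : FiniteDimensional ℚ K := FiniteDimensional.of_injective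
    (IntermediateField.inclusion hKL).toLinearMap
    (IntermediateField.inclusion hKL).toRingHom.injective
  let : Algebra K L := algC hKL
  obtain ⟨⟨Q₁, hQ₁, hQo₁⟩⟩ := Ideal.nonempty_primesOver (S := 𝓞 L) P₁
  obtain ⟨⟨Q₂, hQ₂, hQo₂⟩⟩ := Ideal.nonempty_primesOver (S := 𝓞 L) P₂
  have key := hNSF L (inL F L) (inL K L) σ q P hq hP hqP hst (by
    intro τ ρ hρ
    rw [IntermediateField.mem_fixingSubgroup_iff] at hρ
    obtain ⟨j, hj⟩ := hσ τ ρ (fun x hx => hρ x hx)
    exact ⟨j, by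
      rw [IntermediateField.mem_fixingSubgroup_iff]
      exact fun x hx => hj x hx⟩) Q₁ Q₂ hQ₁ hQ₂
      (by
        have : (q : 𝓞 K) ∈ Q₁.under (𝓞 K) := hQo₁.over ▸ hq₁
        rwa [Ideal.mem_comap, map_natCast] at this)
      (by
        have : (q : 𝓞 K) ∈ Q₂.under (𝓞 K) := hQo₂.over ▸ hq₂
        rwa [Ideal.mem_comap, map_natCast] at this)
      (by
        intro x hx
        -- x comes from F
        have hint : IsIntegral ℤ (⟨((x : L) : ℂ), hx⟩ : F) := by
          have h1 := x.2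
          have h2 : IsIntegral ℤ ((x : L) : ℂ) := h1.map L.val.toRingHom.toIntAlgHom
          exact (isIntegral_algebraMap_iff (R := ℤ) (A := F) (B := ℂ)
            (algebraMap F ℂ).injective).1 h2
        let y : 𝓞 F := ⟨⟨((x : L) : ℂ), hx⟩, hint⟩
        have hy : algebraMap (𝓞 K) (𝓞 L) (RingOfIntegers.mapRingHom
            (IntermediateField.inclusion hFK : F →+* K) y) = x := rfl
        have h1 : x ∈ Q₁ ↔ y ∈ P₁.comap (RingOfIntegers.mapRingHom
            (IntermediateField.inclusion hFK : F →+* K)) := by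
          rw [Ideal.mem_comap, hQo₁.over, Ideal.mem_comap, hy]
        have h2 : x ∈ Q₂ ↔ y ∈ P₂.comap (RingOfIntegers.mapRingHom
            (IntermediateField.inclusion hFK : F →+* K)) := by
          rw [Ideal.mem_comap, hQo₂.over, Ideal.mem_comap, hy]
        rw [h1, h2, h12])
  ext z
  have h := key (algebraMap (𝓞 K) (𝓞 L) z) (by
    show (((z : K) : ℂ)) ∈ K
    exact (z : K).2)
  rw [hQo₁.over, hQo₂.over, Ideal.mem_comap, Ideal.mem_comap]
  exact h

lemma card_of (hSPL : SPL) {F L : IntermediateField ℚ ℂ} [FiniteDimensional ℚ L]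
    [IsGalois ℚ L] (hFL : F ≤ L) (hF : IsGalois ℚ F) (σ : L ≃ₐ[ℚ] L)
    (hσ : ∀ x : L, (x : ℂ) ∈ F → σ x = x)
    (q : ℕ) (hq : q.Prime) (P : Ideal (𝓞 L)) (hP : P.IsPrime) (hqP : (q : 𝓞 L) ∈ P)
    (hst : MulAction.stabilizer (L ≃ₐ[ℚ] L) P = Subgroup.zpowers σ) :
    ∀ Q : Ideal (𝓞 F), Q.IsPrime → (q : 𝓞 F) ∈ Q → Nat.card (𝓞 F ⧸ Q) = q := by
  intro Q hQ hqQ
  have : IsGalois ℚ (inL F L) := IsGalois.of_algEquiv (equivL hFL)
  let e : 𝓞 F ≃+* 𝓞 (inL F L) := RingOfIntegers.mapRingEquiv (equivL hFL).toRingEquiv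
  have hle : MulAction.stabilizer (L ≃ₐ[ℚ] L) P ≤ (inL F L).fixingSubgroup := by
    rw [hst, Subgroup.zpowers_le, IntermediateField.mem_fixingSubgroup_iff]
    exact fun x hx => hσ x hx
  have h := hSPL L (inL F L) q P hq hP hqP hle (Q.map e) (Ideal.map_isPrime_of_equiv e)
    (by
      have := Ideal.mem_map_of_mem e hqQ
      rwa [map_natCast] at this)
  rw [← h]
  exact Nat.card_congr (Ideal.quotientEquiv Q (Q.map e) e rfl).toEquiv

end MAINB

theorem MAINB_thm (hC : MAINC) (hGALB : GALB) (hFROB : FROB) (hNSF : NSF) (hSPL : SPL)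
    (hPD : PD) : MAINB := by
  intro k F K _ hkF hFK hk hz hGk hab hGF habF hcyc
  obtain ⟨L, hKL, hfL, hGL, σ, hσF, hστ⟩ := hGALB k F K hkF hFK hk hz hGk hab hGF habF hcyc
  have hfF : FiniteDimensional ℚ F := FiniteDimensional.of_injective
    (IntermediateField.inclusion hFK).toLinearMap
    (IntermediateField.inclusion hFK).toRingHom.injective
  have hGK : IsGalois F (IntermediateField.extendScalars hFK) := by
    rw [← isGalois_algC]
    rw [← isGalois_algC] at hGk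
    let : Algebra k F := algC hkF
    let : Algebra F K := algC hFK
    let : Algebra k K := algC (hkF.trans hFK)
    have : IsScalarTower k F K := towerC hkF hFK
    exact IsGalois.tower_top_of_isGalois k F K
  have hcard : ∀ E : IntermediateField ℚ ℂ, FiniteDimensional ℚ E → classNo E ≠ 0 := by
    intro E hE
    have : Finite (ClassGroup (𝓞 E)) := Finite.of_fintype _
    exact Nat.card_pos.ne'
  have hdeg0 : Module.finrank F (IntermediateField.extendScalars hFK) ≠ 0 := by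
    rw [← finrank_algC]
    let : Algebra F K := algC hFK
    exact (Module.finrank_pos (R := F) (M := K)).ne'
  refine hPD _ _ ((Module.finrank F (IntermediateField.extendScalars hFK) * classNo K *
    classNo F).primeFactors) (hFROB L σ) ?_
  rintro q ⟨P, hP, hqP, hst⟩ hq hqA
  have hne : Module.finrank F (IntermediateField.extendScalars hFK) * classNo K * classNo F ≠ 0 :=
    mul_ne_zero (mul_ne_zero hdeg0 (hcard K inferInstance)) (hcard F hfF)
  have hnd : ¬ q ∣ Module.finrank F (IntermediateField.extendScalars hFK) * classNo K *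
      classNo F := fun h => hqA (Nat.mem_primeFactors.2 ⟨hq, h, hne⟩)
  have hd1 : ¬ q ∣ Module.finrank F (IntermediateField.extendScalars hFK) :=
    fun h => hnd (Dvd.dvd.mul_right (Dvd.dvd.mul_right h _) _)
  have hd2 : ¬ q ∣ classNo K := fun h => hnd (Dvd.dvd.mul_right (Dvd.dvd.mul_left h _) _)
  have hd3 : ¬ q ∣ classNo F := fun h => hnd (Dvd.dvd.mul_left h _)
  have : Fact q.Prime := ⟨hq⟩
  refine ⟨MAINB.card_of hSPL (hFK.trans hKL) hGF σ hσF q hq P hP hqP hst, ?_⟩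
  intro n B hB
  exact hC q F K hFK hGK hd1 (MAINB.nonsplit_of hNSF hFK hKL σ hστ q hq P hP hqP hst)
    (by rw [padicValNat.eq_zero_of_not_dvd hd2, padicValNat.eq_zero_of_not_dvd hd3]) n B hB

end Pool.Agent.RI


end

section

/-!
# Relative Iwasawa theorem: module NSF

A decomposition group that surjects onto `Gal(K / F)` makes the primes above `q` nonsplit.
-/

open NumberField
open scoped nonZeroDivisors Pointwise

namespace Pool.Agent.RI

namespace NSF

theorem under_eq {L : Type} [Field L] [NumberField L] {q : ℕ} (hq : q.Prime) {Q : Ideal (𝓞 L)}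
    (hQ : Q.IsPrime) (h : (q : 𝓞 L) ∈ Q) : Q.under ℤ = Ideal.span {(q : ℤ)} := by
  have hmax : (Ideal.span {(q : ℤ)}).IsMaximal :=
    (Ideal.span_singleton_prime (by exact_mod_cast hq.ne_zero)).mpr
      (Nat.prime_iff_prime_int.mp hq) |>.isMaximal (by
        rw [Ne, Ideal.span_singleton_eq_bot]
        exact_mod_cast hq.ne_zero)
  refine (hmax.eq_of_le (Ideal.IsPrime.under ℤ Q).ne_top ?_).symm
  rw [Ideal.span_singleton_le_iff_mem, Ideal.mem_comap]
  simpa using h

theorem trans_Q {L : Type} [Field L] [NumberField L] [IsGalois ℚ L] {q : ℕ} (hq : q.Prime)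
    {P Q : Ideal (𝓞 L)} (hP : P.IsPrime) (hQ : Q.IsPrime) (h1 : (q : 𝓞 L) ∈ P)
    (h2 : (q : 𝓞 L) ∈ Q) : ∃ τ : L ≃ₐ[ℚ] L, Q = τ • P := by
  apply Algebra.IsInvariant.exists_smul_of_under_eq ℤ (𝓞 L) (L ≃ₐ[ℚ] L) P Q
  rw [under_eq hq hP h1, under_eq hq hQ h2]

theorem trans_F {L : Type} [Field L] [NumberField L] [IsGalois ℚ L] (F : IntermediateField ℚ L)
    {P Q : Ideal (𝓞 L)} (hP : P.IsPrime) (hQ : Q.IsPrime)
    (h : ∀ x : 𝓞 L, (x : L) ∈ F → (x ∈ P ↔ x ∈ Q)) : ∃ ρ ∈ F.fixingSubgroup, Q = ρ • P := by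
  have hu : P.under (𝓞 F) = Q.under (𝓞 F) := by
    ext x
    rw [Ideal.mem_comap, Ideal.mem_comap]
    exact h _ (x : F).2
  obtain ⟨ρ, hρ⟩ := Algebra.IsInvariant.exists_smul_of_under_eq (𝓞 F) (𝓞 L) (L ≃ₐ[F] L) P Q hu
  refine ⟨ρ.restrictScalars ℚ, ?_, ?_⟩
  · rw [IntermediateField.mem_fixingSubgroup_iff]
    intro x hx
    exact ρ.commutes ⟨x, hx⟩
  · rw [hρ]
    rfl

end NSF

theorem NSF_thm : NSF := by
  intro L _ _ _ F K σ q P hq hP hqP hD hyp Q₁ Q₂ h1 h2 hq1 hq2 hF x hx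
  obtain ⟨τ, hτ⟩ := NSF.trans_Q hq hP h1 hqP hq1
  obtain ⟨ρ, hρ, hρQ⟩ := NSF.trans_F F h1 h2 hF
  obtain ⟨j, hj⟩ := hyp τ ρ hρ
  set κ := ρ * (τ * σ ^ j * τ⁻¹)⁻¹ with hκ
  have e1 : ρ = κ * (τ * σ ^ j * τ⁻¹) := by rw [hκ]; group
  have hs : σ ^ j • P = P := by
    have : σ ^ j ∈ MulAction.stabilizer (L ≃ₐ[ℚ] L) P := by
      rw [hD]
      exact ⟨j, rfl⟩
    exact this
  have e2 : Q₂ = κ • Q₁ := by
    rw [hρQ, e1, hτ]
    simp only [mul_smul, inv_smul_smul, hs]
  have e3 : κ⁻¹ • x = x := by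
    have h3 : κ⁻¹ ∈ K.fixingSubgroup := inv_mem hj
    rw [IntermediateField.mem_fixingSubgroup_iff] at h3
    apply RingOfIntegers.ext
    exact h3 x hx
  rw [e2, Ideal.mem_pointwise_smul_iff_inv_smul_mem, e3]

end Pool.Agent.RI


end

section

/-!
# Relative Iwasawa theorem: module PD (positive density is insensitive to finitely many primes)
-/

open Finset

namespace Pool.Agent.RI

namespace PD

lemma term_nonneg (s : ℝ) (n : ℕ) : 0 ≤ (n : ℝ) ^ (-s) := Real.rpow_nonneg (Nat.cast_nonneg n) _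

lemma term_le_one {s : ℝ} (hs : 1 < s) (n : ℕ) : (n : ℝ) ^ (-s) ≤ 1 := by
  rcases Nat.eq_zero_or_pos n with h | h
  · subst h
    rw [Nat.cast_zero, Real.zero_rpow (by linarith)]
    exact zero_le_one
  · exact Real.rpow_le_one_of_one_le_of_nonpos (by exact_mod_cast h) (by linarith)

lemma summ {s : ℝ} (hs : 1 < s) : Summable (fun n : ℕ => (n : ℝ) ^ (-s)) :=
  Real.summable_nat_rpow.mpr (by linarith)

lemma sub_eq (s : ℝ) (S : Set ℕ) :
    ∑' q : {q : ℕ // q.Prime ∧ q ∈ S}, (q : ℝ) ^ (-s) =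
      ∑' n : ℕ, Set.indicator {q : ℕ | q.Prime ∧ q ∈ S} (fun n : ℕ => (n : ℝ) ^ (-s)) n :=
  tsum_subtype {q : ℕ | q.Prime ∧ q ∈ S} (fun n : ℕ => (n : ℝ) ^ (-s))

lemma fin_le {s : ℝ} (hs : 1 < s) (A : Finset ℕ) :
    ∑' n : ℕ, Set.indicator (A : Set ℕ) (fun n : ℕ => (n : ℝ) ^ (-s)) n ≤ A.card := by
  rw [← tsum_subtype (A : Set ℕ) (fun n : ℕ => (n : ℝ) ^ (-s))]
  have h1 : ∑' x : (A : Set ℕ), (((x : ℕ) : ℝ)) ^ (-s) = ∑ x ∈ A, ((x : ℕ) : ℝ) ^ (-s) :=
    Finset.tsum_subtype A (fun n : ℕ => (n : ℝ) ^ (-s))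
  rw [h1]
  calc ∑ x ∈ A, ((x : ℕ) : ℝ) ^ (-s) ≤ ∑ _x ∈ A, (1 : ℝ) :=
        Finset.sum_le_sum (fun x _ => term_le_one hs x)
    _ = A.card := by simp

end PD

open _root_.Pool.Agent.RI.PD in
theorem PD_thm : PD := by
  rintro S T A ⟨δ, hδ, C, h⟩ hST
  refine ⟨δ, hδ, C + A.card, fun s hs hs2 => ?_⟩
  have h1 := h s hs hs2
  rw [sub_eq] at h1 ⊢
  have hsum := summ hs
  have hS := hsum.indicator {q : ℕ | q.Prime ∧ q ∈ S}
  have hT := hsum.indicator {q : ℕ | q.Prime ∧ q ∈ T}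
  have hA := hsum.indicator (A : Set ℕ)
  have h2 : ∑' n : ℕ, Set.indicator {q : ℕ | q.Prime ∧ q ∈ S} (fun n : ℕ => (n : ℝ) ^ (-s)) n ≤
      ∑' n : ℕ, (Set.indicator {q : ℕ | q.Prime ∧ q ∈ T} (fun n : ℕ => (n : ℝ) ^ (-s)) n +
        Set.indicator (A : Set ℕ) (fun n : ℕ => (n : ℝ) ^ (-s)) n) := by
    refine hS.tsum_le_tsum (fun n => ?_) (hT.add hA)
    have hT0 : 0 ≤ Set.indicator {q : ℕ | q.Prime ∧ q ∈ T} (fun n : ℕ => (n : ℝ) ^ (-s)) n :=
      Set.indicator_nonneg (fun x _ => term_nonneg s x) n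
    have hA0 : 0 ≤ Set.indicator (A : Set ℕ) (fun n : ℕ => (n : ℝ) ^ (-s)) n :=
      Set.indicator_nonneg (fun x _ => term_nonneg s x) n
    by_cases hn : n ∈ {q : ℕ | q.Prime ∧ q ∈ S}
    · rw [Set.indicator_of_mem hn]
      by_cases hnA : n ∈ (A : Set ℕ)
      · rw [Set.indicator_of_mem hnA]
        linarith
      · have hnT : n ∈ {q : ℕ | q.Prime ∧ q ∈ T} := ⟨hn.1, hST n hn.2 hn.1 (by simpa using hnA)⟩
        rw [Set.indicator_of_mem hnT]
        linarith
    · rw [Set.indicator_of_notMem hn]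
      linarith
  rw [hT.tsum_add hA] at h2
  have h3 := fin_le hs A
  linarith

end Pool.Agent.RI


end

section

open NumberField Finset IsDedekindDomain
open scoped nonZeroDivisors Pointwise

namespace Pool.Agent.RI.SPL

/-- The decomposition groups over `F` and over `ℚ` agree. -/
lemma card_stab (L : Type) [Field L] [NumberField L] [IsGalois ℚ L]
    (F : IntermediateField ℚ L) (P : Ideal (𝓞 L))
    (h : MulAction.stabilizer (L ≃ₐ[ℚ] L) P ≤ F.fixingSubgroup) :
    Nat.card (MulAction.stabilizer (L ≃ₐ[F] L) P) =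
      Nat.card (MulAction.stabilizer (L ≃ₐ[ℚ] L) P) := by
  have hact : ∀ σ : L ≃ₐ[F] L, (AlgEquiv.restrictScalars ℚ σ : L ≃ₐ[ℚ] L) • P = σ • P := by
    intro σ
    ext x
    rw [Ideal.mem_pointwise_smul_iff_inv_smul_mem, Ideal.mem_pointwise_smul_iff_inv_smul_mem]
    rfl
  apply Nat.card_congr
  refine Equiv.ofBijective (fun σ => ⟨AlgEquiv.restrictScalars ℚ σ.1, ?_⟩) ⟨?_, ?_⟩
  · rw [MulAction.mem_stabilizer_iff, hact]
    exact σ.2
  · intro σ τ hst
    apply Subtype.ext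
    apply AlgEquiv.ext
    intro x
    have := congrArg (fun u => (u.1 : L ≃ₐ[ℚ] L) x) hst
    exact this
  · rintro ⟨σ, hσ⟩
    have hF := h hσ
    refine ⟨⟨{ σ.toRingEquiv with
      commutes' := fun a => by
        have := (IntermediateField.mem_fixingSubgroup_iff F σ).1 hF a.1 a.2
        exact this }, ?_⟩, ?_⟩
    · rw [MulAction.mem_stabilizer_iff, ← hact]
      exact hσ
    · apply Subtype.ext
      apply AlgEquiv.ext
      intro x
      rfl

end Pool.Agent.RI.SPL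

namespace Pool.Agent.RI

open SPL

theorem SPL_thm : SPL := by
  intro L _ _ _ F _ q P hq hP hqP hstab Q hQ hqQ
  have : Fact q.Prime := ⟨hq⟩
  have hq0 : (q : ℤ) ≠ 0 := by exact_mod_cast hq.ne_zero
  have hpr : (Ideal.span {(q : ℤ)}).IsPrime :=
    (Ideal.span_singleton_prime hq0).2 (Nat.prime_iff_prime_int.1 hq)
  have hmax : (Ideal.span {(q : ℤ)}).IsMaximal := hpr.isMaximal (by simpa using hq0)
  have hover : ∀ (K : Type) [Field K] [NumberField K] (R : Ideal (𝓞 K)) [R.IsPrime],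
      (q : 𝓞 K) ∈ R → R.LiesOver (Ideal.span {(q : ℤ)}) := by
    intro K _ _ R hR hqR
    constructor
    refine (hmax.eq_of_le ?_ ?_)
    · exact (Ideal.IsPrime.under ℤ R).ne_top
    · rw [Ideal.span_singleton_le_iff_mem, Ideal.under, Ideal.mem_comap]
      simpa using hqR
  have hPo := hover L P hqP
  have hQo := hover F Q hqQ
  set Q₀ := P.under (𝓞 F) with hQ₀
  have hQ₀p : Q₀.IsPrime := inferInstance
  have hPQ₀ : P.LiesOver Q₀ := ⟨rfl⟩
  have hQ₀o : Q₀.LiesOver (Ideal.span {(q : ℤ)}) := by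
    apply hover F Q₀
    rw [hQ₀, Ideal.under, Ideal.mem_comap]
    simpa using hqP
  have hQ₀b : Q₀ ≠ ⊥ := by
    intro hb
    have : (q : 𝓞 F) ∈ Q₀ := by
      rw [hQ₀, Ideal.under, Ideal.mem_comap]
      simpa using hqP
    rw [hb, Ideal.mem_bot] at this
    exact hq.ne_zero (by exact_mod_cast this)
  have hQ₀m : Q₀.IsMaximal := hQ₀p.isMaximal hQ₀b
  have hfin : Finite (ℤ ⧸ Ideal.span {(q : ℤ)}) :=
    Ring.HasFiniteQuotients.finiteQuotient (by simpa using hq0)
  have hfin' : Finite (𝓞 F ⧸ Q₀) := Ring.HasFiniteQuotients.finiteQuotient hQ₀b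
  have h1 := Ideal.card_stabilizer_eq (G := L ≃ₐ[ℚ] L) (Ideal.span {(q : ℤ)}) P
  have h2 := Ideal.card_stabilizer_eq (G := L ≃ₐ[F] L) Q₀ P
  rw [card_stab L F P hstab, h1] at h2
  have h3 := Ideal.inertiaDegIn_mul_inertiaDegIn (p := Ideal.span {(q : ℤ)}) (P := Q₀)
    (G := F ≃ₐ[ℚ] F) (C := 𝓞 L) (GAC := L ≃ₐ[ℚ] L) (GBC := L ≃ₐ[F] L)
  have h4 := Ideal.ramificationIdxIn_mul_ramificationIdxIn (p := Ideal.span {(q : ℤ)}) (P := Q₀)
    (G := F ≃ₐ[ℚ] F) (C := 𝓞 L) (GAC := L ≃ₐ[ℚ] L) (GBC := L ≃ₐ[F] L)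
  have h5 : Ideal.ramificationIdxIn Q₀ (𝓞 L) ≠ 0 :=
    Ideal.ramificationIdxIn_ne_zero (G := L ≃ₐ[F] L)
  have h6 : Ideal.inertiaDegIn Q₀ (𝓞 L) ≠ 0 :=
    Ideal.inertiaDegIn_ne_zero (G := L ≃ₐ[F] L)
  rw [← h3, ← h4] at h2
  have h7 : Ideal.ramificationIdxIn (Ideal.span {(q : ℤ)}) (𝓞 F) *
      Ideal.inertiaDegIn (Ideal.span {(q : ℤ)}) (𝓞 F) = 1 := by
    have h8 : 0 < Ideal.ramificationIdxIn Q₀ (𝓞 L) * Ideal.inertiaDegIn Q₀ (𝓞 L) :=
      Nat.mul_pos (Nat.pos_of_ne_zero h5) (Nat.pos_of_ne_zero h6)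
    apply Nat.eq_of_mul_eq_mul_right h8
    rw [one_mul]
    calc _ = Ideal.ramificationIdxIn (Ideal.span {(q : ℤ)}) (𝓞 F) *
          Ideal.ramificationIdxIn Q₀ (𝓞 L) *
          (Ideal.inertiaDegIn (Ideal.span {(q : ℤ)}) (𝓞 F) * Ideal.inertiaDegIn Q₀ (𝓞 L)) := by
            ring
      _ = _ := h2
  have h9 := Nat.eq_one_of_mul_eq_one_left h7
  rw [Ideal.inertiaDegIn_eq_inertiaDeg (Ideal.span {(q : ℤ)}) Q (F ≃ₐ[ℚ] F)] at h9
  have h10 := Ideal.pow_inertiaDeg q Q
  rw [h9, pow_one, Ideal.absNorm_apply, Submodule.cardQuot_apply] at h10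
  exact h10.symm

end Pool.Agent.RI


end


section

/-!
# Relative Iwasawa theorem: module COUNTG (number of good elements)
-/

namespace Pool.Agent.RI

namespace COUNTG

/-- `q` generates `Q`. -/
def Gen {Q : Type} [Group Q] (q : Q) : Prop := ∀ r : Q, ∃ j : ℤ, q ^ j = r

lemma card_gen {Q : Type} [Group Q] [Finite Q] (hcyc : ∃ q : Q, Gen q) :
    Nat.card {q : Q // Gen q} = (Nat.card Q).totient := by
  classical
  obtain ⟨q0, hq0⟩ := hcyc
  have : IsCyclic Q := ⟨q0, fun r => by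
    obtain ⟨j, hj⟩ := hq0 r
    exact ⟨j, hj⟩⟩
  have := Fintype.ofFinite Q
  have h1 : ∀ q : Q, Gen q ↔ orderOf q = Nat.card Q := by
    intro q
    constructor
    · intro h
      apply orderOf_eq_card_of_forall_mem_zpowers
      intro r
      obtain ⟨j, hj⟩ := h r
      exact ⟨j, hj⟩
    · intro h r
      have h2 : Subgroup.zpowers q = ⊤ := by
        apply Subgroup.eq_top_of_card_eq
        rw [Nat.card_zpowers, h]
      have h3 : r ∈ Subgroup.zpowers q := by
        rw [h2]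
        trivial
      obtain ⟨j, hj⟩ := h3
      exact ⟨j, hj⟩
  have h4 : Nat.card {q : Q // Gen q} = Nat.card {q : Q // orderOf q = Nat.card Q} :=
    Nat.card_congr (Equiv.subtypeEquivRight h1)
  rw [h4, Nat.card_eq_fintype_card, Fintype.card_subtype, Nat.card_eq_fintype_card]
  exact IsCyclic.card_orderOf_eq_totient dvd_rfl

section core

variable {G Q : Type} [Group G] [Group Q] (N H : Subgroup G) (c : G)

/-- The bijection `N ⊕ N → G`. -/
def FF : N ⊕ N → G := Sum.elim (fun n => (n : G)) (fun n => c * n)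

lemma FF_bij (hN : N.index = 2) (hc : c ∉ N) : Function.Bijective (FF N c) := by
  constructor
  · rintro (a | a) (b | b) h
    · exact congrArg Sum.inl (Subtype.ext h)
    · exfalso
      have h' : (a : G) = c * b := h
      apply hc
      have : c = a * (b : G)⁻¹ := by rw [h']; group
      rw [this]
      exact N.mul_mem a.2 (N.inv_mem b.2)
    · exfalso
      have h' : c * a = (b : G) := h
      apply hc
      have : c = b * (a : G)⁻¹ := by rw [← h']; group
      rw [this]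
      exact N.mul_mem b.2 (N.inv_mem a.2)
    · have h' : c * (a : G) = c * b := h
      exact congrArg Sum.inr (Subtype.ext (mul_left_cancel h'))
  · intro g
    by_cases hg : g ∈ N
    · exact ⟨Sum.inl ⟨g, hg⟩, rfl⟩
    · have h1 : c⁻¹ * g ∈ N := by
        rw [Subgroup.mul_mem_iff_of_index_two hN]
        constructor
        · intro h
          exact absurd (by simpa using N.inv_mem h) hc
        · intro h
          exact absurd h hg
      refine ⟨Sum.inr ⟨c⁻¹ * g, h1⟩, ?_⟩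
      show c * (c⁻¹ * g) = g
      group

/-- Good elements. -/
def GoodG (g : G) : Prop :=
  ∀ τ ρ : G, ρ ∈ N → ∃ j : ℤ, ρ * (τ * g ^ j * τ⁻¹)⁻¹ ∈ H

variable [N.Normal] (π : N →* Q)

/-- Conjugation by `c` on `N`. -/
def kap : N →* N := (MulAut.conjNormal c : MulAut N).toMonoidHom

lemma kap_coe (n : N) : ((kap N c n : N) : G) = c * n * c⁻¹ := rfl

omit [N.Normal] in
lemma mem_iff (hπ : ∀ n : N, π n = 1 ↔ (n : G) ∈ H) (a b : N) :
    (a : G) * (b : G)⁻¹ ∈ H ↔ π b = π a := by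
  have h := hπ (a * b⁻¹)
  rw [map_mul, map_inv, mul_inv_eq_one] at h
  rw [eq_comm, h]
  rfl

lemma good_in (hN : N.index = 2) (hc : c ∉ N) (hab : ∀ a ∈ N, ∀ b ∈ N, a * b = b * a)
    (hπ : ∀ n : N, π n = 1 ↔ (n : G) ∈ H) (hs : Function.Surjective π) (g : N) :
    GoodG N H (g : G) ↔ Gen (π g) ∧ Gen (π (kap N c g)) := by
  constructor
  · intro h
    constructor
    · intro r
      obtain ⟨ρ, rfl⟩ := hs r
      obtain ⟨j, hj⟩ := h 1 ρ ρ.2
      refine ⟨j, ?_⟩
      have h1 : (ρ : G) * ((g ^ j : N) : G)⁻¹ ∈ H := by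
        simpa using hj
      rw [mem_iff N H π hπ] at h1
      rw [← map_zpow]
      exact h1
    · intro r
      obtain ⟨ρ, rfl⟩ := hs r
      obtain ⟨j, hj⟩ := h c ρ ρ.2
      refine ⟨j, ?_⟩
      have h1 : (ρ : G) * (((kap N c g) ^ j : N) : G)⁻¹ ∈ H := by
        rw [Subgroup.coe_zpow, kap_coe, conj_zpow]
        exact hj
      rw [mem_iff N H π hπ] at h1
      rw [← map_zpow]
      exact h1
  · rintro ⟨h1, h2⟩ τ ρ hρ
    by_cases hτ : τ ∈ N
    · obtain ⟨j, hj⟩ := h1 (π ⟨ρ, hρ⟩)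
      refine ⟨j, ?_⟩
      have h3 : τ * (g : G) ^ j * τ⁻¹ = ((g ^ j : N) : G) := by
        rw [hab τ hτ _ (N.zpow_mem g.2 j), mul_assoc, mul_inv_cancel, mul_one]
        rfl
      rw [h3]
      have h4 := (mem_iff N H π hπ ⟨ρ, hρ⟩ (g ^ j)).mpr (by rw [map_zpow]; exact hj)
      exact h4
    · obtain ⟨j, hj⟩ := h2 (π ⟨ρ, hρ⟩)
      refine ⟨j, ?_⟩
      have h5 : c⁻¹ * τ ∈ N := by
        rw [Subgroup.mul_mem_iff_of_index_two hN]
        constructor
        · intro h
          exact absurd (by simpa using N.inv_mem h) hc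
        · intro h
          exact absurd h hτ
      have h3 : τ * (g : G) ^ j * τ⁻¹ = (((kap N c g) ^ j : N) : G) := by
        rw [Subgroup.coe_zpow, kap_coe, conj_zpow]
        have h6 : (c⁻¹ * τ) * (g : G) ^ j * (c⁻¹ * τ)⁻¹ = (g : G) ^ j := by
          rw [hab _ h5 _ (N.zpow_mem g.2 j), mul_assoc, mul_inv_cancel, mul_one]
        calc τ * (g : G) ^ j * τ⁻¹ = c * ((c⁻¹ * τ) * (g : G) ^ j * (c⁻¹ * τ)⁻¹) * c⁻¹ := by group
          _ = _ := by rw [h6]
      rw [h3]
      exact (mem_iff N H π hπ ⟨ρ, hρ⟩ (kap N c g ^ j)).mpr (by rw [map_zpow]; exact hj)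

omit [N.Normal] in
lemma sq_mem (hN : N.index = 2) (g : G) : g ^ 2 ∈ N := by
  rw [pow_two]
  exact Subgroup.mul_self_mem_of_index_two hN g

omit [N.Normal] in
lemma even_of_mem (hN : N.index = 2) {g : G} (hg : g ∉ N) {j : ℤ} (h : g ^ j ∈ N) :
    ∃ i : ℤ, j = 2 * i := by
  rcases Int.even_or_odd' j with ⟨i, rfl | rfl⟩
  · exact ⟨i, rfl⟩
  · exfalso
    apply hg
    have h1 : (g ^ 2) ^ i ∈ N := N.zpow_mem (sq_mem N hN g) i
    have h2 : g = ((g ^ 2) ^ i)⁻¹ * g ^ (2 * i + 1) := by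
      rw [← zpow_natCast g 2, ← zpow_mul, zpow_add, zpow_one]
      push_cast
      group
    rw [h2]
    exact N.mul_mem (N.inv_mem h1) h

lemma good_out (hN : N.index = 2) (hab : ∀ a ∈ N, ∀ b ∈ N, a * b = b * a)
    (hHN : H ≤ N) (hπ : ∀ n : N, π n = 1 ↔ (n : G) ∈ H) (hs : Function.Surjective π)
    {g : G} (hg : g ∉ N) :
    GoodG N H g ↔ Gen (π ⟨g ^ 2, sq_mem N hN g⟩) := by
  -- conjugates of the square
  have hconj : ∀ (τ : G) (i : ℤ), τ * g ^ (2 * i) * τ⁻¹ = (g ^ 2) ^ i := by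
    intro τ i
    have e : g ^ (2 * i) = (g ^ 2) ^ i := by
      rw [← zpow_natCast g 2, ← zpow_mul]; rfl
    rw [e]
    by_cases hτ : τ ∈ N
    · rw [hab τ hτ _ (N.zpow_mem (sq_mem N hN g) i), mul_assoc, mul_inv_cancel, mul_one]
    · have h5 : τ * g⁻¹ ∈ N := by
        rw [Subgroup.mul_mem_iff_of_index_two hN]
        constructor
        · intro h
          exact absurd h hτ
        · intro h
          exact absurd (by simpa using N.inv_mem h) hg
      have h6 : (τ * g⁻¹) * (g ^ 2) ^ i * (τ * g⁻¹)⁻¹ = (g ^ 2) ^ i := by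
        rw [hab _ h5 _ (N.zpow_mem (sq_mem N hN g) i), mul_assoc, mul_inv_cancel, mul_one]
      have h7 : g * (g ^ 2) ^ i * g⁻¹ = (g ^ 2) ^ i := by
        have : Commute g ((g ^ 2) ^ i) := ((Commute.refl g).pow_right 2).zpow_right i
        rw [this.eq, mul_assoc, mul_inv_cancel, mul_one]
      calc τ * (g ^ 2) ^ i * τ⁻¹ = (τ * g⁻¹) * (g * (g ^ 2) ^ i * g⁻¹) * (τ * g⁻¹)⁻¹ := by group
        _ = _ := by rw [h7, h6]
  constructor
  · intro h r
    obtain ⟨ρ, rfl⟩ := hs r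
    obtain ⟨j, hj⟩ := h 1 ρ ρ.2
    have h1 : g ^ j ∈ N := by
      have h2 : (ρ : G) * (g ^ j)⁻¹ ∈ N := hHN (by simpa using hj)
      have h3 := N.mul_mem (N.inv_mem h2) ρ.2
      have h4 : ((ρ : G) * (g ^ j)⁻¹)⁻¹ * ρ = g ^ j := by group
      rwa [h4] at h3
    obtain ⟨i, rfl⟩ := even_of_mem N hN hg h1
    refine ⟨i, ?_⟩
    rw [hconj 1 i] at hj
    rw [← map_zpow]
    exact (mem_iff N H π hπ ρ _).mp hj
  · intro h τ ρ hρ
    obtain ⟨i, hi⟩ := h (π ⟨ρ, hρ⟩)
    refine ⟨2 * i, ?_⟩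
    rw [hconj τ i]
    exact (mem_iff N H π hπ ⟨ρ, hρ⟩ (⟨g ^ 2, sq_mem N hN g⟩ ^ i)).mpr (by rw [map_zpow]; exact hi)

lemma pair_bij (hπ : ∀ n : N, π n = 1 ↔ (n : G) ∈ H) (hs : Function.Surjective π) (hHN : H ≤ N)
    (hcH : ∀ a ∈ H, c * a * c⁻¹ ∈ H → a = 1)
    (hdec : ∀ a ∈ N, ∃ x ∈ H, ∃ y ∈ H, a = x * (c * y * c⁻¹)) :
    Function.Bijective (fun n : N => (π n, π (kap N c n))) := by
  constructor
  · intro a b h
    have h1 : π a = π b := congrArg Prod.fst h
    have h2 : π (kap N c a) = π (kap N c b) := congrArg Prod.snd h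
    have h3 : π (a * b⁻¹) = 1 := by rw [map_mul, map_inv, h1, mul_inv_cancel]
    have h4 : π (kap N c (a * b⁻¹)) = 1 := by
      rw [map_mul, map_mul, map_inv, map_inv, h2, mul_inv_cancel]
    rw [hπ] at h3 h4
    have h5 := hcH _ h3 h4
    have h6 : a * b⁻¹ = 1 := Subtype.ext h5
    exact mul_inv_eq_one.mp h6
  · rintro ⟨q1, q2⟩
    obtain ⟨a, rfl⟩ := hs q1
    obtain ⟨b, hb⟩ := hs (q2 * (π (kap N c a))⁻¹)
    obtain ⟨x, hx, y, hy, hxy⟩ := hdec b b.2
    have hyN : y ∈ N := hHN hy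
    have hxN : x ∈ N := hHN hx
    have e1 : b = ⟨x, hxN⟩ * kap N c ⟨y, hyN⟩ := Subtype.ext hxy
    have e2 : π ⟨x, hxN⟩ = 1 := (hπ _).mpr hx
    have e3 : π ⟨y, hyN⟩ = 1 := (hπ _).mpr hy
    rw [e1, map_mul, e2, one_mul] at hb
    refine ⟨⟨y, hyN⟩ * a, ?_⟩
    show (π (⟨y, hyN⟩ * a), π (kap N c (⟨y, hyN⟩ * a))) = _
    rw [map_mul, e3, one_mul, map_mul, map_mul, hb]
    simp

lemma pair_bij' (z : Q)
    (hb : Function.Bijective (fun n : N => (π n, π (kap N c n)))) :
    Function.Bijective (fun n : N => (π n, π (kap N c n) * z * π n)) := by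
  have h : Function.Bijective (fun q : Q × Q => (q.1, q.2 * z * q.1)) := by
    constructor
    · rintro ⟨a, b⟩ ⟨a', b'⟩ h
      have h1 : a = a' := congrArg Prod.fst h
      have h2 : b * z * a = b' * z * a' := congrArg Prod.snd h
      subst h1
      have h3 : b = b' := mul_right_cancel (mul_right_cancel h2)
      rw [h3]
    · rintro ⟨a, b⟩
      refine ⟨(a, b * a⁻¹ * z⁻¹), ?_⟩
      show (a, b * a⁻¹ * z⁻¹ * z * a) = (a, b)
      simp
  exact h.comp hb

end core

end COUNTG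

open _root_.Pool.Agent.RI.COUNTG in
theorem COUNTG_thm : COUNTG := by
  intro G _ _ N H c m hN hc hab hHN hm hcH hdec hcyc
  classical
  have hNn : N.Normal := Subgroup.normal_of_index_eq_two hN
  have habN : ∀ a b : N, a * b = b * a := fun a b => Subtype.ext (hab a a.2 b b.2)
  have hHn : (H.subgroupOf N).Normal :=
    ⟨fun n hn g => by rw [habN g n, mul_assoc, mul_inv_cancel, mul_one]; exact hn⟩
  have hs : Function.Surjective (QuotientGroup.mk' (H.subgroupOf N)) :=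
    QuotientGroup.mk'_surjective _
  have hπ : ∀ n : N, QuotientGroup.mk' (H.subgroupOf N) n = 1 ↔ (n : G) ∈ H := by
    intro n
    rw [QuotientGroup.mk'_apply, QuotientGroup.eq_one_iff, Subgroup.mem_subgroupOf]
  have hcard : Nat.card (N ⧸ H.subgroupOf N) = m := hm
  generalize hQdef : (QuotientGroup.mk' (H.subgroupOf N)) = π at hs hπ
  have hgen : ∃ q : N ⧸ H.subgroupOf N, Gen q := by
    obtain ⟨x, hx, hy⟩ := hcyc
    refine ⟨π ⟨x, hx⟩, fun r => ?_⟩
    obtain ⟨y, rfl⟩ := hs r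
    obtain ⟨j, hj⟩ := hy y y.2
    refine ⟨j, ?_⟩
    rw [← map_zpow]
    exact (mem_iff N H π hπ y (⟨x, hx⟩ ^ j)).mp hj
  have hphi := card_gen hgen
  rw [hcard] at hphi
  have b1 := pair_bij N H c π hπ hs hHN hcH hdec
  have hcc : c * c ∈ N := Subgroup.mul_self_mem_of_index_two hN c
  have b2 := pair_bij' N c π (π ⟨c * c, hcc⟩) b1
  have hF := FF_bij N c hN hc
  have cN : Nat.card N = m ^ 2 := by
    rw [Nat.card_congr (Equiv.ofBijective _ b1), Nat.card_prod, hcard, pow_two]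
  constructor
  · rw [← Nat.card_congr (Equiv.ofBijective _ hF), Nat.card_sum, cN]
    ring
  · have e1 : Nat.card {g : G // GoodG N H g} =
        Nat.card {x : N ⊕ N // GoodG N H (FF N c x)} :=
      Nat.card_congr ((Equiv.ofBijective _ hF).subtypeEquiv (fun _ => Iff.rfl)).symm
    have e2 : Nat.card {x : N ⊕ N // GoodG N H (FF N c x)} =
        Nat.card {n : N // GoodG N H (n : G)} + Nat.card {n : N // GoodG N H (c * (n : G))} := by
      rw [Nat.card_congr (Equiv.subtypeSum), Nat.card_sum]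
      rfl
    have e3 : Nat.card {n : N // GoodG N H (n : G)} = m.totient ^ 2 := by
      have f1 : {n : N // GoodG N H (n : G)} ≃
          {q : (N ⧸ H.subgroupOf N) × (N ⧸ H.subgroupOf N) // Gen q.1 ∧ Gen q.2} :=
        (Equiv.ofBijective _ b1).subtypeEquiv (fun n => good_in N H c π hN hc hab hπ hs n)
      rw [Nat.card_congr f1, Nat.card_congr Equiv.subtypeProdEquivProd, Nat.card_prod, hphi,
        pow_two]
    have e4 : Nat.card {n : N // GoodG N H (c * (n : G))} = m * m.totient := by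
      have hout : ∀ n : N, c * (n : G) ∉ N := by
        intro n h
        apply hc
        have : c = (c * (n : G)) * (n : G)⁻¹ := by group
        rw [this]
        exact N.mul_mem h (N.inv_mem n.2)
      have hsq : ∀ n : N, π ⟨(c * (n : G)) ^ 2, sq_mem N hN _⟩ =
          π (kap N c n) * π ⟨c * c, hcc⟩ * π n := by
        intro n
        rw [← map_mul, ← map_mul]
        congr 1
        apply Subtype.ext
        show (c * (n : G)) ^ 2 = (c * n * c⁻¹) * (c * c) * n
        rw [pow_two]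
        group
      have f1 : {n : N // GoodG N H (c * (n : G))} ≃
          {q : (N ⧸ H.subgroupOf N) × (N ⧸ H.subgroupOf N) // True ∧ Gen q.2} :=
        (Equiv.ofBijective _ b2).subtypeEquiv (fun n => by
          rw [good_out N H π hN hab hHN hπ hs (hout n), hsq n]
          exact ⟨fun h => ⟨trivial, h⟩, fun h => h.2⟩)
      rw [Nat.card_congr f1,
        Nat.card_congr (Equiv.subtypeProdEquivProd (p := fun _ : N ⧸ H.subgroupOf N => True)),
        Nat.card_prod, hphi, Nat.card_congr (Equiv.subtypeUnivEquiv (fun _ => trivial)), hcard]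
    show Nat.card {g : G // GoodG N H g} = _
    rw [e1, e2, e3, e4]

end Pool.Agent.RI


end

section

/-!
# Relative Iwasawa theorem, module FROBD

The theorem of Frobenius (1896), lower bound with the exact constant: the primes `q` such that some
prime of `L` above `q` has decomposition group generated by an element of `T` have lower Dirichlet
density at least `#T / #G`.
-/

open NumberField IsDedekindDomain Ideal MulAction Filter Topology Asymptotics
open scoped Pointwise ENNReal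

namespace Pool.Agent.RI

namespace FROBD

open Pool.Agent.Lib_helper28.FROB

open Classical in
/-- The sum over the primes with decomposition group in a set of subgroups is bounded by the sum
over the rational primes below. -/
theorem sum_tt_le (L : Type) [Field L] [NumberField L] [IsGalois ℚ L]
    (I : Finset (Subgroup (L ≃ₐ[ℚ] L)))
    (S : Set ℕ) (hS : ∀ w : HeightOneSpectrum (𝓞 L), Dec w ∈ I → pr w ∈ S) {s : ℝ} (hs : 1 < s) :
    ∑ H ∈ I, ∑' w, tt H s w ≤ (Nat.card (L ≃ₐ[ℚ] L) : ℝ) *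
      ∑' q : {q : ℕ // q.Prime ∧ q ∈ S}, (q : ℝ) ^ (-s) := by
  let g : ℕ → ℝ≥0∞ := fun n => ENNReal.ofReal ((n : ℝ) ^ (-s))
  let f : ℕ → ℝ≥0∞ := fun n => if n ∈ S then g n else 0
  have hsum : Summable fun q : {q : ℕ // q.Prime ∧ q ∈ S} => (q : ℝ) ^ (-s) :=
    (Real.summable_nat_rpow.mpr (by linarith : -s < -1)).subtype _
  rw [← Summable.tsum_finsetSum fun H _ => summable_tt H hs]
  have hterm : ∀ w : HeightOneSpectrum (𝓞 L),
      ENNReal.ofReal (∑ H ∈ I, tt H s w) ≤ (Nat.card (Dec w) : ℝ≥0∞) * f (pr w) := by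
    intro w
    by_cases hw : Dec w ∈ I
    · have h1 : ∑ H ∈ I, tt H s w = tt (Dec w) s w := by
        refine Finset.sum_eq_single (Dec w) ?_ (fun h => absurd hw h)
        intro H' _ hne
        rw [tt, if_neg]
        exact fun h' => hne h'.2.symm
      have h2 : f (pr w) = g (pr w) := if_pos (hS w hw)
      rw [h1, h2]
      have h3 : (Nat.card (Dec w) : ℝ≥0∞) * g (pr w) =
          ENNReal.ofReal ((Nat.card (Dec w) : ℝ) * (pr w : ℝ) ^ (-s)) := by
        rw [ENNReal.ofReal_mul (by positivity), ENNReal.ofReal_natCast]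
      rw [h3]
      refine ENNReal.ofReal_le_ofReal ?_
      unfold tt
      split_ifs
      · exact le_rfl
      · positivity
    · have h1 : ∑ H ∈ I, tt H s w = 0 := by
        refine Finset.sum_eq_zero fun H' hH' => ?_
        rw [tt, if_neg]
        exact fun h' => hw (h'.2 ▸ hH')
      rw [h1, ENNReal.ofReal_zero]
      exact bot_le
  have hsm : Summable fun w : HeightOneSpectrum (𝓞 L) => ∑ H ∈ I, tt H s w :=
    summable_sum fun H _ => summable_tt H hs
  have hnn : ∀ w : HeightOneSpectrum (𝓞 L), 0 ≤ ∑ H ∈ I, tt H s w :=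
    fun w => Finset.sum_nonneg fun H _ => tt_nonneg H s w
  have h1 : ENNReal.ofReal (∑' w, ∑ H ∈ I, tt H s w) ≤
      ∑' w : HeightOneSpectrum (𝓞 L), (Nat.card (Dec w) : ℝ≥0∞) * f (pr w) :=
    (ENNReal.ofReal_tsum_of_nonneg hnn hsm).le.trans (ENNReal.tsum_le_tsum hterm)
  have h2 : ∑' p : Nat.Primes, f p = ∑' q : {q : ℕ // q.Prime ∧ q ∈ S}, g q := by
    have e1 : ∑' p : Nat.Primes, f p = ∑' n : ℕ, Set.indicator {n | n.Prime} f n :=
      tsum_subtype {n : ℕ | n.Prime} f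
    have e2 : ∑' q : {q : ℕ // q.Prime ∧ q ∈ S}, g q =
        ∑' n : ℕ, Set.indicator {n | n.Prime ∧ n ∈ S} g n :=
      tsum_subtype {n : ℕ | n.Prime ∧ n ∈ S} g
    rw [e1, e2]
    refine tsum_congr fun n => ?_
    simp only [Set.indicator, Set.mem_ofPred_eq]
    by_cases h1 : n.Prime <;> by_cases h2 : n ∈ S <;> simp [h1, h2, f]
  have h3 : ENNReal.ofReal (∑' w, ∑ H ∈ I, tt H s w) ≤
      ENNReal.ofReal ((Nat.card (L ≃ₐ[ℚ] L) : ℝ) *
        ∑' q : {q : ℕ // q.Prime ∧ q ∈ S}, (q : ℝ) ^ (-s)) := by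
    refine h1.trans ?_
    rw [tsum_dec, h2, ENNReal.ofReal_mul (by positivity), ENNReal.ofReal_natCast,
      ENNReal.ofReal_tsum_of_nonneg (fun q => by positivity) hsum]
  exact (ENNReal.ofReal_le_ofReal_iff (mul_nonneg (by positivity)
    (tsum_nonneg fun q => by positivity))).mp h3

open Classical in
/-- The number of elements of `T` is at most the number of generators of the cyclic groups
generated by the elements of `T`. -/
theorem card_le_gen {G : Type} [Group G] [Finite G] (T : Set G) (t : Finset (Subgroup G))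
    (ht : ∀ g ∈ T, Subgroup.zpowers g ∈ t) : Nat.card T ≤ ∑ H ∈ t, gen H := by
  have := Fintype.ofFinite G
  have h1 : Nat.card T = (Finset.univ.filter fun h : G => h ∈ T).card := by
    rw [← Fintype.card_subtype, Nat.card_eq_fintype_card]
  rw [h1, Finset.card_eq_sum_card_fiberwise (f := fun h : G => Subgroup.zpowers h) (t := t)]
  · refine Finset.sum_le_sum fun H' _ => ?_
    unfold gen
    rw [Nat.card_eq_fintype_card, Fintype.card_subtype]
    refine Finset.card_le_card fun h hh => ?_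
    simp only [Finset.mem_filter, Finset.mem_univ, true_and] at hh ⊢
    exact hh.2
  · intro h hh
    simp only [Finset.coe_filter, Finset.mem_univ, true_and, Set.mem_ofPred_eq] at hh ⊢
    exact ht h hh

/-- The lower bound for an arbitrary set `T`. -/
theorem main (L : Type) [Field L] [NumberField L] [IsGalois ℚ L] (T : Set (L ≃ₐ[ℚ] L)) :
    DensityGE {q : ℕ | ∃ g ∈ T, ∃ P : Ideal (𝓞 L), P.IsPrime ∧ (q : 𝓞 L) ∈ P ∧
      MulAction.stabilizer (L ≃ₐ[ℚ] L) P = Subgroup.zpowers g}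
      ((Nat.card T : ℝ) / Nat.card (L ≃ₐ[ℚ] L)) := by
  classical
  have := Fintype.ofFinite (Subgroup (L ≃ₐ[ℚ] L))
  set I : Finset (Subgroup (L ≃ₐ[ℚ] L)) :=
    Finset.univ.filter fun H => ∃ g ∈ T, Subgroup.zpowers g = H with hI
  set S := {q : ℕ | ∃ g ∈ T, ∃ P : Ideal (𝓞 L), P.IsPrime ∧ (q : 𝓞 L) ∈ P ∧
      MulAction.stabilizer (L ≃ₐ[ℚ] L) P = Subgroup.zpowers g} with hSdef
  have hS : ∀ w : HeightOneSpectrum (𝓞 L), Dec w ∈ I → pr w ∈ S := by
    intro w hw
    obtain ⟨g, hg, hgw⟩ := (Finset.mem_filter.mp hw).2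
    refine ⟨g, hg, w.asIdeal, w.isPrime, ?_, hgw.symm⟩
    have h1 : (pr w : ℤ) ∈ w.asIdeal.under ℤ := by
      rw [under_eq]
      exact Ideal.mem_span_singleton_self _
    rw [Ideal.mem_comap] at h1
    simpa using h1
  have hT : (Nat.card T : ℝ) ≤ ∑ H ∈ I, (gen H : ℝ) := by
    have h := card_le_gen T I fun g hg => Finset.mem_filter.mpr ⟨Finset.mem_univ _, g, hg, rfl⟩
    exact_mod_cast h
  have hO : (fun s : ℝ => ∑ H ∈ I, (∑' w, tt H s w - gen H * Real.log (1 / (s - 1))))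
      =O[𝓝[>] 1] (fun _ => (1 : ℝ)) :=
    IsBigO.fun_sum fun H _ => isBigO_tt H
  obtain ⟨c, hc⟩ := hO.bound
  have hlt : ∀ᶠ s : ℝ in 𝓝[>] 1, s < 2 := by
    have : Set.Ioo (1 : ℝ) 2 ∈ 𝓝[>] (1 : ℝ) := Ioo_mem_nhdsGT (by norm_num)
    filter_upwards [this] with s hs
    exact hs.2
  have hev : ∀ᶠ s : ℝ in 𝓝[>] 1, (Nat.card T : ℝ) * Real.log (1 / (s - 1)) - |c| ≤
      ∑ H ∈ I, ∑' w, tt H s w := by
    filter_upwards [hc, hlt, self_mem_nhdsWithin] with s hs hs2 hs1
    rw [norm_one, mul_one, Real.norm_eq_abs, Finset.sum_sub_distrib, ← Finset.sum_mul] at hs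
    have h1 := (abs_le.mp hs).1
    have h2 := le_abs_self c
    have hs1' : (1 : ℝ) < s := hs1
    have hlog : 0 ≤ Real.log (1 / (s - 1)) := by
      apply Real.log_nonneg
      rw [le_div_iff₀ (by linarith)]
      linarith
    have h3 := mul_le_mul_of_nonneg_right hT hlog
    linarith
  obtain ⟨b, hb1, hb⟩ := mem_nhdsGT_iff_exists_Ioo_subset.mp hev
  have hb1' : (1 : ℝ) < b := hb1
  set A : ℝ := ((Nat.card (L ≃ₐ[ℚ] L) : ℕ) : ℝ) with hA
  have hApos : 0 < A := by
    rw [hA]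
    exact_mod_cast Nat.card_pos
  have hδ : 0 ≤ (Nat.card T : ℝ) / A := by positivity
  refine ⟨|c| / A + Nat.card T / A * |Real.log (1 / (b - 1))|, fun s hs1 hs2 => ?_⟩
  have hnn : 0 ≤ ∑' q : {q : ℕ // q.Prime ∧ q ∈ S}, (q : ℝ) ^ (-s) :=
    tsum_nonneg fun q => by positivity
  have hcA : 0 ≤ |c| / A := by positivity
  have habs : 0 ≤ Nat.card T / A * |Real.log (1 / (b - 1))| := by positivity
  rcases lt_or_ge s b with hsb | hsb
  · have h1 : (Nat.card T : ℝ) * Real.log (1 / (s - 1)) - |c| ≤ ∑ H ∈ I, ∑' w, tt H s w :=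
      hb ⟨hs1, hsb⟩
    have h2 := sum_tt_le L I S hS hs1
    have h3 : ((Nat.card T : ℝ) * Real.log (1 / (s - 1)) - |c|) / A ≤
        ∑' q : {q : ℕ // q.Prime ∧ q ∈ S}, (q : ℝ) ^ (-s) := by
      rw [div_le_iff₀' hApos]
      exact h1.trans h2
    rw [sub_div, mul_div_right_comm] at h3
    linarith
  · have h1 : Real.log (1 / (s - 1)) ≤ Real.log (1 / (b - 1)) := by
      refine Real.log_le_log (by have := sub_pos.mpr hs1; positivity) ?_
      exact one_div_le_one_div_of_le (by linarith) (by linarith)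
    have h2 := le_abs_self (Real.log (1 / (b - 1)))
    have h3 : (Nat.card T : ℝ) / A * Real.log (1 / (s - 1)) ≤
        Nat.card T / A * |Real.log (1 / (b - 1))| :=
      mul_le_mul_of_nonneg_left (h1.trans h2) hδ
    linarith

end FROBD

/-- Module FROBD. -/
theorem FROBD_thm : FROBD := fun L _ _ _ T _ => FROBD.main L T

end Pool.Agent.RI


end

section

/-!
# The theorem of Frobenius for one division, from the version with exact constants
-/

open NumberField
open scoped Pointwise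

namespace Pool.Agent.RI

namespace FROBOF

lemma zpowers_conj {G : Type} [Group G] {g h : G} (τ : G)
    (H : Subgroup.zpowers g = Subgroup.zpowers h) :
    Subgroup.zpowers (τ * g * τ⁻¹) = Subgroup.zpowers (τ * h * τ⁻¹) := by
  have key : ∀ a b : G, Subgroup.zpowers a = Subgroup.zpowers b →
      Subgroup.zpowers (τ * a * τ⁻¹) ≤ Subgroup.zpowers (τ * b * τ⁻¹) := by
    intro a b hab
    rw [Subgroup.zpowers_le]
    have : a ∈ Subgroup.zpowers b := hab ▸ Subgroup.mem_zpowers a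
    obtain ⟨i, rfl⟩ := this
    exact ⟨i, by simp [conj_zpow]⟩
  exact le_antisymm (key g h H) (key h g H.symm)

end FROBOF

theorem FROB_of (hF : FROBD) (hPD : PDGE) : FROB := by
  intro L _ _ _ σ
  let T : Set (L ≃ₐ[ℚ] L) := {h | ∃ τ : L ≃ₐ[ℚ] L, Subgroup.zpowers h =
    Subgroup.zpowers (τ * σ * τ⁻¹)}
  have hσT : σ ∈ T := ⟨1, by simp⟩
  have hd := hF L T (by
    rintro g h τ' ⟨τ, hτ⟩ hh
    refine ⟨τ' * τ, ?_⟩
    rw [hh, FROBOF.zpowers_conj τ' hτ]
    simp only [mul_inv_rev, mul_assoc])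
  have hpos : 0 < (Nat.card T : ℝ) / Nat.card (L ≃ₐ[ℚ] L) := by
    have h1 : 0 < Nat.card T := by
      have : Nonempty T := ⟨⟨σ, hσT⟩⟩
      exact Nat.card_pos
    have h2 : 0 < Nat.card (L ≃ₐ[ℚ] L) := Nat.card_pos
    exact div_pos (by exact_mod_cast h1) (by exact_mod_cast h2)
  refine ⟨_, hpos, hPD _ _ ∅ _ hd ?_⟩
  rintro q ⟨g, ⟨τ, hτ⟩, P, hP, hqP, hst⟩ - -
  refine ⟨τ⁻¹ • P, ?_, ?_, ?_⟩
  · have := hP
    exact Ideal.IsPrime.smul (τ⁻¹)
  · rw [Ideal.mem_pointwise_smul_iff_inv_smul_mem]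
    have : (τ⁻¹)⁻¹ • (q : 𝓞 L) = (q : 𝓞 L) := by
      rw [inv_inv]
      exact map_natCast (MulSemiringAction.toRingHom (L ≃ₐ[ℚ] L) (𝓞 L) τ) q
    rw [this]
    exact hqP
  · rw [MulAction.stabilizer_smul_eq_stabilizer_map_conj, hst, hτ]
    rw [MonoidHom.map_zpowers]
    congr 1
    simp [mul_assoc]

end Pool.Agent.RI


end

section

/-!
# GALE: the Galois group of the Galois closure of `K`, `K / k` cyclic, `K ∩ conj K = k`
-/

set_option autoImplicit false

open NumberField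

namespace Pool.Agent.RI

namespace GALE

/-- Complex conjugation over `ℚ`. -/
noncomputable def cj : ℂ →ₐ[ℚ] ℂ :=
  { toRingHom := starRingEnd ℂ
    commutes' := fun q => by
      change (starRingEnd ℂ) (algebraMap ℚ ℂ q) = algebraMap ℚ ℂ q
      rw [eq_ratCast]
      exact map_ratCast (starRingEnd ℂ) q }

theorem cj_apply (z : ℂ) : cj z = (starRingEnd ℂ) z := rfl

/-- A normal subfield is stable under complex conjugation. -/
theorem conj_mem {L : IntermediateField ℚ ℂ} (hn : Normal ℚ L) (x : ℂ) (hx : x ∈ L) :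
    (starRingEnd ℂ) x ∈ L := by
  have hn' : @Normal ℚ L _ _ (IntermediateField.algebra' L) := hn
  let f : L →ₐ[ℚ] ℂ := cj.comp L.val
  have h1 : f.fieldRange = L := AlgHom.fieldRange_of_normal f
  have h2 : f ⟨x, hx⟩ ∈ f.fieldRange := ⟨_, rfl⟩
  rw [h1] at h2
  exact h2

/-- Complex conjugation on `L`. -/
noncomputable def conjL {L : IntermediateField ℚ ℂ} (hn : Normal ℚ L) : L ≃ₐ[ℚ] L where
  toFun x := ⟨(starRingEnd ℂ) x, conj_mem hn x x.2⟩
  invFun x := ⟨(starRingEnd ℂ) x, conj_mem hn x x.2⟩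
  left_inv x := Subtype.ext (Complex.conj_conj (x : ℂ))
  right_inv x := Subtype.ext (Complex.conj_conj (x : ℂ))
  map_mul' a b := Subtype.ext (map_mul (starRingEnd ℂ) (a : ℂ) (b : ℂ))
  map_add' a b := Subtype.ext (map_add (starRingEnd ℂ) (a : ℂ) (b : ℂ))
  commutes' q := Subtype.ext (cj.commutes q)

theorem conjL_apply {L : IntermediateField ℚ ℂ} (hn : Normal ℚ L) (x : L) :
    ((conjL hn x : L) : ℂ) = (starRingEnd ℂ) (x : ℂ) := rfl

theorem conjL_inv {L : IntermediateField ℚ ℂ} (hn : Normal ℚ L) : (conjL hn)⁻¹ = conjL hn := by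
  rw [inv_eq_iff_mul_eq_one]
  apply AlgEquiv.ext
  intro x
  exact Subtype.ext (Complex.conj_conj (x : ℂ))

/-- An embedding of `K` that is trivial on `k` has image `K`. -/
theorem rng {k K : IntermediateField ℚ ℂ} (hkK : k ≤ K)
    (hnk : Normal k (IntermediateField.extendScalars hkK)) (f : K →ₐ[ℚ] ℂ)
    (hf : ∀ z (hz : z ∈ k), f ⟨z, hkK hz⟩ = z) (y : K) : f y ∈ K := by
  let f' : IntermediateField.extendScalars hkK →ₐ[k] ℂ :=
    { toFun := fun y => f ⟨y.1, y.2⟩
      map_one' := map_one f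
      map_mul' := fun a b => map_mul f ⟨a.1, a.2⟩ ⟨b.1, b.2⟩
      map_zero' := map_zero f
      map_add' := fun a b => map_add f ⟨a.1, a.2⟩ ⟨b.1, b.2⟩
      commutes' := fun a => hf a.1 a.2 }
  have h1 : f'.fieldRange = IntermediateField.extendScalars hkK := AlgHom.fieldRange_of_normal f'
  have h2 : f' ⟨y.1, y.2⟩ ∈ f'.fieldRange := ⟨_, rfl⟩
  rw [h1] at h2
  exact h2

/-- The embeddings of an imaginary quadratic field. -/
theorem two {k : IntermediateField ℚ ℂ} (hk : Module.finrank ℚ k = 2)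
    (hz : ∃ z ∈ k, (starRingEnd ℂ) z ≠ z) (f : k →+* ℂ) :
    (∀ z : k, f z = z) ∨ (∀ z : k, (starRingEnd ℂ) (f z) = z) := by
  classical
  have hfd : FiniteDimensional ℚ k := FiniteDimensional.of_finrank_pos (by omega)
  let g1 : k →+* ℂ := k.val.toRingHom
  let g2 : k →+* ℂ := (starRingEnd ℂ).comp k.val.toRingHom
  have h12 : g1 ≠ g2 := by
    intro he
    obtain ⟨z, hzk, hz'⟩ := hz
    exact hz' (congrArg (fun h : k →+* ℂ => h ⟨z, hzk⟩) he).symm
  have hcard : Fintype.card (k →+* ℂ) = 2 := by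
    rw [NumberField.Embeddings.card k ℂ, hk]
  by_cases h1 : f = g1
  · left
    intro z
    rw [h1]
    rfl
  · right
    by_cases h2 : f = g2
    · intro z
      rw [h2]
      exact Complex.conj_conj (z : ℂ)
    · exfalso
      have h3 : ({f, g1, g2} : Finset (k →+* ℂ)).card = 3 := by
        rw [Finset.card_eq_three]
        exact ⟨_, _, _, h1, h2, h12, rfl⟩
      have h4 := Finset.card_le_univ ({f, g1, g2} : Finset (k →+* ℂ))
      omega

/-- An automorphism of the Galois closure which fixes `K` and `conj K` is trivial. -/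
theorem triv {k K L : IntermediateField ℚ ℂ} [FiniteDimensional ℚ K] (hkK : k ≤ K)
    (hk : Module.finrank ℚ k = 2) (hz : ∃ z ∈ k, (starRingEnd ℂ) z ≠ z)
    (hnk : Normal k (IntermediateField.extendScalars hkK)) (hKL : K ≤ L) (hn : Normal ℚ L)
    (hL : L ≤ IntermediateField.normalClosure ℚ K ℂ) (a : L ≃ₐ[ℚ] L)
    (h1 : ∀ x : L, (x : ℂ) ∈ K → a x = x)
    (h2 : ∀ x : L, (starRingEnd ℂ) (x : ℂ) ∈ K → a x = x) : a = 1 := by
  let E0 : IntermediateField ℚ L := IntermediateField.fixedField (Subgroup.zpowers a)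
  let E : IntermediateField ℚ ℂ := IntermediateField.lift E0
  have hE0 : ∀ x : L, a x = x → x ∈ E0 := by
    intro x hx
    rw [IntermediateField.mem_fixedField_iff]
    intro g hg
    obtain ⟨j, rfl⟩ := Subgroup.mem_zpowers_iff.1 hg
    have h3 : a ∈ MulAction.stabilizer (L ≃ₐ[ℚ] L) x := hx
    exact Subgroup.zpow_mem _ h3 j
  have hE : ∀ x : L, a x = x → (x : ℂ) ∈ E := fun x hx =>
    (IntermediateField.mem_lift x).2 (hE0 x hx)
  have hle : IntermediateField.normalClosure ℚ K ℂ ≤ E := by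
    rw [normalClosure_le_iff]
    rintro f _ ⟨y, rfl⟩
    change f y ∈ E
    let fk : k →+* ℂ := (f.comp (IntermediateField.inclusion hkK)).toRingHom
    rcases two hk hz fk with h | h
    · have h3 : f y ∈ K := rng hkK hnk f (fun z hz' => h ⟨z, hz'⟩) y
      exact hE ⟨f y, hKL h3⟩ (h1 _ h3)
    · have h3 : (starRingEnd ℂ) (f y) ∈ K :=
        rng hkK hnk (cj.comp f) (fun z hz' => h ⟨z, hz'⟩) y
      have h4 : f y ∈ L := by
        have h5 := conj_mem hn _ (hKL h3)
        rwa [Complex.conj_conj] at h5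
      exact hE ⟨f y, h4⟩ (h2 _ h3)
  apply AlgEquiv.ext
  intro x
  have h3 : (x : ℂ) ∈ E := hle (hL x.2)
  have h4 : x ∈ E0 := (IntermediateField.mem_lift x).1 h3
  rw [IntermediateField.mem_fixedField_iff] at h4
  exact h4 a (Subgroup.mem_zpowers a)

/-- The Galois correspondence for the group `fixG`. -/
theorem mem_of_fixed {K L : IntermediateField ℚ ℂ} [FiniteDimensional ℚ L] (hKL : K ≤ L)
    (hL : IsGalois ℚ L) (x : L) (hx : ∀ g ∈ GALB.fixG L K, g x = x) : (x : ℂ) ∈ K := by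
  have hL2 : @IsGalois ℚ _ L _ (IntermediateField.algebra' L) := hL
  have h1 : x ∈ IntermediateField.fixedField
      (IntermediateField.fixingSubgroup (IntermediateField.restrict hKL)) := by
    rw [IntermediateField.mem_fixedField_iff]
    intro g hg
    apply hx
    intro y hy
    rw [IntermediateField.mem_fixingSubgroup_iff] at hg
    exact hg y ((IntermediateField.mem_restrict hKL y).2 hy)
  rw [IsGalois.fixedField_fixingSubgroup] at h1
  exact (IntermediateField.mem_restrict hKL x).1 h1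

end GALE

open GALB _root_.Pool.Agent.RI.GALE in
theorem GALE_thm (h : COUNTG) : GALE := by
  intro k K _ hkK hk hz hKk hcyc hcap
  let L : IntermediateField ℚ ℂ := IntermediateField.normalClosure ℚ K ℂ
  have hKL : K ≤ L := IntermediateField.le_normalClosure K
  have hkL : k ≤ L := hkK.trans hKL
  have hfd : FiniteDimensional ℚ L := inferInstance
  have hnc : IsNormalClosure ℚ K L :=
    Algebra.IsAlgebraic.isNormalClosure_normalClosure
      (fun x => IsAlgClosed.splits _)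
  have hnL : Normal ℚ L := hnc.normal (K := K)
  have hgL : IsGalois ℚ L := ⟨⟩
  have hnk : Normal k (IntermediateField.extendScalars hkK) := hKk.to_normal
  have hLle : L ≤ IntermediateField.normalClosure ℚ K ℂ := le_rfl
  clear_value L
  obtain ⟨c, hc⟩ : ∃ c : L ≃ₐ[ℚ] L, c = conjL hnL := ⟨_, rfl⟩
  have hcap' : ∀ x : L, ((c x : L) : ℂ) = (starRingEnd ℂ) (x : ℂ) := by
    intro x
    rw [hc]
    rfl
  have hcinv : c⁻¹ = c := by rw [hc]; exact conjL_inv hnL
  obtain ⟨N, hN⟩ : ∃ N : Subgroup (L ≃ₐ[ℚ] L), N = fixG L k := ⟨_, rfl⟩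
  obtain ⟨H, hH⟩ : ∃ H : Subgroup (L ≃ₐ[ℚ] L), H = fixG L K := ⟨_, rfl⟩
  have hHN : H ≤ N := by
    rw [hH, hN]
    intro g hg x hx
    exact hg x (hkK hx)
  have hcN : c ∉ N := by
    rw [hN]
    intro hc'
    obtain ⟨z, hzk, hz'⟩ := hz
    apply hz'
    have h1 := hc' ⟨z, hkL hzk⟩ hzk
    have h2 := congrArg (fun y : L => (y : ℂ)) h1
    simp only at h2
    rw [hcap'] at h2
    exact h2
  have hquad : ∀ x y : L ≃ₐ[ℚ] L, x ∉ N → y ∉ N → x⁻¹ * y ∈ N := by
    rw [hN]
    exact fun x y hx hy => quad hkL hk x y hx hy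
  have hidx : N.index = 2 := by
    rw [Subgroup.index_eq_two_iff]
    refine ⟨c, fun b => ?_⟩
    by_cases hb : b ∈ N
    · right
      refine ⟨hb, fun h1 => hcN ?_⟩
      have h2 := N.mul_mem (N.inv_mem hb) h1
      rwa [inv_mul_cancel_left] at h2
    · left
      refine ⟨?_, hb⟩
      have h1 : b⁻¹ ∉ N := fun h2 => hb (by simpa using N.inv_mem h2)
      have h2 := hquad b⁻¹ c h1 hcN
      rwa [inv_inv] at h2
  have hNn : N.Normal := Subgroup.normal_of_index_eq_two hidx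
  have hinj : ∀ a ∈ H, c * a * c⁻¹ ∈ H → a = 1 := by
    intro a ha hca
    rw [hH] at ha hca
    refine triv hkK hk hz hnk hKL hnL hLle a ha ?_
    intro x hx
    have h1 := hca (c x) (by rw [hcap']; exact hx)
    have h2 : (c * a * c⁻¹) (c x) = c (a x) := by
      have h3 : c⁻¹ (c x) = x := c.symm_apply_apply x
      change c (a (c⁻¹ (c x))) = _
      rw [h3]
    rw [h2] at h1
    exact c.injective h1
  -- the restriction to `K`
  obtain ⟨r, hr⟩ : ∃ r : fixG L k →* ((IntermediateField.extendScalars hkK) ≃ₐ[k]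
      (IntermediateField.extendScalars hkK)), r = res hkK hKL hnk := ⟨_, rfl⟩
  have hrs : Function.Surjective r := by
    rw [hr]
    exact res_surjective hkK hKL hnk hnL
  have hrk : ∀ b : fixG L k, r b = 1 → (b : L ≃ₐ[ℚ] L) ∈ H := by
    intro b hb
    rw [hH]
    intro x hx
    rw [hr] at hb
    have h1 := congrArg (fun s => ((s ⟨x.1, hx⟩ : IntermediateField.extendScalars hkK) : ℂ)) hb
    exact Subtype.ext h1
  have hrk' : ∀ b : fixG L k, (b : L ≃ₐ[ℚ] L) ∈ H → r b = 1 := by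
    intro b hb
    rw [hH] at hb
    rw [hr]
    apply AlgEquiv.ext
    intro x
    apply Subtype.ext
    rw [res_apply]
    exact congrArg (fun y : L => (y : ℂ)) (hb ⟨x.1, hKL x.2⟩ x.2)
  have hcomm0 : ∀ a b : ((IntermediateField.extendScalars hkK) ≃ₐ[k]
      (IntermediateField.extendScalars hkK)), a * b = b * a := by
    let _ := IsCyclic.commGroup (α := ((IntermediateField.extendScalars hkK) ≃ₐ[k]
      (IntermediateField.extendScalars hkK)))
    exact fun a b => mul_comm a b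
  have hcommH : ∀ a ∈ N, ∀ b ∈ N, a * b * a⁻¹ * b⁻¹ ∈ H := by
    intro a ha b hb
    rw [hN] at ha hb
    have h1 := hrk (⟨a, ha⟩ * ⟨b, hb⟩ * ⟨a, ha⟩⁻¹ * ⟨b, hb⟩⁻¹) (by
      rw [map_mul, map_mul, map_mul, map_inv, map_inv, hcomm0 (r ⟨a, ha⟩) (r ⟨b, hb⟩)]
      group)
    exact h1
  have habel : ∀ a ∈ N, ∀ b ∈ N, a * b = b * a := by
    intro a ha b hb
    have h1 := hcommH a ha b hb
    have h2 := hcommH _ (hNn.conj_mem a ha c) _ (hNn.conj_mem b hb c)
    have h3 : c * (a * b * a⁻¹ * b⁻¹) * c⁻¹ =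
        c * a * c⁻¹ * (c * b * c⁻¹) * (c * a * c⁻¹)⁻¹ * (c * b * c⁻¹)⁻¹ := by group
    have h4 := hinj _ h1 (by rw [h3]; exact h2)
    have h5 : a * b = (a * b * a⁻¹ * b⁻¹) * (b * a) := by group
    rw [h5, h4, one_mul]
  have hrel : H.relIndex N = Module.finrank k (IntermediateField.extendScalars hkK) := by
    have h1 : H.subgroupOf N = (r.comp (MulEquiv.subgroupCongr hN).toMonoidHom).ker := by
      ext b
      rw [Subgroup.mem_subgroupOf, MonoidHom.mem_ker]
      constructor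
      · intro hb
        exact hrk' _ hb
      · intro hb
        exact hrk _ hb
    have h2 : Function.Surjective (r.comp (MulEquiv.subgroupCongr hN).toMonoidHom) :=
      hrs.comp (MulEquiv.subgroupCongr hN).surjective
    have hfdk : FiniteDimensional k (IntermediateField.extendScalars hkK) := by
      let _ := algC hkK
      have hst : IsScalarTower ℚ k K := IsScalarTower.of_algebraMap_eq (fun _ => rfl)
      have h3 : FiniteDimensional k K := FiniteDimensional.right ℚ k K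
      exact (extEquiv hkK).symm.toLinearEquiv.finiteDimensional
    rw [Subgroup.relIndex, h1, Subgroup.index_ker, MonoidHom.range_eq_top.2 h2,
      Subgroup.card_top]
    exact IsGalois.card_aut_eq_finrank k (IntermediateField.extendScalars hkK)
  have hgen : ∀ a ∈ N, ∃ x ∈ H, ∃ y ∈ H, a = x * (c * y * c⁻¹) := by
    let S : Subgroup (L ≃ₐ[ℚ] L) :=
      { carrier := {g | ∃ x ∈ H, ∃ y ∈ H, g = x * (c * y * c⁻¹)}
        one_mem' := ⟨1, H.one_mem, 1, H.one_mem, by group⟩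
        mul_mem' := by
          rintro _ _ ⟨x, hx, y, hy, rfl⟩ ⟨x', hx', y', hy', rfl⟩
          refine ⟨x * x', H.mul_mem hx hx', y * y', H.mul_mem hy hy', ?_⟩
          have h1 := habel _ (hNn.conj_mem y (hHN hy) c) _ (hHN hx')
          calc x * (c * y * c⁻¹) * (x' * (c * y' * c⁻¹))
              = x * ((c * y * c⁻¹) * x') * (c * y' * c⁻¹) := by group
            _ = x * (x' * (c * y * c⁻¹)) * (c * y' * c⁻¹) := by rw [h1]
            _ = x * x' * (c * (y * y') * c⁻¹) := by group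
        inv_mem' := by
          rintro _ ⟨x, hx, y, hy, rfl⟩
          refine ⟨x⁻¹, H.inv_mem hx, y⁻¹, H.inv_mem hy, ?_⟩
          have h1 := habel _ (hNn.conj_mem y⁻¹ (N.inv_mem (hHN hy)) c) _ (N.inv_mem (hHN hx))
          rw [← h1]
          group }
    have hS1 : ∀ g ∈ H, g ∈ S := fun g hg => ⟨g, hg, 1, H.one_mem, by group⟩
    have hS2 : ∀ g ∈ H, c * g * c⁻¹ ∈ S := fun g hg => ⟨1, H.one_mem, g, hg, by group⟩
    have hfix : ∀ x : L, x ∈ IntermediateField.fixedField S → (x : ℂ) ∈ k := by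
      intro x hx
      rw [IntermediateField.mem_fixedField_iff] at hx
      have h1 : (x : ℂ) ∈ K := mem_of_fixed hKL hgL x fun g hg => hx g (hS1 g (by rw [hH]; exact hg))
      have h2 : ((c⁻¹ x : L) : ℂ) ∈ K := by
        refine mem_of_fixed hKL hgL (c⁻¹ x) fun g hg => ?_
        have h3 := hx _ (hS2 g (by rw [hH]; exact hg))
        have h4 : (c * g * c⁻¹) x = c (g (c⁻¹ x)) := rfl
        rw [h4] at h3
        have h5 : c (c⁻¹ x) = x := c.apply_symm_apply x
        apply c.injective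
        rw [h3, h5]
      rw [hcinv, hcap'] at h2
      exact hcap _ h1 h2
    intro a ha
    have h1 : a ∈ IntermediateField.fixingSubgroup (IntermediateField.fixedField S) := by
      rw [IntermediateField.mem_fixingSubgroup_iff]
      intro x hx
      rw [hN] at ha
      exact ha x (hfix x hx)
    rw [IntermediateField.fixingSubgroup_fixedField] at h1
    exact h1
  have hcyc' : ∃ x ∈ N, ∀ y ∈ N, ∃ j : ℤ, y * (x ^ j)⁻¹ ∈ H := by
    obtain ⟨g0, hg0⟩ := hcyc.exists_generator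
    obtain ⟨b, hb⟩ := hrs g0
    refine ⟨b.1, by rw [hN]; exact b.2, fun y hy => ?_⟩
    rw [hN] at hy
    obtain ⟨j, hj⟩ := Subgroup.mem_zpowers_iff.1 (hg0 (r ⟨y, hy⟩))
    refine ⟨j, ?_⟩
    exact hrk (⟨y, hy⟩ * (b ^ j)⁻¹) (by
      rw [map_mul, map_inv, map_zpow, hb, hj, mul_inv_cancel])
  obtain ⟨h1, h2⟩ := h (L ≃ₐ[ℚ] L) N H c _ hidx hcN habel hHN hrel hinj hgen hcyc'
  refine ⟨L, hKL, hfd, hgL, h1, ?_⟩
  rw [← h2, hN, hH]
  rfl

end Pool.Agent.RI


end

section

/-!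
# Density of primes with trivial relative `p`-class groups in the cyclotomic tower
-/

open NumberField IsDedekindDomain
open scoped Pointwise

namespace Pool.Agent.RI

theorem MAIND_thm (hC : MAINC) (hFROB : FROBD) (hNSF : NSF) (hPD : PDGE) : MAIND := by
  intro F K L _ hFK hKL hGL hGK
  have hfK : FiniteDimensional ℚ K := FiniteDimensional.of_injective
    (IntermediateField.inclusion hKL).toLinearMap
    (IntermediateField.inclusion hKL).toRingHom.injective
  have hfF : FiniteDimensional ℚ F := FiniteDimensional.of_injective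
    (IntermediateField.inclusion hFK).toLinearMap
    (IntermediateField.inclusion hFK).toRingHom.injective
  have hcard : ∀ E : IntermediateField ℚ ℂ, FiniteDimensional ℚ E → classNo E ≠ 0 := by
    intro E hE
    have : Finite (ClassGroup (𝓞 E)) := Finite.of_fintype _
    exact Nat.card_pos.ne'
  have hdeg0 : Module.finrank F (IntermediateField.extendScalars hFK) ≠ 0 := by
    rw [← finrank_algC]
    let : Algebra F K := algC hFK
    exact (Module.finrank_pos (R := F) (M := K)).ne'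
  have hdens := hFROB L {g | Good F K L g} (by
    intro g h τ₀ hg hh τ ρ hρ
    obtain ⟨j, hj⟩ := hg (τ * τ₀) ρ hρ
    have hmem : (τ₀ * g * τ₀⁻¹) ^ j ∈ Subgroup.zpowers h := by
      rw [hh]
      exact Subgroup.zpow_mem_zpowers _ _
    obtain ⟨i, hi⟩ := hmem
    refine ⟨i, fun x hx => ?_⟩
    have h1 : τ * h ^ i * τ⁻¹ = τ * τ₀ * g ^ j * (τ * τ₀)⁻¹ := by
      have h2 : h ^ i = (τ₀ * g * τ₀⁻¹) ^ j := hi
      rw [h2, conj_zpow, mul_inv_rev]
      group
    rw [h1]
    exact hj x hx)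
  refine hPD _ _ ((Module.finrank F (IntermediateField.extendScalars hFK) * classNo K *
    classNo F).primeFactors) _ hdens ?_
  rintro q ⟨g, hg, P, hP, hqP, hst⟩ hq hqA
  have hne : Module.finrank F (IntermediateField.extendScalars hFK) * classNo K * classNo F ≠ 0 :=
    mul_ne_zero (mul_ne_zero hdeg0 (hcard K inferInstance)) (hcard F hfF)
  have hnd : ¬ q ∣ Module.finrank F (IntermediateField.extendScalars hFK) * classNo K *
      classNo F := fun h => hqA (Nat.mem_primeFactors.2 ⟨hq, h, hne⟩)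
  have hd1 : ¬ q ∣ Module.finrank F (IntermediateField.extendScalars hFK) :=
    fun h => hnd (Dvd.dvd.mul_right (Dvd.dvd.mul_right h _) _)
  have hd2 : ¬ q ∣ classNo K := fun h => hnd (Dvd.dvd.mul_right (Dvd.dvd.mul_left h _) _)
  have hd3 : ¬ q ∣ classNo F := fun h => hnd (Dvd.dvd.mul_left h _)
  have : Fact q.Prime := ⟨hq⟩
  intro n B hB
  exact hC q F K hFK hGK hd1 (MAINB.nonsplit_of hNSF hFK hKL g hg q hq P hP hqP hst)
    (by rw [padicValNat.eq_zero_of_not_dvd hd2, padicValNat.eq_zero_of_not_dvd hd3]) n B hB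

theorem MAINE_thm (hD : MAIND) (hGALE : GALE) : MAINE := by
  intro k K _ h m hk hz hG hcyc hKK hm
  obtain ⟨L, hKL, hfL, hGL, hc1, hc2⟩ := hGALE k K h hk hz hG hcyc hKK
  have hd := hD k K L h hKL hGL hG
  rw [hm] at hc1 hc2
  rw [hc1, hc2] at hd
  have hm0 : (m : ℝ) ≠ 0 := by
    have hfk : FiniteDimensional ℚ k := FiniteDimensional.of_injective
      (IntermediateField.inclusion h).toLinearMap
      (IntermediateField.inclusion h).toRingHom.injective
    rw [← hm, ← finrank_algC]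
    let : Algebra k K := algC h
    exact_mod_cast (Module.finrank_pos (R := k) (M := K)).ne'
  have he : (((m.totient ^ 2 + m * m.totient : ℕ) : ℝ) / ((2 * m ^ 2 : ℕ) : ℝ)) =
      ((m.totient : ℝ) / m) * (1 + (m.totient : ℝ) / m) / 2 := by
    push_cast
    field_simp
    ring
  rw [he] at hd
  exact hd

end Pool.Agent.RI


end

section

/-!
# Relative Iwasawa theorem: module PDGE (the density bound with its constant is monotone and
insensitive to finitely many primes)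
-/

open Finset

namespace Pool.Agent.RI

open PD in
theorem PDGE_thm : PDGE := by
  rintro S T A δ ⟨C, h⟩ hST
  refine ⟨C + A.card, fun s hs hs2 => ?_⟩
  have h1 := h s hs hs2
  rw [sub_eq] at h1 ⊢
  have hsum := summ hs
  have hS := hsum.indicator {q : ℕ | q.Prime ∧ q ∈ S}
  have hT := hsum.indicator {q : ℕ | q.Prime ∧ q ∈ T}
  have hA := hsum.indicator (A : Set ℕ)
  have h2 : ∑' n : ℕ, Set.indicator {q : ℕ | q.Prime ∧ q ∈ S} (fun n : ℕ => (n : ℝ) ^ (-s)) n ≤
      ∑' n : ℕ, (Set.indicator {q : ℕ | q.Prime ∧ q ∈ T} (fun n : ℕ => (n : ℝ) ^ (-s)) n +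
        Set.indicator (A : Set ℕ) (fun n : ℕ => (n : ℝ) ^ (-s)) n) := by
    refine hS.tsum_le_tsum (fun n => ?_) (hT.add hA)
    have hT0 : 0 ≤ Set.indicator {q : ℕ | q.Prime ∧ q ∈ T} (fun n : ℕ => (n : ℝ) ^ (-s)) n :=
      Set.indicator_nonneg (fun x _ => term_nonneg s x) n
    have hA0 : 0 ≤ Set.indicator (A : Set ℕ) (fun n : ℕ => (n : ℝ) ^ (-s)) n :=
      Set.indicator_nonneg (fun x _ => term_nonneg s x) n
    by_cases hn : n ∈ {q : ℕ | q.Prime ∧ q ∈ S}
    · rw [Set.indicator_of_mem hn]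
      by_cases hnA : n ∈ (A : Set ℕ)
      · rw [Set.indicator_of_mem hnA]
        linarith
      · have hnT : n ∈ {q : ℕ | q.Prime ∧ q ∈ T} := ⟨hn.1, hST n hn.2 hn.1 (by simpa using hnA)⟩
        rw [Set.indicator_of_mem hnT]
        linarith
    · rw [Set.indicator_of_notMem hn]
      linarith
  rw [hT.tsum_add hA] at h2
  have h3 := fin_le hs A
  linarith

end Pool.Agent.RI


end

section

/-!
# Relative Iwasawa theorem: statements of the third part (explicit constant for `K / F` cyclic)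
-/

open NumberField Finset IsDedekindDomain
open scoped nonZeroDivisors Pointwise

namespace Pool.Agent.RI

/-- GEN2C: the number of simultaneous generators. -/
def GEN2C : Prop := ∀ (N C : Type) [Group N] [Finite N] [Group C] [IsCyclic C]
    (f₁ f₂ : N →* C), Function.Surjective f₁ → Function.Surjective f₂ →
    (Nat.card C).totient ^ 2 * Nat.card N ≤
      Nat.card C ^ 2 * Nat.card {x : N // Subgroup.zpowers (f₁ x) = ⊤ ∧
        Subgroup.zpowers (f₂ x) = ⊤}

/-- GALBC: counting version of GALB, for `k` any quadratic field and `F / ℚ` Galois. -/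
def GALBC : Prop := ∀ (k F K : IntermediateField ℚ ℂ) [FiniteDimensional ℚ K] (hkF : k ≤ F)
    (hFK : F ≤ K), Module.finrank ℚ k = 2 →
    IsGalois k (IntermediateField.extendScalars (hkF.trans hFK)) →
    (∀ a b : (IntermediateField.extendScalars (hkF.trans hFK)) ≃ₐ[k]
      (IntermediateField.extendScalars (hkF.trans hFK)), a * b = b * a) →
    IsGalois ℚ F →
    IsCyclic ((IntermediateField.extendScalars hFK) ≃ₐ[F]
      (IntermediateField.extendScalars hFK)) →
    ∃ L : IntermediateField ℚ ℂ, K ≤ L ∧ FiniteDimensional ℚ L ∧ IsGalois ℚ L ∧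
      (Module.finrank F (IntermediateField.extendScalars hFK)).totient ^ 2 *
          Nat.card (L ≃ₐ[ℚ] L) ≤
        Module.finrank F (IntermediateField.extendScalars hFK) ^ 2 * Module.finrank ℚ F *
          Nat.card {σ : L ≃ₐ[ℚ] L // (∀ x : L, (x : ℂ) ∈ F → σ x = x) ∧ Good F K L σ}

/-- MAINB2: explicit density for `K / k` abelian, `k` quadratic, `K / F` cyclic, `F / ℚ` Galois;
the primes of the set split completely in `F` (up to ramification). -/
def MAINB2 : Prop := ∀ (k F K : IntermediateField ℚ ℂ) [FiniteDimensional ℚ K] (hkF : k ≤ F)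
    (hFK : F ≤ K) (m : ℕ), Module.finrank ℚ k = 2 →
    IsGalois k (IntermediateField.extendScalars (hkF.trans hFK)) →
    (∀ a b : (IntermediateField.extendScalars (hkF.trans hFK)) ≃ₐ[k]
      (IntermediateField.extendScalars (hkF.trans hFK)), a * b = b * a) →
    IsGalois ℚ F →
    IsCyclic ((IntermediateField.extendScalars hFK) ≃ₐ[F]
      (IntermediateField.extendScalars hFK)) →
    Module.finrank F (IntermediateField.extendScalars hFK) = m →
    DensityGE {p : ℕ | (∀ P : Ideal (𝓞 F), P.IsPrime → (p : 𝓞 F) ∈ P → Nat.card (𝓞 F ⧸ P) = p) ∧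
      ∀ (n : ℕ) (B : IntermediateField ℚ ℂ), IsLayer p n B →
        padicValNat p (classNo (K ⊔ B)) = padicValNat p (classNo (F ⊔ B))}
      (((m.totient : ℝ) / m) ^ 2 / Module.finrank ℚ F)

end Pool.Agent.RI


end

section

/-!
# Explicit density for `K / k` abelian, `K / F` cyclic, `F / ℚ` Galois
-/

open NumberField IsDedekindDomain
open scoped Pointwise

namespace Pool.Agent.RI

theorem MAINB2_thm (hC : MAINC) (hGALB : GALBC) (hFROB : FROBD) (hNSF : NSF) (hSPL : SPL)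
    (hPD : PDGE) : MAINB2 := by
  intro k F K _ hkF hFK m hk hGk hab hGF hcyc hm
  obtain ⟨L, hKL, hfL, hGL, hcount⟩ := hGALB k F K hkF hFK hk hGk hab hGF hcyc
  have hFL : F ≤ L := hFK.trans hKL
  have hfF : FiniteDimensional ℚ F := FiniteDimensional.of_injective
    (IntermediateField.inclusion hFK).toLinearMap
    (IntermediateField.inclusion hFK).toRingHom.injective
  have hGK : IsGalois F (IntermediateField.extendScalars hFK) := by
    rw [← isGalois_algC]
    rw [← isGalois_algC] at hGk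
    let : Algebra k F := algC hkF
    let : Algebra F K := algC hFK
    let : Algebra k K := algC (hkF.trans hFK)
    have : IsScalarTower k F K := towerC hkF hFK
    exact IsGalois.tower_top_of_isGalois k F K
  have hcard : ∀ E : IntermediateField ℚ ℂ, FiniteDimensional ℚ E → classNo E ≠ 0 := by
    intro E hE
    have : Finite (ClassGroup (𝓞 E)) := Finite.of_fintype _
    exact Nat.card_pos.ne'
  have hdeg0 : Module.finrank F (IntermediateField.extendScalars hFK) ≠ 0 := by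
    rw [← finrank_algC]
    let : Algebra F K := algC hFK
    exact (Module.finrank_pos (R := F) (M := K)).ne'
  set T : Set (L ≃ₐ[ℚ] L) := {σ | (∀ x : L, (x : ℂ) ∈ F → σ x = x) ∧ Good F K L σ} with hT
  have hdens := hFROB L T (by
    rintro g h τ₀ ⟨hgF, hg⟩ hh
    constructor
    · have hmem : h ∈ Subgroup.zpowers (τ₀ * g * τ₀⁻¹) := hh ▸ Subgroup.mem_zpowers h
      obtain ⟨i, hi⟩ := hmem
      have h2 : τ₀ * g ^ i * τ₀⁻¹ = h := by
        rw [← hi]
        exact (conj_zpow).symm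
      intro x hx
      have hgi : g ^ i ∈ GALB.fixG L F := zpow_mem (GALB.mem_fixG.2 hgF) i
      rw [← h2]
      have h1 : (τ₀ * g ^ i * τ₀⁻¹) x = τ₀ ((g ^ i) (τ₀⁻¹ x)) := rfl
      rw [h1, hgi _ (GALB.stabQ hFL hGF.to_normal τ₀⁻¹ x hx)]
      exact τ₀.apply_symm_apply x
    · intro τ ρ hρ
      obtain ⟨j, hj⟩ := hg (τ * τ₀) ρ hρ
      have hmem : (τ₀ * g * τ₀⁻¹) ^ j ∈ Subgroup.zpowers h := by
        rw [hh]
        exact Subgroup.zpow_mem_zpowers _ _
      obtain ⟨i, hi⟩ := hmem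
      refine ⟨i, fun x hx => ?_⟩
      have h1 : τ * h ^ i * τ⁻¹ = τ * τ₀ * g ^ j * (τ * τ₀)⁻¹ := by
        have h2 : h ^ i = (τ₀ * g * τ₀⁻¹) ^ j := hi
        rw [h2, conj_zpow, mul_inv_rev]
        group
      rw [h1]
      exact hj x hx)
  -- the constant
  have hG0 : (0 : ℝ) < Nat.card (L ≃ₐ[ℚ] L) := by exact_mod_cast Nat.card_pos
  have hm0 : (0 : ℝ) < m := by
    rw [← hm]
    exact_mod_cast Nat.pos_of_ne_zero hdeg0
  have hF0 : (0 : ℝ) < Module.finrank ℚ F := by exact_mod_cast Module.finrank_pos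
  rw [hm] at hcount
  have hle : (((m.totient : ℝ) / m) ^ 2 / Module.finrank ℚ F) ≤
      (Nat.card T : ℝ) / Nat.card (L ≃ₐ[ℚ] L) := by
    have h2 : (m.totient : ℝ) ^ 2 * Nat.card (L ≃ₐ[ℚ] L) ≤
        (m : ℝ) ^ 2 * Module.finrank ℚ F * Nat.card T := by exact_mod_cast hcount
    rw [div_pow, div_div, div_le_div_iff₀ (by positivity) hG0]
    nlinarith [h2]
  have hmono : DensityGE {q : ℕ | ∃ g ∈ T, ∃ P : Ideal (𝓞 L), P.IsPrime ∧ (q : 𝓞 L) ∈ P ∧
      MulAction.stabilizer (L ≃ₐ[ℚ] L) P = Subgroup.zpowers g}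
      (((m.totient : ℝ) / m) ^ 2 / Module.finrank ℚ F) := by
    obtain ⟨C, hC'⟩ := hdens
    refine ⟨C, fun s hs1 hs2 => le_trans ?_ (hC' s hs1 hs2)⟩
    have hlog : 0 ≤ Real.log (1 / (s - 1)) := by
      apply Real.log_nonneg
      rw [le_div_iff₀ (by linarith)]
      linarith
    have := mul_le_mul_of_nonneg_right hle hlog
    linarith
  refine hPD _ _ ((Module.finrank F (IntermediateField.extendScalars hFK) * classNo K *
    classNo F).primeFactors) _ hmono ?_
  rintro q ⟨g, ⟨hgF, hg⟩, P, hP, hqP, hst⟩ hq hqA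
  have hne : Module.finrank F (IntermediateField.extendScalars hFK) * classNo K * classNo F ≠ 0 :=
    mul_ne_zero (mul_ne_zero hdeg0 (hcard K inferInstance)) (hcard F hfF)
  have hnd : ¬ q ∣ Module.finrank F (IntermediateField.extendScalars hFK) * classNo K *
      classNo F := fun h => hqA (Nat.mem_primeFactors.2 ⟨hq, h, hne⟩)
  have hd1 : ¬ q ∣ Module.finrank F (IntermediateField.extendScalars hFK) :=
    fun h => hnd (Dvd.dvd.mul_right (Dvd.dvd.mul_right h _) _)
  have hd2 : ¬ q ∣ classNo K := fun h => hnd (Dvd.dvd.mul_right (Dvd.dvd.mul_left h _) _)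
  have hd3 : ¬ q ∣ classNo F := fun h => hnd (Dvd.dvd.mul_left h _)
  have : Fact q.Prime := ⟨hq⟩
  refine ⟨MAINB.card_of hSPL hFL hGF g hgF q hq P hP hqP hst, ?_⟩
  intro n B hB
  exact hC q F K hFK hGK hd1 (MAINB.nonsplit_of hNSF hFK hKL g hg q hq P hP hqP hst)
    (by rw [padicValNat.eq_zero_of_not_dvd hd2, padicValNat.eq_zero_of_not_dvd hd3]) n B hB

end Pool.Agent.RI


end

section

/-!
# Densities
-/

namespace Pool.Agent.RI

theorem finalD : MAIND := MAIND_thm finalC FROBD_thm NSF_thm PDGE_thm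

theorem finalE : MAINE := MAINE_thm finalD (GALE_thm COUNTG_thm)

theorem finalB2 (h : GALBC) : MAINB2 := MAINB2_thm finalC h FROBD_thm NSF_thm SPL_thm PDGE_thm

end Pool.Agent.RI


end
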