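import Mathlib
import Pool.Agent.MVF.C030
import Pool.Agent.MVF.C048
import Pool.Agent.MVF.C049
import Pool.Agent.TWM.C08
import Pool.Agent.TWM.C09
import Pool.Agent.TWM.C11
import Pool.Agent.TWN.C01
import Pool.Agent.TWN.D02

/-! Parts: TWD.ARI, TWD.GRP, TWD.ABL, TWD.FRB, TWD.GOD1, TWD.EXP, TWD.TWEX, TWD.DEN, TWD.FIN, TWD.T2, TWD.PRT, TWD.T2R, TWD.T2U -/

section

/-!
# TWD: orders modulo powers of `l` (helper11)
-/

set_option autoImplicit false

namespace Pool.Agent.TWD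

/-- `v_l(x^(l^t) - 1) = v_l(x - 1) + t` -/
theorem lte (l x t : ℕ) (hl : l.Prime) (hx : 1 < x) (h1 : l ∣ x - 1) (h2 : l = 2 → 4 ∣ x - 1) :
    padicValNat l (x ^ (l ^ t) - 1) = padicValNat l (x - 1) + t := by
  have : Fact l.Prime := ⟨hl⟩
  have hlx : ¬ l ∣ x := by
    intro h
    have h3 : l ∣ x - (x - 1) := Nat.dvd_sub h h1
    have h4 : x - (x - 1) = 1 := by omega
    rw [h4] at h3
    exact hl.one_lt.ne' (Nat.dvd_one.1 h3)
  rcases hl.eq_two_or_odd' with rfl | hodd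
  · rcases Nat.eq_zero_or_pos t with rfl | ht
    · simp
    · have h3 := padicValNat.pow_two_sub_pow (x := x) (y := 1) hx h1 hlx
        (n := 2 ^ t) (pow_ne_zero _ two_ne_zero)
        ((Nat.even_pow.2 ⟨even_two, ht.ne'⟩))
      rw [one_pow, padicValNat.prime_pow] at h3
      obtain ⟨c, hc⟩ := h2 rfl
      have h4 : padicValNat 2 (x + 1) = 1 := by
        have h5 : x + 1 = 2 * (2 * c + 1) := by omega
        rw [h5, padicValNat.mul two_ne_zero (by omega), padicValNat.self one_lt_two,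
          padicValNat.eq_zero_of_not_dvd (by omega)]
      omega
  · have h3 := padicValNat.pow_sub_pow (p := l) hodd (x := x) (y := 1) hx h1 hlx
      (n := l ^ t) (pow_ne_zero _ hl.ne_zero)
    rw [one_pow, padicValNat.prime_pow] at h3
    exact h3

theorem arith (l q s N m : ℕ) (hl : l.Prime) (hq : q.Prime) (hql : q ≠ l) (hm : N + 2 ≤ m)
    (h : q ^ ((l - 1) * l ^ (s + (m - N - 2))) ≡ 1 [MOD l ^ m]) :
    q ^ (2 * (l - 1) * l ^ s) ≡ 1 [MOD l ^ (N + 2)] := by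
  have : Fact l.Prime := ⟨hl⟩
  have hcop : Nat.Coprime q l := (Nat.coprime_primes hq hl).2 hql
  have hfer : q ^ (l - 1) ≡ 1 [MOD l] := by
    have h1 := Nat.ModEq.pow_totient hcop
    rwa [Nat.totient_prime hl] at h1
  have hl1 : 1 ≤ l - 1 := by have := hl.two_le; omega
  have hx1 : 1 < q ^ (2 * (l - 1)) := Nat.one_lt_pow (by omega) hq.one_lt
  have hd1 : l ∣ q ^ (2 * (l - 1)) - 1 := by
    have h1 : q ^ (2 * (l - 1)) ≡ 1 [MOD l] := by
      rw [mul_comm, pow_mul]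
      have h2 := hfer.pow 2
      rwa [one_pow] at h2
    exact (Nat.modEq_iff_dvd' hx1.le).1 h1.symm
  have hd2 : l = 2 → 4 ∣ q ^ (2 * (l - 1)) - 1 := by
    rintro rfl
    have hodd : Odd q := hq.odd_of_ne_two hql
    obtain ⟨c, rfl⟩ := hodd
    refine ⟨c * (c + 1), ?_⟩
    have h3 : (2 * c + 1) ^ (2 * (2 - 1)) = 4 * (c * (c + 1)) + 1 := by ring
    rw [h3]
    omega
  have hpow : q ^ (2 * (l - 1) * l ^ s) = (q ^ (2 * (l - 1))) ^ (l ^ s) := by rw [pow_mul]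
  have h3 : (q ^ (2 * (l - 1))) ^ (l ^ (s + (m - N - 2))) ≡ 1 [MOD l ^ m] := by
    have h4 := h.pow 2
    rw [one_pow, ← pow_mul] at h4
    rw [← pow_mul]
    have h5 : 2 * (l - 1) * l ^ (s + (m - N - 2)) = (l - 1) * l ^ (s + (m - N - 2)) * 2 := by ring
    rw [h5]
    exact h4
  have hne : ∀ t : ℕ, (q ^ (2 * (l - 1))) ^ (l ^ t) - 1 ≠ 0 := by
    intro t
    have h6 : 1 < (q ^ (2 * (l - 1))) ^ (l ^ t) :=
      Nat.one_lt_pow (pow_ne_zero _ hl.ne_zero) hx1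
    omega
  have hle : ∀ t : ℕ, 1 ≤ (q ^ (2 * (l - 1))) ^ (l ^ t) := fun t =>
    Nat.one_le_pow _ _ (by omega)
  have h4 : l ^ m ∣ (q ^ (2 * (l - 1))) ^ (l ^ (s + (m - N - 2))) - 1 :=
    (Nat.modEq_iff_dvd' (hle _)).1 h3.symm
  have h5 := (padicValNat_dvd_iff_le (hne _)).1 h4
  rw [lte l _ _ hl hx1 hd1 hd2] at h5
  rw [hpow]
  apply Nat.ModEq.symm
  rw [Nat.modEq_iff_dvd' (hle _), padicValNat_dvd_iff_le (hne _), lte l _ _ hl hx1 hd1 hd2]
  omega

end Pool.Agent.TWD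


end

section

/-!
# TWD: elements of small order in cyclic quotients (helper11)
-/

set_option autoImplicit false

open NumberField

namespace Pool.Agent.TWD

open Pool.Agent.MU3 Pool.Agent.RI Pool.Agent.RID Pool.Agent.TWF

/-- in a cyclic group of order `l^n`: if the order of `c` is at least `l^(s+n-N)` then the powers of
`c^(l^s u)` contain all elements killed by `l^(n-N)` -/
theorem cyc_sub {C : Type} [Group C] [Finite C] [IsCyclic C] (l n N s u : ℕ) (hl : l.Prime)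
    (hC : Nat.card C = l ^ n) (hN : N + 1 ≤ n) (hu : ¬ l ∣ u) (c d : C)
    (hc : c ^ (l ^ (s + (n - N - 1))) ≠ 1) (hd : d ^ (l ^ (n - N)) = 1) :
    ∃ i : ℤ, (c ^ (l ^ s * u)) ^ i = d := by
  obtain ⟨r, -, hr⟩ := (Nat.dvd_prime_pow hl).1 ((orderOf_dvd_natCard c).trans (dvd_of_eq hC))
  have h1 : s + (n - N - 1) < r := by
    by_contra h
    push Not at h
    apply hc
    apply orderOf_dvd_iff_pow_eq_one.1
    rw [hr]
    exact pow_dvd_pow l h
  have hcop : Nat.Coprime (orderOf (c ^ l ^ s)) u := by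
    rw [orderOf_pow, hr]
    refine Nat.Coprime.coprime_dvd_left (Nat.div_dvd_of_dvd (Nat.gcd_dvd_left _ _)) ?_
    exact Nat.Coprime.pow_left r ((Nat.Prime.coprime_iff_not_dvd hl).2 hu)
  have h2 : orderOf (c ^ (l ^ s * u)) = l ^ (r - s) := by
    rw [pow_mul, Nat.Coprime.orderOf_pow hcop, orderOf_pow, hr]
    have h3 : Nat.gcd (l ^ r) (l ^ s) = l ^ s :=
      Nat.gcd_eq_right (pow_dvd_pow l (by omega))
    rw [h3]
    exact Nat.pow_div (by omega) hl.pos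
  have h3 : d ∈ Subgroup.zpowers (c ^ (l ^ s * u)) := by
    apply mem_of_pow
    rw [Nat.card_zpowers, h2]
    obtain ⟨t, ht⟩ := pow_dvd_pow l (show n - N ≤ r - s by omega)
    rw [ht, pow_mul, hd, one_pow]
  exact Subgroup.mem_zpowers_iff.1 h3

/-- the number of elements whose image in a cyclic quotient is killed by `m` -/
theorem cnt {G C : Type} [Group G] [Finite G] [Group C] [Finite C] [IsCyclic C] (φ : G →* C)
    (hφ : Function.Surjective φ) (m : ℕ) (hm : 0 < m) :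
    Nat.card {g : G // φ g ^ m = 1} * Nat.card C ≤ m * Nat.card G := by
  classical
  have : Fintype G := Fintype.ofFinite G
  have : Fintype C := Fintype.ofFinite C
  have hfib : ∀ x : C, (Finset.univ.filter fun g : G => φ g = x).card =
      (Finset.univ.filter fun g : G => φ g = 1).card := fun x =>
    MonoidHom.card_fiber_eq_of_mem_range φ (hφ x) ⟨1, map_one φ⟩
  have hG : Nat.card G = Nat.card C * (Finset.univ.filter fun g : G => φ g = 1).card := by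
    rw [Nat.card_eq_fintype_card, Nat.card_eq_fintype_card, ← Finset.card_univ,
      Finset.card_eq_sum_card_fiberwise (f := φ) (t := Finset.univ) (fun g _ => Finset.mem_univ _),
      Finset.sum_congr rfl (fun x _ => hfib x), Finset.sum_const, Finset.card_univ, smul_eq_mul]
  have hS : Nat.card {g : G // φ g ^ m = 1} =
      (Finset.univ.filter fun x : C => x ^ m = 1).card *
        (Finset.univ.filter fun g : G => φ g = 1).card := by
    rw [Nat.card_eq_fintype_card, Fintype.card_subtype,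
      Finset.card_eq_sum_card_fiberwise (f := φ)
        (t := Finset.univ.filter fun x : C => x ^ m = 1) (fun g hg => by
          rw [Finset.mem_coe, Finset.mem_filter] at hg ⊢
          exact ⟨Finset.mem_univ _, hg.2⟩)]
    rw [Finset.sum_congr rfl (g := fun _ => (Finset.univ.filter fun g : G => φ g = 1).card)]
    · rw [Finset.sum_const, smul_eq_mul]
    · intro x hx
      rw [← hfib x]
      congr 1
      ext g
      rw [Finset.mem_filter, Finset.mem_filter, Finset.mem_filter]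
      constructor
      · rintro ⟨⟨_, _⟩, h⟩
        exact ⟨Finset.mem_univ _, h⟩
      · rintro ⟨_, h⟩
        refine ⟨⟨Finset.mem_univ _, ?_⟩, h⟩
        rw [h]
        exact (Finset.mem_filter.1 hx).2
  rw [hS, hG]
  have h1 := IsCyclic.card_pow_eq_one_le (α := C) (n := m) hm
  calc (Finset.univ.filter fun x : C => x ^ m = 1).card *
        (Finset.univ.filter fun g : G => φ g = 1).card * Nat.card C
      = (Finset.univ.filter fun x : C => x ^ m = 1).card *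
        (Nat.card C * (Finset.univ.filter fun g : G => φ g = 1).card) := by ring
    _ ≤ _ := Nat.mul_le_mul_right _ h1

/-- restriction to a normal subfield -/
theorem rst {E L : IntermediateField ℚ ℂ} (hEL : E ≤ L) (hE : Normal ℚ E) (hL : Normal ℚ L) :
    ∃ r : (L ≃ₐ[ℚ] L) →* (E ≃ₐ[ℚ] E), Function.Surjective r ∧
      ∀ (g : L ≃ₐ[ℚ] L) (x : E), ((r g x : E) : ℂ) = ((g ⟨(x : ℂ), hEL x.2⟩ : L) : ℂ) := by
  let i1 : Algebra E L := algC hEL
  have t1 : IsScalarTower ℚ E L := IsScalarTower.of_algebraMap_eq (fun _ => rfl)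
  refine ⟨AlgEquiv.restrictNormalHom E, AlgEquiv.restrictNormalHom_surjective L, fun g x => ?_⟩
  exact congrArg (fun z : L => (z : ℂ)) (AlgEquiv.restrictNormal_commutes g E x)

end Pool.Agent.TWD


end

section

/-!
# TWD: `k B_n` is abelian over `ℚ`, `k` quadratic (helper11)
-/

set_option autoImplicit false

open NumberField

namespace Pool.Agent.TWD

open Pool.Agent.MU3 Pool.Agent.RI Pool.Agent.RID Pool.Agent.TWF

theorem ab_sup (E F : IntermediateField ℚ ℂ) [FiniteDimensional ℚ E] [FiniteDimensional ℚ F]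
    (hE : IsGalois ℚ E) (hF : IsGalois ℚ F) (cE : ∀ a b : E ≃ₐ[ℚ] E, a * b = b * a)
    (cF : ∀ a b : F ≃ₐ[ℚ] F, a * b = b * a) :
    IsGalois ℚ ↥(E ⊔ F) ∧ ∀ a b : ↥(E ⊔ F) ≃ₐ[ℚ] ↥(E ⊔ F), a * b = b * a := by
  have hnE : @Normal ℚ E _ _ (IntermediateField.algebra' E) := hE.to_normal
  have hnF : @Normal ℚ F _ _ (IntermediateField.algebra' F) := hF.to_normal
  have hnL : Normal ℚ ↥(E ⊔ F) := @IntermediateField.normal_sup ℚ ℂ _ _ _ E F hnE hnF
  have fdL : FiniteDimensional ℚ ↥(E ⊔ F) := IntermediateField.finiteDimensional_sup E F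
  have hgL : IsGalois ℚ ↥(E ⊔ F) := ⟨⟩
  refine ⟨hgL, fun a b => ?_⟩
  obtain ⟨r₁, -, p1⟩ := rst (le_sup_left : E ≤ E ⊔ F) hE.to_normal hnL
  obtain ⟨r₂, -, p2⟩ := rst (le_sup_right : F ≤ E ⊔ F) hF.to_normal hnL
  have key : ∀ ρ : ↥(E ⊔ F) ≃ₐ[ℚ] ↥(E ⊔ F), r₁ ρ = 1 → r₂ ρ = 1 → ρ = 1 := by
    intro ρ h1 h2
    let T : IntermediateField ℚ ↥(E ⊔ F) := IntermediateField.fixedField (Subgroup.zpowers ρ)
    have hmem : ∀ x : ↥(E ⊔ F), ρ x = x → x ∈ T := by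
      intro x hx g
      obtain ⟨g, i, rfl⟩ := g
      have h3 : ρ ∈ MulAction.stabilizer (↥(E ⊔ F) ≃ₐ[ℚ] ↥(E ⊔ F)) x := hx
      exact (Subgroup.zpow_mem _ h3 i :
        ρ ^ i ∈ MulAction.stabilizer (↥(E ⊔ F) ≃ₐ[ℚ] ↥(E ⊔ F)) x)
    have hET : E ≤ T.map (E ⊔ F).val := by
      intro x hx
      refine ⟨⟨x, (le_sup_left : E ≤ E ⊔ F) hx⟩, hmem _ ?_, rfl⟩
      have h3 := p1 ρ ⟨x, hx⟩
      rw [h1] at h3
      exact Subtype.ext h3.symm
    have hFT : F ≤ T.map (E ⊔ F).val := by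
      intro x hx
      refine ⟨⟨x, (le_sup_right : F ≤ E ⊔ F) hx⟩, hmem _ ?_, rfl⟩
      have h3 := p2 ρ ⟨x, hx⟩
      rw [h2] at h3
      exact Subtype.ext h3.symm
    ext x
    obtain ⟨y, hy, hyx⟩ := (sup_le hET hFT) x.2
    have hxy : y = x := Subtype.ext hyx
    have h4 := hy ⟨ρ, Subgroup.mem_zpowers ρ⟩
    rw [← hxy]
    exact congrArg Subtype.val h4
  have h1 : a * b * (b * a)⁻¹ = 1 := by
    apply key
    · rw [map_mul, map_inv, map_mul, map_mul, cE (r₁ b), mul_inv_cancel]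
    · rw [map_mul, map_inv, map_mul, map_mul, cF (r₂ b), mul_inv_cancel]
  exact mul_inv_eq_one.1 h1

/-- `k B_n` is abelian over `ℚ` -/
theorem ab_lay (l : ℕ) [Fact l.Prime] (k : IntermediateField ℚ ℂ) (h2 : Module.finrank ℚ k = 2)
    (n : ℕ) (B : IntermediateField ℚ ℂ) (hB : IsLayer l n B) :
    FiniteDimensional ℚ ↥(k ⊔ B) ∧ IsGalois ℚ ↥(k ⊔ B) ∧
      ∀ a b : ↥(k ⊔ B) ≃ₐ[ℚ] ↥(k ⊔ B), a * b = b * a := by
  obtain ⟨fdB, hGB, -⟩ := LAY_thm l n B hB
  have hcyc : IsCyclic (B ≃ₐ[ℚ] B) := t_LAYC l n B hB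
  have fdk : FiniteDimensional ℚ k := FiniteDimensional.of_finrank_pos (by omega)
  have hq : Algebra.IsQuadraticExtension ℚ k := ⟨h2⟩
  have hgk : IsGalois ℚ k := inferInstance
  have hck : IsCyclic (k ≃ₐ[ℚ] k) := inferInstance
  have ck : ∀ a b : k ≃ₐ[ℚ] k, a * b = b * a := by
    let _ := IsCyclic.commGroup (α := k ≃ₐ[ℚ] k)
    exact fun a b => mul_comm a b
  have cB : ∀ a b : B ≃ₐ[ℚ] B, a * b = b * a := by
    let _ := IsCyclic.commGroup (α := B ≃ₐ[ℚ] B)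
    exact fun a b => mul_comm a b
  obtain ⟨h1, h2⟩ := ab_sup k B hgk hGB ck cB
  exact ⟨IntermediateField.finiteDimensional_sup k B, h1, h2⟩

end Pool.Agent.TWD


end


section

/-!
# TWD: the Frobenius automorphism and roots of unity; nonsplit primes (helper11)
-/

set_option autoImplicit false

open NumberField
open scoped nonZeroDivisors Pointwise

namespace Pool.Agent.TWD

open Pool.Agent.RI

/-- a Frobenius automorphism at a prime above `q` raises the roots of unity of order prime to `q` to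
the power `q` -/
theorem frob (L : IntermediateField ℚ ℂ) [FiniteDimensional ℚ L] [IsGalois ℚ L] (q : ℕ)
    (hq : q.Prime) : ∃ (P : Ideal (𝓞 L)) (g : L ≃ₐ[ℚ] L), P.IsPrime ∧ (q : 𝓞 L) ∈ P ∧
      g ∈ MulAction.stabilizer (L ≃ₐ[ℚ] L) P ∧
      ∀ (ζ : L) (N : ℕ), N ≠ 0 → ¬ q ∣ N → ζ ^ N = 1 → g ζ = ζ ^ q := by
  have hmax : (Ideal.span {(q : ℤ)}).IsMaximal :=
    (Ideal.span_singleton_prime (by exact_mod_cast hq.ne_zero)).mpr
      (Nat.prime_iff_prime_int.mp hq) |>.isMaximal (by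
        rw [Ne, Ideal.span_singleton_eq_bot]
        exact_mod_cast hq.ne_zero)
  obtain ⟨⟨P, hP, hPo⟩⟩ := Ideal.nonempty_primesOver (S := 𝓞 L) (Ideal.span {(q : ℤ)})
  have hqP : (q : 𝓞 L) ∈ P := by
    have h1 : (q : ℤ) ∈ P.under ℤ := by
      rw [← hPo.over]
      exact Ideal.mem_span_singleton_self _
    rw [Ideal.mem_comap] at h1
    simpa using h1
  have hP0 : P ≠ ⊥ := by
    rintro rfl
    rw [Ideal.mem_bot] at hqP
    exact hq.ne_zero (by exact_mod_cast hqP)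
  have hfin : Finite (𝓞 L ⧸ P) := Ideal.finiteQuotientOfFreeOfNeBot P hP0
  obtain ⟨g, hg⟩ := IsArithFrobAt.exists_of_isInvariant (R := ℤ) (G := L ≃ₐ[ℚ] L) (Q := P)
  refine ⟨P, g, hP, hqP, hg.mem_stabilizer, fun ζ N hN hqN hζ => ?_⟩
  have hint : IsIntegral ℤ ζ := IsIntegral.of_pow (Nat.pos_of_ne_zero hN)
    (by rw [hζ]; exact isIntegral_one)
  have hNP : (N : 𝓞 L) ∉ P := by
    intro h
    obtain ⟨u, v, huv⟩ : IsCoprime (q : ℤ) (N : ℤ) :=
      Nat.isCoprime_iff_coprime.2 ((Nat.Prime.coprime_iff_not_dvd hq).2 hqN)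
    apply hP.ne_top
    rw [Ideal.eq_top_iff_one]
    have h1 : (u : 𝓞 L) * q + (v : 𝓞 L) * N = 1 := by exact_mod_cast huv
    rw [← h1]
    exact P.add_mem (P.mul_mem_left _ hqP) (P.mul_mem_left _ h)
  have h1 := AlgHom.IsArithFrobAt.apply_of_pow_eq_one hg (ζ := (⟨ζ, hint⟩ : 𝓞 L)) (m := N)
    (by
      apply RingOfIntegers.ext
      exact hζ) hNP
  have hcard : Nat.card (ℤ ⧸ P.under ℤ) = q := by
    rw [← hPo.over]
    have h2 := Int.quotientSpanNatEquivZMod q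
    rw [Nat.card_congr h2.toEquiv]
    exact Nat.card_zmod q
  rw [hcard] at h1
  exact congrArg (fun z : 𝓞 L => (z : L)) h1

theorem nsf_mem (L : Type) [Field L] [NumberField L] [IsGalois ℚ L]
    (F K : IntermediateField ℚ L) (σ : L ≃ₐ[ℚ] L) (q : ℕ) (P : Ideal (𝓞 L)) (hq : q.Prime)
    (hP : P.IsPrime) (hqP : (q : 𝓞 L) ∈ P) (hD : σ ∈ MulAction.stabilizer (L ≃ₐ[ℚ] L) P)
    (hyp : ∀ τ ρ : L ≃ₐ[ℚ] L, ρ ∈ F.fixingSubgroup →
      ∃ j : ℤ, ρ * (τ * σ ^ j * τ⁻¹)⁻¹ ∈ K.fixingSubgroup)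
    (Q₁ Q₂ : Ideal (𝓞 L)) (h1 : Q₁.IsPrime) (h2 : Q₂.IsPrime) (hq1 : (q : 𝓞 L) ∈ Q₁)
    (_hq2 : (q : 𝓞 L) ∈ Q₂) (hF : ∀ x : 𝓞 L, (x : L) ∈ F → (x ∈ Q₁ ↔ x ∈ Q₂)) :
    ∀ x : 𝓞 L, (x : L) ∈ K → (x ∈ Q₁ ↔ x ∈ Q₂) := by
  intro x hx
  obtain ⟨τ, hτ⟩ := NSF.trans_Q hq hP h1 hqP hq1
  obtain ⟨ρ, hρ, hρQ⟩ := NSF.trans_F F h1 h2 hF
  obtain ⟨j, hj⟩ := hyp τ ρ hρ
  set κ := ρ * (τ * σ ^ j * τ⁻¹)⁻¹ with hκ
  have e1 : ρ = κ * (τ * σ ^ j * τ⁻¹) := by rw [hκ]; group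
  have hs : σ ^ j • P = P := Subgroup.zpow_mem _ hD j
  have e2 : Q₂ = κ • Q₁ := by
    rw [hρQ, e1, hτ]
    simp only [mul_smul, inv_smul_smul, hs]
  have e3 : κ⁻¹ • x = x := by
    have h3 : κ⁻¹ ∈ K.fixingSubgroup := inv_mem hj
    rw [IntermediateField.mem_fixingSubgroup_iff] at h3
    apply RingOfIntegers.ext
    exact h3 x hx
  rw [e2, Ideal.mem_pointwise_smul_iff_inv_smul_mem, e3]

/-- a good element of the decomposition group -/
theorem nonsplit_mem {F K L : IntermediateField ℚ ℂ} [FiniteDimensional ℚ L]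
    [IsGalois ℚ L] (hFK : F ≤ K) (hKL : K ≤ L) (σ : L ≃ₐ[ℚ] L) (hσ : Good F K L σ)
    (q : ℕ) (hq : q.Prime) (P : Ideal (𝓞 L)) (hP : P.IsPrime) (hqP : (q : 𝓞 L) ∈ P)
    (hst : σ ∈ MulAction.stabilizer (L ≃ₐ[ℚ] L) P) : Nonsplit q hFK := by
  intro P₁ P₂ hP₁ hP₂ hq₁ hq₂ h12
  have hfK : FiniteDimensional ℚ K := FiniteDimensional.of_injective
    (IntermediateField.inclusion hKL).toLinearMap
    (IntermediateField.inclusion hKL).toRingHom.injective
  let : Algebra K L := algC hKL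
  obtain ⟨⟨Q₁, hQ₁, hQo₁⟩⟩ := Ideal.nonempty_primesOver (S := 𝓞 L) P₁
  obtain ⟨⟨Q₂, hQ₂, hQo₂⟩⟩ := Ideal.nonempty_primesOver (S := 𝓞 L) P₂
  have key := nsf_mem L (MAINB.inL F L) (MAINB.inL K L) σ q P hq hP hqP hst (by
    intro τ ρ hρ
    rw [IntermediateField.mem_fixingSubgroup_iff] at hρ
    obtain ⟨j, hj⟩ := hσ τ ρ (fun x hx => hρ x hx)
    exact ⟨j, by
      rw [IntermediateField.mem_fixingSubgroup_iff]
      exact fun x hx => hj x hx⟩) Q₁ Q₂ hQ₁ hQ₂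
      (by
        have : (q : 𝓞 K) ∈ Q₁.under (𝓞 K) := hQo₁.over ▸ hq₁
        rwa [Ideal.mem_comap, map_natCast] at this)
      (by
        have : (q : 𝓞 K) ∈ Q₂.under (𝓞 K) := hQo₂.over ▸ hq₂
        rwa [Ideal.mem_comap, map_natCast] at this)
      (by
        intro x hx
        -- x comes from F
        have hint : IsIntegral ℤ (⟨((x : L) : ℂ), hx⟩ : F) := by
          have h1 := x.2
          have h2 : IsIntegral ℤ ((x : L) : ℂ) := h1.map L.val.toRingHom.toIntAlgHom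
          exact (isIntegral_algebraMap_iff (R := ℤ) (A := F) (B := ℂ)
            (algebraMap F ℂ).injective).1 h2
        let y : 𝓞 F := ⟨⟨((x : L) : ℂ), hx⟩, hint⟩
        have hy : algebraMap (𝓞 K) (𝓞 L) (RingOfIntegers.mapRingHom
            (IntermediateField.inclusion hFK : F →+* K) y) = x := rfl
        have h1 : x ∈ Q₁ ↔ y ∈ P₁.comap (RingOfIntegers.mapRingHom
            (IntermediateField.inclusion hFK : F →+* K)) := by
          rw [Ideal.mem_comap, hQo₁.over, Ideal.mem_comap, hy]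
        have h2 : x ∈ Q₂ ↔ y ∈ P₂.comap (RingOfIntegers.mapRingHom
            (IntermediateField.inclusion hFK : F →+* K)) := by
          rw [Ideal.mem_comap, hQo₂.over, Ideal.mem_comap, hy]
        rw [h1, h2, h12])
  ext z
  have h := key (algebraMap (𝓞 K) (𝓞 L) z) (by
    show (((z : K) : ℂ)) ∈ K
    exact (z : K).2)
  rw [hQo₁.over, hQo₂.over, Ideal.mem_comap, Ideal.mem_comap]
  exact h

end Pool.Agent.TWD


end

section

/-!
# TWD: most elements of the Galois group are good for `K B_n / K B_N` (helper11)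
-/

set_option autoImplicit false

open NumberField

namespace Pool.Agent.TWD

open Pool.Agent.MU3 Pool.Agent.RI Pool.Agent.RID Pool.Agent.TWF

/-- an automorphism which is trivial on `E` and on `F` is trivial on `E F` -/
theorem agree {E F L : IntermediateField ℚ ℂ} (hE : E ≤ L) (hF : F ≤ L) (ρ : L ≃ₐ[ℚ] L)
    (h1 : ∀ x : L, (x : ℂ) ∈ E → ρ x = x) (h2 : ∀ x : L, (x : ℂ) ∈ F → ρ x = x) :
    ∀ x : L, (x : ℂ) ∈ E ⊔ F → ρ x = x := by
  let T : IntermediateField ℚ L := IntermediateField.fixedField (Subgroup.zpowers ρ)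
  have hmem : ∀ x : L, ρ x = x → x ∈ T := by
    intro x hx g
    obtain ⟨g, i, rfl⟩ := g
    have h1 : ρ ∈ MulAction.stabilizer (L ≃ₐ[ℚ] L) x := hx
    exact (Subgroup.zpow_mem _ h1 i : ρ ^ i ∈ MulAction.stabilizer (L ≃ₐ[ℚ] L) x)
  have hKE : E ≤ T.map L.val := by
    intro x hx
    refine ⟨⟨x, hE hx⟩, hmem _ (h1 _ hx), rfl⟩
  have hBE : F ≤ T.map L.val := by
    intro x hx
    refine ⟨⟨x, hF hx⟩, hmem _ (h2 _ hx), rfl⟩
  intro x hx
  obtain ⟨y, hy, hyx⟩ := (sup_le hKE hBE) hx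
  have hxy : y = x := Subtype.ext hyx
  rw [← hxy]
  exact hy ⟨ρ, Subgroup.mem_zpowers ρ⟩

/-- an automorphism of order larger than `l^s` on `B_(N+1)` is good for `K B_n / K B_N` -/
theorem good_crit (l : ℕ) [Fact l.Prime] (K : IntermediateField ℚ ℂ) [FiniteDimensional ℚ K]
    (B : ℕ → IntermediateField ℚ ℂ) (hlay : ∀ n, IsLayer l n (B n)) (hmono : Monotone B)
    (N n s u : ℕ) (hN : N + 1 ≤ n) (hu : ¬ l ∣ u)
    (hMu : Module.finrank ℚ (IntermediateField.normalClosure ℚ K ℂ) = l ^ s * u)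
    (L : IntermediateField ℚ ℂ) [FiniteDimensional ℚ L] [hgL : IsGalois ℚ L]
    (hML : IntermediateField.normalClosure ℚ K ℂ ≤ L) (hBL : B n ≤ L) (g : L ≃ₐ[ℚ] L)
    (hg : ∃ x : L, (x : ℂ) ∈ B n ∧ (g ^ (l ^ (s + (n - N - 1)))) x ≠ x) :
    Good (K ⊔ B N) (K ⊔ B n) L g := by
  have hl : l.Prime := Fact.out
  obtain ⟨fdB, hGB, -⟩ := LAY_thm l n (B n) (hlay n)
  have hcyc : IsCyclic (B n ≃ₐ[ℚ] B n) := t_LAYC l n (B n) (hlay n)
  set M : IntermediateField ℚ ℂ := IntermediateField.normalClosure ℚ K ℂ with hMdef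
  have hKM : K ≤ M := IntermediateField.le_normalClosure K
  have fdM : FiniteDimensional ℚ M := inferInstance
  have hnc : IsNormalClosure ℚ K M :=
    Algebra.IsAlgebraic.isNormalClosure_normalClosure (fun x => IsAlgClosed.splits _)
  have hnM : Normal ℚ M := hnc.normal (K := K)
  have hgM : IsGalois ℚ M := ⟨⟩
  have hnB : Normal ℚ (B n) := hGB.to_normal
  have hnL : Normal ℚ L := hgL.to_normal
  have hKL : K ⊔ B n ≤ L := sup_le (hKM.trans hML) hBL
  obtain ⟨r₁, -, p1⟩ := rst hML hnM hnL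
  obtain ⟨r₂, -, p2⟩ := rst hBL hnB hnL
  have hcB : Nat.card (B n ≃ₐ[ℚ] B n) = l ^ n := by
    rw [IsGalois.card_aut_eq_finrank, (hlay n).1]
  have hcM : Nat.card (M ≃ₐ[ℚ] M) = Module.finrank ℚ M := IsGalois.card_aut_eq_finrank ℚ M
  have hg' : (r₂ g) ^ (l ^ (s + (n - N - 1))) ≠ 1 := by
    intro h
    obtain ⟨x, hx, hne⟩ := hg
    apply hne
    have h1 := p2 (g ^ (l ^ (s + (n - N - 1)))) ⟨(x : ℂ), hx⟩
    rw [map_pow, h] at h1
    exact Subtype.ext h1.symm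
  intro τ ρ hρ
  have hd : (r₂ ρ) ^ (l ^ (n - N)) = 1 := by
    refine pow_deg (B := B N) (B' := B n) (hmono (by omega)) hGB _ ?_ _ ?_
    · rw [(hlay n).1, (hlay N).1, ← pow_add]
      congr 1
      omega
    · intro x hx
      apply Subtype.ext
      rw [p2, hρ _ ((le_sup_right : B N ≤ K ⊔ B N) hx)]
  obtain ⟨i, hi⟩ := cyc_sub l n N s u hl hcB hN hu (r₂ g) (r₂ ρ) hg' hd
  have hcomm : ∀ a b : B n ≃ₐ[ℚ] B n, a * b = b * a := by
    let _ := IsCyclic.commGroup (α := B n ≃ₐ[ℚ] B n)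
    exact fun a b => mul_comm a b
  have hg1 : ∀ x : L, (x : ℂ) ∈ M → (τ * g ^ ((l ^ s * u : ℕ) * i : ℤ) * τ⁻¹) x = x := by
    intro x hx
    have h1 : r₁ (τ * g ^ ((l ^ s * u : ℕ) * i : ℤ) * τ⁻¹) = 1 := by
      rw [map_mul, map_mul, map_inv, map_zpow, zpow_mul, zpow_natCast, ← hMu, ← hcM,
        pow_card_eq_one', one_zpow, mul_one, mul_inv_cancel]
    have h2 := p1 (τ * g ^ ((l ^ s * u : ℕ) * i : ℤ) * τ⁻¹) ⟨(x : ℂ), hx⟩
    rw [h1] at h2
    exact Subtype.ext h2.symm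
  have hg2 : r₂ (τ * g ^ ((l ^ s * u : ℕ) * i : ℤ) * τ⁻¹) = r₂ ρ := by
    rw [map_mul, map_mul, map_inv, hcomm (r₂ τ), mul_assoc, mul_inv_cancel, mul_one, map_zpow,
      zpow_mul, zpow_natCast]
    exact hi
  refine ⟨(l ^ s * u : ℕ) * i, agree (hKM.trans hML) hBL _ ?_ ?_⟩
  · intro x hx
    have h1 := hg1 x (hKM hx)
    have h2 : (τ * g ^ ((l ^ s * u : ℕ) * i : ℤ) * τ⁻¹)⁻¹ x = x := by
      have h3 := congrArg (fun z : L =>
        ((τ * g ^ ((l ^ s * u : ℕ) * i : ℤ) * τ⁻¹)⁻¹ : L ≃ₐ[ℚ] L) z) h1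
      beta_reduce at h3
      rw [← AlgEquiv.mul_apply, inv_mul_cancel, AlgEquiv.one_apply] at h3
      exact h3.symm
    rw [AlgEquiv.mul_apply, h2]
    exact hρ x ((le_sup_left : K ≤ K ⊔ B N) hx)
  · intro x hx
    have h1 : r₂ (ρ * (τ * g ^ ((l ^ s * u : ℕ) * i : ℤ) * τ⁻¹)⁻¹) = 1 := by
      rw [map_mul, map_inv, hg2, mul_inv_cancel]
    have h2 := p2 (ρ * (τ * g ^ ((l ^ s * u : ℕ) * i : ℤ) * τ⁻¹)⁻¹) ⟨(x : ℂ), hx⟩
    rw [h1] at h2
    exact Subtype.ext h2.symm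

/-- for every number field `K` and `N < n`: the elements of `Gal(L/ℚ)`, `L` the compositum of the Galois
closure of `K` and `B_n`, which are good for `K B_n / K B_N` have proportion at least `1 - l^s/l^(N+1)`,
`l^(s+1)` not dividing the degree of the Galois closure of `K` -/
theorem good_of (l : ℕ) [Fact l.Prime] (K : IntermediateField ℚ ℂ) [FiniteDimensional ℚ K]
    (B : ℕ → IntermediateField ℚ ℂ) (hlay : ∀ n, IsLayer l n (B n)) (hmono : Monotone B)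
    (N n s : ℕ) (hN : N + 1 ≤ n)
    (hs : ¬ l ^ (s + 1) ∣ Module.finrank ℚ (IntermediateField.normalClosure ℚ K ℂ)) :
    ∃ (L : IntermediateField ℚ ℂ) (_ : FiniteDimensional ℚ L) (_ : IsGalois ℚ L)
      (_ : K ⊔ B n ≤ L), (1 : ℝ) - (l : ℝ) ^ s / (l : ℝ) ^ (N + 1) ≤
        (Nat.card {g : L ≃ₐ[ℚ] L // Good (K ⊔ B N) (K ⊔ B n) L g} : ℝ) /
          Nat.card (L ≃ₐ[ℚ] L) := by
  classical
  have hl : l.Prime := Fact.out
  obtain ⟨fdB, hGB, -⟩ := LAY_thm l n (B n) (hlay n)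
  have hcyc : IsCyclic (B n ≃ₐ[ℚ] B n) := t_LAYC l n (B n) (hlay n)
  set M : IntermediateField ℚ ℂ := IntermediateField.normalClosure ℚ K ℂ with hMdef
  have hKM : K ≤ M := IntermediateField.le_normalClosure K
  have fdM : FiniteDimensional ℚ M := inferInstance
  have hnc : IsNormalClosure ℚ K M :=
    Algebra.IsAlgebraic.isNormalClosure_normalClosure (fun x => IsAlgClosed.splits _)
  have hnM : Normal ℚ M := hnc.normal (K := K)
  have hgM : IsGalois ℚ M := ⟨⟩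
  have hnB : Normal ℚ (B n) := hGB.to_normal
  set L : IntermediateField ℚ ℂ := M ⊔ B n with hLdef
  have fdL : FiniteDimensional ℚ L := IntermediateField.finiteDimensional_sup M (B n)
  have hnM' : @Normal ℚ M _ _ (IntermediateField.algebra' M) := hnM
  have hnB' : @Normal ℚ (B n) _ _ (IntermediateField.algebra' (B n)) := hnB
  have hnL : Normal ℚ L := @IntermediateField.normal_sup ℚ ℂ _ _ _ M (B n) hnM' hnB'
  have hgL : IsGalois ℚ L := ⟨⟩
  have hML : M ≤ L := le_sup_left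
  have hBL : B n ≤ L := le_sup_right
  have hKL : K ⊔ B n ≤ L := sup_le (hKM.trans hML) hBL
  refine ⟨L, fdL, hgL, hKL, ?_⟩
  obtain ⟨r₂, s2, p2⟩ := rst hBL hnB hnL
  have hcB : Nat.card (B n ≃ₐ[ℚ] B n) = l ^ n := by
    rw [IsGalois.card_aut_eq_finrank, (hlay n).1]
  have hM0 : Module.finrank ℚ M ≠ 0 := Module.finrank_pos.ne'
  obtain ⟨s', u, hu, hMu⟩ := Nat.exists_eq_pow_mul_and_not_dvd hM0 l hl.ne_one
  have hs' : s' ≤ s := by
    by_contra h
    push Not at h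
    apply hs
    rw [hMu]
    exact (pow_dvd_pow l h).mul_right u
  -- the good elements
  have hgood : ∀ g : L ≃ₐ[ℚ] L, (r₂ g) ^ (l ^ (s' + (n - N - 1))) ≠ 1 →
      Good (K ⊔ B N) (K ⊔ B n) L g := by
    intro g hg
    refine good_crit l K B hlay hmono N n s' u hN hu hMu L hML hBL g ?_
    by_contra hall
    push Not at hall
    apply hg
    rw [← map_pow]
    ext x
    rw [p2, hall _ x.2]
    rfl
  -- the count
  have hGpos : (0 : ℝ) < Nat.card (L ≃ₐ[ℚ] L) := by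
    have : 0 < Nat.card (L ≃ₐ[ℚ] L) := Nat.card_pos
    exact_mod_cast this
  have hc := cnt r₂ s2 (l ^ (s' + (n - N - 1))) (pow_pos hl.pos _)
  rw [hcB] at hc
  have hsplit : Nat.card (L ≃ₐ[ℚ] L) ≤
      Nat.card {g : L ≃ₐ[ℚ] L // Good (K ⊔ B N) (K ⊔ B n) L g} +
      Nat.card {g : L ≃ₐ[ℚ] L // r₂ g ^ (l ^ (s' + (n - N - 1))) = 1} := by
    have : Fintype (L ≃ₐ[ℚ] L) := Fintype.ofFinite _
    rw [Nat.card_eq_fintype_card, Nat.card_eq_fintype_card, Nat.card_eq_fintype_card,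
      Fintype.card_subtype, Fintype.card_subtype, ← Finset.card_univ]
    refine le_trans (Finset.card_le_card ?_) (Finset.card_union_le _ _)
    intro g _
    rw [Finset.mem_union, Finset.mem_filter, Finset.mem_filter]
    by_cases h : r₂ g ^ (l ^ (s' + (n - N - 1))) = 1
    · exact Or.inr ⟨Finset.mem_univ _, h⟩
    · exact Or.inl ⟨Finset.mem_univ _, hgood g h⟩
  have hlpos : (0 : ℝ) < l := by exact_mod_cast hl.pos
  have hl1 : (1 : ℝ) ≤ l := by exact_mod_cast hl.one_lt.le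
  have hc' : (Nat.card {g : L ≃ₐ[ℚ] L // r₂ g ^ (l ^ (s' + (n - N - 1))) = 1} : ℝ) *
      (l : ℝ) ^ n ≤ (l : ℝ) ^ (s' + (n - N - 1)) * Nat.card (L ≃ₐ[ℚ] L) := by exact_mod_cast hc
  have hsp' : (Nat.card (L ≃ₐ[ℚ] L) : ℝ) ≤
      Nat.card {g : L ≃ₐ[ℚ] L // Good (K ⊔ B N) (K ⊔ B n) L g} +
      Nat.card {g : L ≃ₐ[ℚ] L // r₂ g ^ (l ^ (s' + (n - N - 1))) = 1} := by exact_mod_cast hsplit
  have h3 : (Nat.card {g : L ≃ₐ[ℚ] L // r₂ g ^ (l ^ (s' + (n - N - 1))) = 1} : ℝ) ≤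
      (l : ℝ) ^ s / (l : ℝ) ^ (N + 1) * Nat.card (L ≃ₐ[ℚ] L) := by
    have h4 : (l : ℝ) ^ (s' + (n - N - 1)) ≤ (l : ℝ) ^ s / (l : ℝ) ^ (N + 1) * (l : ℝ) ^ n := by
      rw [div_mul_eq_mul_div, le_div_iff₀ (pow_pos hlpos _), ← pow_add, ← pow_add]
      exact pow_le_pow_right₀ hl1 (by omega)
    have h5 : (Nat.card {g : L ≃ₐ[ℚ] L // r₂ g ^ (l ^ (s' + (n - N - 1))) = 1} : ℝ) *
        (l : ℝ) ^ n ≤ (l : ℝ) ^ s / (l : ℝ) ^ (N + 1) * Nat.card (L ≃ₐ[ℚ] L) * (l : ℝ) ^ n := by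
      refine hc'.trans ?_
      calc (l : ℝ) ^ (s' + (n - N - 1)) * (Nat.card (L ≃ₐ[ℚ] L) : ℝ)
          ≤ (l : ℝ) ^ s / (l : ℝ) ^ (N + 1) * (l : ℝ) ^ n * (Nat.card (L ≃ₐ[ℚ] L) : ℝ) :=
            mul_le_mul_of_nonneg_right h4 hGpos.le
        _ = _ := by ring
    exact le_of_mul_le_mul_right h5 (pow_pos hlpos n)
  rw [le_div_iff₀ hGpos]
  have h6 : (1 - (l : ℝ) ^ s / (l : ℝ) ^ (N + 1)) * (Nat.card (L ≃ₐ[ℚ] L) : ℝ) =
      Nat.card (L ≃ₐ[ℚ] L) - (l : ℝ) ^ s / (l : ℝ) ^ (N + 1) * Nat.card (L ≃ₐ[ℚ] L) := by ring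
  rw [h6]
  linarith

end Pool.Agent.TWD


end

section

/-!
# TWD: an explicit condition under which no prime above `q` splits in `K B_n / K B_N` (helper11)
-/

set_option autoImplicit false

open NumberField
open scoped nonZeroDivisors Pointwise

namespace Pool.Agent.TWD

open Pool.Agent.MU3 Pool.Agent.RI Pool.Agent.RID Pool.Agent.TWF

/-- the field of the roots of unity of order dividing `l^m` -/
noncomputable def Cy (l m : ℕ) : IntermediateField ℚ ℂ :=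
  IntermediateField.adjoin ℚ {z : ℂ | z ^ (l ^ m) = 1}

theorem cy_data (l m : ℕ) (hl : l.Prime) (hm : 1 ≤ m) :
    FiniteDimensional ℚ (Cy l m) ∧ IsGalois ℚ (Cy l m) ∧
      Module.finrank ℚ (Cy l m) = l ^ (m - 1) * (l - 1) := by
  have hN : l ^ m ≠ 0 := pow_ne_zero m hl.ne_zero
  have h := IntermediateField.isCyclotomicExtension_adjoin_of_exists_isPrimitiveRoot
    ({l ^ m} : Set ℕ) ℚ ℂ (fun n hn _ => by
      rw [Set.mem_singleton_iff] at hn
      rw [hn]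
      exact ⟨_, Complex.isPrimitiveRoot_exp _ hN⟩)
  have hset : {x : ℂ | ∃ n ∈ ({l ^ m} : Set ℕ), n ≠ 0 ∧ x ^ n = 1} = {z : ℂ | z ^ (l ^ m) = 1} := by
    ext x
    constructor
    · rintro ⟨n, hn, _, hx⟩
      rw [Set.mem_singleton_iff] at hn
      rw [hn] at hx
      exact hx
    · intro hx
      exact ⟨l ^ m, rfl, hN, hx⟩
  rw [hset] at h
  have h' : IsCyclotomicExtension {l ^ m} ℚ (Cy l m) := h
  have hNZ : NeZero (l ^ m) := ⟨hN⟩
  have hfd : FiniteDimensional ℚ (Cy l m) := IsCyclotomicExtension.finiteDimensional {l ^ m} ℚ _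
  have hG : IsGalois ℚ (Cy l m) := IsCyclotomicExtension.isGalois {l ^ m} ℚ _
  refine ⟨hfd, hG, ?_⟩
  have hfr := IsCyclotomicExtension.finrank (K := ℚ) (n := l ^ m) (Cy l m)
    (Polynomial.cyclotomic.irreducible_rat (Nat.pos_of_ne_zero hN))
  rw [hfr, Nat.totient_prime_pow hl hm]

/-- If the order of `q` modulo `l^(N+2)` is large, no prime above `q` splits in `K B_n / K B_N`. -/
theorem nonsplit_exp (l : ℕ) [Fact l.Prime] (K : IntermediateField ℚ ℂ) [FiniteDimensional ℚ K]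
    (B : ℕ → IntermediateField ℚ ℂ) (hlay : ∀ n, IsLayer l n (B n)) (hmono : Monotone B) (s : ℕ)
    (hs : ¬ l ^ (s + 1) ∣ Module.finrank ℚ (IntermediateField.normalClosure ℚ K ℂ))
    (q : ℕ) (hq : q.Prime) (hql : q ≠ l) (N n : ℕ)
    (hord : ¬ q ^ (2 * (l - 1) * l ^ s) ≡ 1 [MOD l ^ (N + 2)]) (hn : N + 1 ≤ n)
    (hle : K ⊔ B N ≤ K ⊔ B n) : Nonsplit q hle := by
  have hl : l.Prime := Fact.out
  set M : IntermediateField ℚ ℂ := IntermediateField.normalClosure ℚ K ℂ with hMdef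
  have hKM : K ≤ M := IntermediateField.le_normalClosure K
  have fdM : FiniteDimensional ℚ M := inferInstance
  have hnc : IsNormalClosure ℚ K M :=
    Algebra.IsAlgebraic.isNormalClosure_normalClosure (fun x => IsAlgClosed.splits _)
  have hnM : Normal ℚ M := hnc.normal (K := K)
  have hM0 : Module.finrank ℚ M ≠ 0 := Module.finrank_pos.ne'
  obtain ⟨s', u, hu, hMu⟩ := Nat.exists_eq_pow_mul_and_not_dvd hM0 l hl.ne_one
  have hs' : s' ≤ s := by
    by_contra h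
    push Not at h
    apply hs
    rw [hMu]
    exact (pow_dvd_pow l h).mul_right u
  -- the level of the roots of unity
  obtain ⟨hdeg, hreal, m₀, hle₀⟩ := hlay n
  set m : ℕ := m₀ + N + n + 2 with hmdef
  have hBC : B n ≤ Cy l m := by
    refine hle₀.trans ?_
    unfold Cy
    apply IntermediateField.adjoin.mono
    intro z hz
    have hz' : z ^ (l ^ m₀) = 1 := hz
    obtain ⟨c, hc⟩ := pow_dvd_pow l (show m₀ ≤ m by omega)
    show z ^ (l ^ m) = 1
    rw [hc, pow_mul, hz', one_pow]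
  obtain ⟨fdC, hGC, hfC⟩ := cy_data l m hl (by omega)
  have hnC : Normal ℚ (Cy l m) := hGC.to_normal
  set L : IntermediateField ℚ ℂ := M ⊔ Cy l m with hLdef
  have fdL : FiniteDimensional ℚ L := IntermediateField.finiteDimensional_sup M (Cy l m)
  have hnM' : @Normal ℚ M _ _ (IntermediateField.algebra' M) := hnM
  have hnC' : @Normal ℚ (Cy l m) _ _ (IntermediateField.algebra' (Cy l m)) := hnC
  have hnL : Normal ℚ L := @IntermediateField.normal_sup ℚ ℂ _ _ _ M (Cy l m) hnM' hnC'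
  have hgL : IsGalois ℚ L := ⟨⟩
  have hML : M ≤ L := le_sup_left
  have hCL : Cy l m ≤ L := le_sup_right
  have hBL : B n ≤ L := hBC.trans hCL
  obtain ⟨P, g, hP, hqP, hst, hfrob⟩ := frob L q hq
  refine nonsplit_mem hle (sup_le (hKM.trans hML) hBL) g ?_ q hq P hP hqP hst
  refine good_crit l K B hlay hmono N n s' u hn hu hMu L hML hBL g ?_
  by_contra hall
  push Not at hall
  apply hord
  -- the restriction to the cyclotomic field
  obtain ⟨r, -, pr⟩ := rst hCL hnC hnL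
  have hpow : (r (g ^ (l ^ (s' + (n - N - 1))))) ^ (l ^ (m - 1 - n) * (l - 1)) = 1 := by
    refine pow_deg (B := B n) (B' := Cy l m) hBC hGC _ ?_ _ ?_
    · rw [hfC, (hlay n).1, ← mul_assoc, ← pow_add]
      congr 2
      omega
    · intro x hx
      apply Subtype.ext
      rw [pr, hall _ hx]
  -- a primitive root of unity
  have hprim := Complex.isPrimitiveRoot_exp (l ^ m) (pow_ne_zero m hl.ne_zero)
  set ζ : ℂ := Complex.exp (2 * Real.pi * Complex.I / ((l ^ m : ℕ) : ℂ)) with hζ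
  have hζC : ζ ∈ Cy l m := IntermediateField.subset_adjoin ℚ _ hprim.pow_eq_one
  have hgz : ∀ z : L, z ^ (l ^ m) = 1 → g z = z ^ q := fun z hz =>
    hfrob z (l ^ m) (pow_ne_zero m hl.ne_zero) (fun h =>
      hql ((Nat.prime_dvd_prime_iff_eq hq hl).1 (hq.dvd_of_dvd_pow h))) hz
  have hgj : ∀ (j : ℕ) (z : L), z ^ (l ^ m) = 1 → (g ^ j) z = z ^ (q ^ j) := by
    intro j
    induction j with
    | zero => intro z _; simp
    | succ j ih =>
      intro z hz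
      rw [pow_succ, AlgEquiv.mul_apply, hgz z hz, ih (z ^ q) (by
        rw [← pow_mul, mul_comm, pow_mul, hz, one_pow]), ← pow_mul, pow_succ, mul_comm]
  have hE : (l ^ (s' + (n - N - 1))) * (l ^ (m - 1 - n) * (l - 1)) =
      (l - 1) * l ^ (s' + (m - N - 2)) := by
    rw [← mul_assoc, ← pow_add, mul_comm]
    congr 2
    omega
  have hfix : (g ^ ((l - 1) * l ^ (s' + (m - N - 2)))) ⟨ζ, hCL hζC⟩ = ⟨ζ, hCL hζC⟩ := by
    have h1 := pr (g ^ ((l - 1) * l ^ (s' + (m - N - 2)))) ⟨ζ, hζC⟩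
    rw [← hE, pow_mul, map_pow, hpow] at h1
    rw [← hE, pow_mul]
    exact Subtype.ext h1.symm
  have hz1 : (⟨ζ, hCL hζC⟩ : L) ^ (l ^ m) = 1 := Subtype.ext hprim.pow_eq_one
  rw [hgj _ _ hz1] at hfix
  have h2 : ζ ^ (q ^ ((l - 1) * l ^ (s' + (m - N - 2)))) = ζ ^ 1 := by
    rw [pow_one]
    exact congrArg Subtype.val hfix
  have hmod : q ^ ((l - 1) * l ^ (s' + (m - N - 2))) ≡ 1 [MOD l ^ m] := by
    have hpos : 1 ≤ q ^ ((l - 1) * l ^ (s' + (m - N - 2))) := Nat.one_le_pow _ _ hq.pos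
    have hζ0 : ζ ≠ 0 := Complex.exp_ne_zero _
    have h3 : ζ ^ (q ^ ((l - 1) * l ^ (s' + (m - N - 2))) - 1) = 1 := by
      have h4 : ζ ^ (q ^ ((l - 1) * l ^ (s' + (m - N - 2))) - 1) * ζ = 1 * ζ := by
        rw [← pow_succ, Nat.sub_add_cancel hpos, h2, pow_one, one_mul]
      exact mul_right_cancel₀ hζ0 h4
    exact ((Nat.modEq_iff_dvd' hpos).2 (hprim.dvd_of_pow_eq_one _ h3)).symm
  have h4 := arith l q s' N m hl hq hql (by omega) hmod
  -- from `s'` to `s`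
  obtain ⟨c, hc⟩ := pow_dvd_pow l hs'
  have h5 := h4.pow c
  rw [one_pow, ← pow_mul, mul_assoc, ← hc] at h5
  exact h5

end Pool.Agent.TWD


end

section

/-!
# TWD: existence of twists which are not abelian over `ℚ` (helper11)
-/

set_option autoImplicit false

open NumberField IntermediateField

namespace Pool.Agent.TWD

open Pool.Agent.MU3 Pool.Agent.RI Pool.Agent.RID Pool.Agent.TWF

/-- a finite cyclic group has an injective character -/
theorem inj_char {G : Type} [Group G] [Finite G] [hc : IsCyclic G] :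
    ∃ X : G →* ℂˣ, Function.Injective X := by
  have hN : Nat.card G ≠ 0 := Nat.card_pos.ne'
  have : NeZero (Nat.card G) := ⟨hN⟩
  have hz := Complex.isPrimitiveRoot_exp (Nat.card G) hN
  let ζ : ℂˣ := hz.isUnit hN |>.unit
  have hζ : IsPrimitiveRoot ζ (Nat.card G) := IsPrimitiveRoot.isUnit_unit hN hz
  let e1 : Multiplicative (ZMod (Nat.card G)) ≃* G := zmodCyclicMulEquiv hc
  let e2 := hζ.zmodEquivZPowers
  let X : G →* ℂˣ :=
    { toFun := fun g => ((e2 (Multiplicative.toAdd (e1.symm g))).toMul : ℂˣ)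
      map_one' := by simp
      map_mul' := fun a b => by simp }
  refine ⟨X, fun a b hab => ?_⟩
  have h1 : e2 (Multiplicative.toAdd (e1.symm a)) = e2 (Multiplicative.toAdd (e1.symm b)) :=
    Additive.toMul.injective (Subtype.ext hab)
  have h2 := e2.injective h1
  exact e1.symm.injective (Multiplicative.toAdd.injective h2)

theorem ab_aux {k E F : Type} [Field k] [Field E] [Field F] [Algebra k E] [Algebra k F]
    (f : E →ₐ[k] F) (hG : IsGalois k F) (hc : ∀ σ τ : F ≃ₐ[k] F, σ * τ = τ * σ) :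
    IsGalois k E ∧ ∀ σ τ : E ≃ₐ[k] E, σ * τ = τ * σ := by
  have hF : IsAbelianGalois k F := { is_comm := ⟨fun σ τ => hc σ τ⟩ }
  have hE : IsAbelianGalois k E := IsAbelianGalois.of_algHom f
  exact ⟨hE.toIsGalois, fun σ τ => hE.is_comm.comm σ τ⟩

/-- a subfield of a field which is abelian over `ℚ` -/
theorem ab_sub {E F : IntermediateField ℚ ℂ} (h : E ≤ F) (hF : AbelianQ F) : AbelianQ E :=
  ab_aux (IntermediateField.inclusion h).toRingHom.toRatAlgHom hF.1 hF.2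

/-- If `K / k` is cyclic of degree `l^a` there are twists of every large level which generate `K` over
`B_(n+1)`. -/
theorem twist_exists (l : ℕ) [Fact l.Prime] (k K : IntermediateField ℚ ℂ)
    (B : ℕ → IntermediateField ℚ ℂ) [FiniteDimensional ℚ K] (hB : Twr l k K B) (a : ℕ)
    (ha : Module.finrank k (extendScalars hB.hk) = l ^ a)
    (hcyc : IsCyclic ((extendScalars hB.hk) ≃ₐ[k] (extendScalars hB.hk))) :
    ∃ n₁ : ℕ, ∀ n : ℕ, n₁ ≤ n → ∃ L : IntermediateField ℚ ℂ, Twist l k K B n k L ∧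
      K ≤ L ⊔ B (n + 1) := by
  have hl : l.Prime := Fact.out
  have hfL : ∀ n, FiniteDimensional ℚ ↥(K ⊔ B n) := fun n => by
    have : FiniteDimensional ℚ (B n) := (LAY_thm l n (B n) (hB.lay n)).1
    exact IntermediateField.finiteDimensional_sup K (B n)
  obtain ⟨n₃, h3⟩ := grow l k K B hB
  refine ⟨n₃, fun n hn => ?_⟩
  have hkC : k ≤ K ⊔ B (n + 1) := hB.hk.trans le_sup_left
  let aC : Algebra k ↥(K ⊔ B (n + 1)) := algC hkC
  let aK : Algebra k K := algC hB.hk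
  obtain ⟨galC, comC⟩ := gal_ab l k K B hB (n + 1) hkC
  obtain ⟨r₁, r₂, p1, p2, -⟩ := chr_split l k K B hB (n + 1) hkC
  obtain ⟨fdB, hGB, -⟩ := LAY_thm l (n + 1) (B (n + 1)) (hB.lay (n + 1))
  have hcycB : IsCyclic (B (n + 1) ≃ₐ[ℚ] B (n + 1)) := t_LAYC l (n + 1) (B (n + 1)) (hB.lay _)
  have hcycK : IsCyclic (K ≃ₐ[k] K) := (extEquiv hB.hk).autCongr.isCyclic.1 hcyc
  have fdk : FiniteDimensional ℚ k := FiniteDimensional.of_injective
    (IntermediateField.inclusion hB.hk).toLinearMap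
    (IntermediateField.inclusion hB.hk).toRingHom.injective
  have tC : IsScalarTower ℚ k ↥(K ⊔ B (n + 1)) := IsScalarTower.of_algebraMap_eq (fun _ => rfl)
  have tK : IsScalarTower ℚ k K := IsScalarTower.of_algebraMap_eq (fun _ => rfl)
  have ffC : FiniteDimensional k ↥(K ⊔ B (n + 1)) :=
    Module.Finite.of_restrictScalars_finite ℚ k _
  have ffK : FiniteDimensional k K := Module.Finite.of_restrictScalars_finite ℚ k _
  have galK : IsGalois k K := (isGalois_algC hB.hk).2 hB.gal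
  have hone : ∀ τ : ↥(K ⊔ B (n + 1)) ≃ₐ[k] ↥(K ⊔ B (n + 1)), r₁ τ = 1 → r₂ τ = 1 → τ = 1 := by
    intro τ h1 h2
    refine eq_one_of hkC τ ?_ ?_
    · intro x hx
      have h3 := p1 τ ⟨(x : ℂ), hx⟩ x rfl
      rw [h1] at h3
      exact Subtype.ext h3
    · intro x hx
      have h3 := p2 τ ⟨(x : ℂ), hx⟩ x rfl
      rw [h2] at h3
      exact Subtype.ext h3
  obtain ⟨X₁, hX1⟩ := inj_char (G := K ≃ₐ[k] K)
  obtain ⟨X₂, hX2⟩ := inj_char (G := B (n + 1) ≃ₐ[ℚ] B (n + 1))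
  let X : (↥(K ⊔ B (n + 1)) ≃ₐ[k] ↥(K ⊔ B (n + 1))) →* ℂˣ := (X₁.comp r₁) * (X₂.comp r₂)
  have hXv : ∀ τ, X τ = X₁ (r₁ τ) * X₂ (r₂ τ) := fun τ => rfl
  let H : Subgroup (↥(K ⊔ B (n + 1)) ≃ₐ[k] ↥(K ⊔ B (n + 1))) := X.ker
  have hHn : H.Normal := X.normal_ker
  let F : IntermediateField k ↥(K ⊔ B (n + 1)) := fixedField H
  let L : IntermediateField ℚ ℂ := (F.restrictScalars ℚ).map (K ⊔ B (n + 1)).val
  have hmem : ∀ z : ℂ, z ∈ L ↔ ∃ hz : z ∈ K ⊔ B (n + 1), (⟨z, hz⟩ : ↥(K ⊔ B (n + 1))) ∈ F := by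
    intro z
    constructor
    · rintro ⟨y, hy, rfl⟩
      exact ⟨y.2, hy⟩
    · rintro ⟨hz, hy⟩
      exact ⟨⟨z, hz⟩, hy, rfl⟩
  have hL : L ≤ K ⊔ B (n + 1) := fun z hz => ((hmem z).1 hz).1
  have hkL : k ≤ L := by
    intro z hz
    exact (hmem z).2 ⟨hkC hz, F.algebraMap_mem ⟨z, hz⟩⟩
  -- `Gal(L / k)`
  let e : F ≃ₐ[k] (extendScalars hkL) :=
    { toFun := fun y => ⟨(y : ↥(K ⊔ B (n + 1))), (hmem _).2 ⟨y.1.2, y.2⟩⟩
      invFun := fun z => ⟨⟨z.1, hL z.2⟩, ((hmem _).1 z.2).2⟩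
      left_inv := fun _ => rfl
      right_inv := fun _ => rfl
      map_mul' := fun _ _ => rfl
      map_add' := fun _ _ => rfl
      commutes' := fun _ => rfl }
  let q := IsGalois.normalAutEquivQuotient H
  have hcG : IsCyclic ((↥(K ⊔ B (n + 1)) ≃ₐ[k] ↥(K ⊔ B (n + 1))) ⧸ H) := by
    have h1 := QuotientGroup.quotientKerEquivRange X
    have h2 : IsCyclic X.range := inferInstance
    exact h1.symm.isCyclic.1 h2
  have hcF : IsCyclic (F ≃ₐ[k] F) := q.isCyclic.1 hcG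
  have hcL : IsCyclic ((extendScalars hkL) ≃ₐ[k] (extendScalars hkL)) :=
    e.autCongr.isCyclic.1 hcF
  -- the degree
  have hcardB : Nat.card (B (n + 1) ≃ₐ[ℚ] B (n + 1)) = l ^ (n + 1) := by
    rw [IsGalois.card_aut_eq_finrank, (hB.lay (n + 1)).1]
  have hcardK : Nat.card (K ≃ₐ[k] K) = l ^ a := by
    rw [IsGalois.card_aut_eq_finrank]
    have h1 := finrank_algC hB.hk
    rw [h1]
    exact ha
  have hdeg : Module.finrank k (extendScalars hkL) ∣ l ^ (a + (n + 1)) := by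
    rw [← e.toLinearEquiv.finrank_eq]
    have h1 : Module.finrank k F ∣ Module.finrank k ↥(K ⊔ B (n + 1)) :=
      Dvd.intro _ (Module.finrank_mul_finrank k F ↥(K ⊔ B (n + 1)))
    rw [← IsGalois.card_aut_eq_finrank k ↥(K ⊔ B (n + 1))] at h1
    have h2 : Nat.card (↥(K ⊔ B (n + 1)) ≃ₐ[k] ↥(K ⊔ B (n + 1))) ∣
        Nat.card ((K ≃ₐ[k] K) × (B (n + 1) ≃ₐ[ℚ] B (n + 1))) := by
      refine Subgroup.card_dvd_of_injective (r₁.prod r₂) ?_
      rw [injective_iff_map_eq_one]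
      intro g hg
      exact hone g (congrArg Prod.fst hg) (congrArg Prod.snd hg)
    rw [Nat.card_prod, hcardB, hcardK, ← pow_add] at h2
    exact h1.trans h2
  obtain ⟨e', -, he'⟩ := (Nat.dvd_prime_pow hl).1 hdeg
  -- the automorphisms over `L`
  have hfix : ∀ σ : ↥(K ⊔ B (n + 1)) ≃ₐ[k] ↥(K ⊔ B (n + 1)),
      (∀ y : ↥(K ⊔ B (n + 1)), (y : ℂ) ∈ L → σ y = y) → X σ = 1 := by
    intro σ hσ
    have h1 : σ ∈ F.fixingSubgroup := by
      rw [IntermediateField.mem_fixingSubgroup_iff]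
      intro x hx
      exact hσ x ((hmem _).2 ⟨x.2, hx⟩)
    have h2 : F.fixingSubgroup = H := IntermediateField.fixingSubgroup_fixedField H
    rw [h2] at h1
    exact h1
  refine ⟨L, ⟨le_refl k, hkL, hL, ?_, hcL, ?_, e', he'⟩, ?_⟩
  · -- `L` is not in `K B_n`
    intro hLn
    apply h3 n hn
    intro x hx
    have hxC : x ∈ K ⊔ B (n + 1) := (le_sup_right : B (n + 1) ≤ K ⊔ B (n + 1)) hx
    refine fix_mem (E := K ⊔ B n) (hB.hk.trans le_sup_left)
      (sup_le_sup_left (hB.mono (Nat.le_succ n)) K) hkC galC ⟨x, hxC⟩ fun σ hσ => ?_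
    have h1 : X σ = 1 := hfix σ fun y hy => hσ y (hLn hy)
    have h2 : r₁ σ = 1 := by
      ext y
      have h4 := p1 σ y ⟨(y : ℂ), (le_sup_left : K ≤ K ⊔ B (n + 1)) y.2⟩ rfl
      rw [hσ _ ((le_sup_left : K ≤ K ⊔ B n) y.2)] at h4
      exact h4.symm
    rw [hXv, h2, map_one, one_mul] at h1
    have h5 : r₂ σ = 1 := hX2 (h1.trans (map_one X₂).symm)
    rw [hone σ h2 h5]
    rfl
  · have h1 : extendScalars (le_refl k) = ⊥ := by
      ext x
      rw [IntermediateField.mem_bot]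
      constructor
      · intro hx
        exact ⟨⟨x, hx⟩, rfl⟩
      · rintro ⟨y, rfl⟩
        exact y.2
    rw [h1, IntermediateField.finrank_bot]
    exact fun h => hl.one_lt.ne' (Nat.dvd_one.1 h)
  · intro x hx
    have hxC : x ∈ K ⊔ B (n + 1) := (le_sup_left : K ≤ K ⊔ B (n + 1)) hx
    refine fix_mem (E := L ⊔ B (n + 1)) (hkL.trans le_sup_left)
      (sup_le hL le_sup_right) hkC galC ⟨x, hxC⟩ fun σ hσ => ?_
    have h1 : X σ = 1 := hfix σ fun y hy => hσ y ((le_sup_left : L ≤ L ⊔ B (n + 1)) hy)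
    have h2 : r₂ σ = 1 := by
      ext y
      have h4 := p2 σ y ⟨(y : ℂ), (le_sup_right : B (n + 1) ≤ K ⊔ B (n + 1)) y.2⟩ rfl
      rw [hσ _ ((le_sup_right : B (n + 1) ≤ L ⊔ B (n + 1)) y.2)] at h4
      exact h4.symm
    rw [hXv, h2, map_one, mul_one] at h1
    have h5 : r₁ σ = 1 := hX1 (h1.trans (map_one X₁).symm)
    rw [hone σ h5 h2]
    rfl

/-- If `K / k` is cyclic of degree `l^a` and `K / ℚ` is not abelian there are twists of every large level which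
are not abelian over `ℚ`. -/
theorem twist_nonab (l : ℕ) [Fact l.Prime] (k K : IntermediateField ℚ ℂ)
    (B : ℕ → IntermediateField ℚ ℂ) [FiniteDimensional ℚ K] (hB : Twr l k K B) (a : ℕ)
    (ha : Module.finrank k (extendScalars hB.hk) = l ^ a)
    (hcyc : IsCyclic ((extendScalars hB.hk) ≃ₐ[k] (extendScalars hB.hk)))
    (hK : ¬ AbelianQ K) :
    ∃ n₁ : ℕ, ∀ n : ℕ, n₁ ≤ n → ∃ L : IntermediateField ℚ ℂ, Twist l k K B n k L ∧
      ¬ AbelianQ L := by
  obtain ⟨n₁, h1⟩ := twist_exists l k K B hB a ha hcyc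
  refine ⟨n₁, fun n hn => ?_⟩
  obtain ⟨L, hT, hKL⟩ := h1 n hn
  refine ⟨L, hT, fun hA => hK ?_⟩
  obtain ⟨fdB, hGB, -⟩ := LAY_thm l (n + 1) (B (n + 1)) (hB.lay (n + 1))
  have hcycB : IsCyclic (B (n + 1) ≃ₐ[ℚ] B (n + 1)) := t_LAYC l (n + 1) (B (n + 1)) (hB.lay _)
  have cB : ∀ a b : B (n + 1) ≃ₐ[ℚ] B (n + 1), a * b = b * a := by
    let _ := IsCyclic.commGroup (α := B (n + 1) ≃ₐ[ℚ] B (n + 1))
    exact fun a b => mul_comm a b
  obtain ⟨h₁, h₂, hL, -⟩ := hT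
  have fdC : FiniteDimensional ℚ ↥(K ⊔ B (n + 1)) :=
    IntermediateField.finiteDimensional_sup K (B (n + 1))
  have fdL : FiniteDimensional ℚ L := FiniteDimensional.of_injective
    (IntermediateField.inclusion hL).toLinearMap
    (IntermediateField.inclusion hL).toRingHom.injective
  have h2 : AbelianQ (L ⊔ B (n + 1)) := ab_sup L (B (n + 1)) hA.1 hGB hA.2 cB
  exact ab_sub hKL h2

end Pool.Agent.TWD


end

section

/-!
# TWD: the primes for which the class numbers of the fields `L ≤ K B_n` and `L ∩ K B_N` agree in all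
layers of the cyclotomic `ℤ_p`-extensions (helper11)
-/

set_option autoImplicit false

open NumberField IsDedekindDomain Finset
open scoped nonZeroDivisors Pointwise

namespace Pool.Agent.TWD

open Pool.Agent.MU3 Pool.Agent.RI Pool.Agent.RID Pool.Agent.TWF

/-- if `p` divides neither `h(K)` nor `[K : F]` then `v_p h(K) = v_p h(F)` -/
theorem cl_of_ndvd (p : ℕ) [hp : Fact p.Prime] {F K : IntermediateField ℚ ℂ}
    [FiniteDimensional ℚ K] (h : F ≤ K) (hg : IsGalois F (IntermediateField.extendScalars h))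
    (hd : ¬ p ∣ Module.finrank F (IntermediateField.extendScalars h)) (hK : ¬ p ∣ classNo K) :
    padicValNat p (classNo K) = padicValNat p (classNo F) := by
  have hF : FiniteDimensional ℚ F := BASE.finDim_of_le h
  letI := algC h
  have hgal : IsGalois F K := (isGalois_algC h).mpr hg
  have hcop : (Module.finrank F K).Coprime p := by
    have h1 := finrank_algC h
    rw [Nat.coprime_comm, hp.out.coprime_iff_not_dvd]
    intro h2
    apply hd
    rw [← h1]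
    exact h2
  rw [BASE.classNo_eq K, BASE.classNo_eq F, CL_thm p F K hcop]
  intro c _
  refine ⟨Nat.card (J K ⧸ (prin (K := K)).range), ?_, ?_⟩
  · rw [← CL.classNumber_eq, ← BASE.classNo_eq, Nat.coprime_comm, hp.out.coprime_iff_not_dvd]
    exact hK
  · have h1 : (QuotientGroup.mk c : J K ⧸ (prin (K := K)).range) ^
        Nat.card (J K ⧸ (prin (K := K)).range) = 1 := pow_card_eq_one'
    rw [← QuotientGroup.mk_pow, QuotientGroup.eq_one_iff] at h1
    obtain ⟨x, hx⟩ := h1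
    exact ⟨x, hx.symm⟩

/-- as `end1`, with the hypothesis that no prime above `p` splits in `K B_n / K B_N` -/
theorem end1' (p l : ℕ) [Fact p.Prime] [Fact l.Prime] (hpl : p ≠ l)
    (k K : IntermediateField ℚ ℂ) (B : ℕ → IntermediateField ℚ ℂ)
    [FiniteDimensional ℚ K] [∀ n, FiniteDimensional ℚ ↥(K ⊔ B n)] (hB : Twr l k K B)
    (n n' : ℕ) (hnn : n ≤ n') (hle : K ⊔ B n ≤ K ⊔ B n') (h1 : Nonsplit p hle)
    (L : IntermediateField ℚ ℂ) (hkL : k ≤ L) (hL : L ≤ K ⊔ B n')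
    (hcl : padicValNat p (classNo L) = padicValNat p (classNo (L ⊓ (K ⊔ B n))) ∨
      ¬ p ∣ classNo L) : Same p L (L ⊓ (K ⊔ B n)) := by
  intro m Q hQ
  have hFL : L ⊓ (K ⊔ B n) ≤ L := inf_le_left
  have hFA : L ⊓ (K ⊔ B n) ≤ K ⊔ B n := inf_le_right
  have hkF : k ≤ L ⊓ (K ⊔ B n) := le_inf hkL (hB.hk.trans le_sup_left)
  have hkC : k ≤ K ⊔ B n' := hB.hk.trans le_sup_left
  have fdL : FiniteDimensional ℚ L := FiniteDimensional.of_injective
    (IntermediateField.inclusion hL).toLinearMap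
    (IntermediateField.inclusion hL).toRingHom.injective
  have fdF : FiniteDimensional ℚ ↥(L ⊓ (K ⊔ B n)) := FiniteDimensional.of_injective
    (IntermediateField.inclusion hFL).toLinearMap
    (IntermediateField.inclusion hFL).toRingHom.injective
  -- `C / k` is abelian, so `L / k` is Galois
  have hgal : IsGalois k (IntermediateField.extendScalars hkC) ∧
      ∀ σ τ : (IntermediateField.extendScalars hkC) ≃ₐ[k] (IntermediateField.extendScalars hkC),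
        σ * τ = τ * σ := by
    obtain ⟨g1, g2⟩ := gal_ab l k K B hB n' hkC
    let _ : Algebra k ↥(K ⊔ B n') := algC hkC
    refine ⟨(isGalois_algC hkC).1 g1, fun σ τ => ?_⟩
    have h1 := g2 ((extEquiv hkC).autCongr σ) ((extEquiv hkC).autCongr τ)
    rw [← map_mul, ← map_mul] at h1
    exact (extEquiv hkC).autCongr.injective h1
  have abC : IsAbelianGalois k (IntermediateField.extendScalars hkC) :=
    { toIsGalois := hgal.1
      is_comm := ⟨fun σ τ => hgal.2 σ τ⟩ }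
  have hleL : IntermediateField.extendScalars hkL ≤ IntermediateField.extendScalars hkC :=
    fun x hx => hL hx
  have abL : IsAbelianGalois k (IntermediateField.extendScalars hkL) :=
    IsAbelianGalois.of_algHom (IntermediateField.inclusion hleL)
  -- the algebras
  let i1 : Algebra ↥(L ⊓ (K ⊔ B n)) L := algC hFL
  let i2 : Algebra ↥(L ⊓ (K ⊔ B n)) ↥(K ⊔ B n) := algC hFA
  let i3 : Algebra ↥(K ⊔ B n) ↥(K ⊔ B n') := algC hle
  let i4 : Algebra L ↥(K ⊔ B n') := algC hL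
  let i5 : Algebra ↥(L ⊓ (K ⊔ B n)) ↥(K ⊔ B n') := algC (hFL.trans hL)
  let i6 : Algebra k L := algC hkL
  let i7 : Algebra k ↥(L ⊓ (K ⊔ B n)) := algC hkF
  let i8 : Algebra k ↥(K ⊔ B n) := algC (hB.hk.trans le_sup_left)
  let i9 : Algebra k ↥(K ⊔ B n') := algC hkC
  have t1 : IsScalarTower ↥(L ⊓ (K ⊔ B n)) L ↥(K ⊔ B n') := towerC hFL hL
  have t2 : IsScalarTower ↥(L ⊓ (K ⊔ B n)) ↥(K ⊔ B n) ↥(K ⊔ B n') := towerC hFA hle
  have t3 : IsScalarTower k ↥(L ⊓ (K ⊔ B n)) L := towerC hkF hFL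
  have t4 : IsScalarTower k ↥(K ⊔ B n) ↥(K ⊔ B n') :=
    towerC (hB.hk.trans le_sup_left) hle
  have gL : IsGalois k L := (isGalois_algC hkL).2 abL.toIsGalois
  have gC : IsGalois k ↥(K ⊔ B n') := (isGalois_algC hkC).2 hgal.1
  have gLF : IsGalois ↥(L ⊓ (K ⊔ B n)) L := IsGalois.tower_top_of_isGalois k _ _
  have gCA : IsGalois ↥(K ⊔ B n) ↥(K ⊔ B n') := IsGalois.tower_top_of_isGalois k _ _
  have hint : ∀ x : L, ∀ a : ↥(K ⊔ B n), algebraMap L ↥(K ⊔ B n') x =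
      algebraMap ↥(K ⊔ B n) ↥(K ⊔ B n') a →
      ∃ y : ↥(L ⊓ (K ⊔ B n)), algebraMap ↥(L ⊓ (K ⊔ B n)) L y = x := by
    intro x a hxa
    have h1 : (x : ℂ) = (a : ℂ) := congrArg Subtype.val hxa
    exact ⟨⟨(x : ℂ), x.2, h1 ▸ a.2⟩, rfl⟩
  -- the degree
  have hd : ¬ p ∣ Module.finrank ↥(L ⊓ (K ⊔ B n)) (IntermediateField.extendScalars hFL) := by
    intro hp
    have h1 : Module.finrank ↥(K ⊔ B n) (IntermediateField.extendScalars hle) ∣ l ^ n' :=
      deg_dvd l K B hB.lay hB.mono n n' hnn hle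
    have fLF : FiniteDimensional ↥(L ⊓ (K ⊔ B n)) L :=
      Module.Finite.of_restrictScalars_finite ℚ ↥(L ⊓ (K ⊔ B n)) L
    have fCA : FiniteDimensional ↥(K ⊔ B n) ↥(K ⊔ B n') :=
      Module.Finite.of_restrictScalars_finite ℚ ↥(K ⊔ B n) ↥(K ⊔ B n')
    have h2 : Nat.card (L ≃ₐ[↥(L ⊓ (K ⊔ B n))] L) ∣
        Nat.card (↥(K ⊔ B n') ≃ₐ[↥(K ⊔ B n)] ↥(K ⊔ B n')) :=
      Subgroup.card_dvd_of_surjective _ (res_surj (F := ↥(L ⊓ (K ⊔ B n))) (K := L)
        (A := ↥(K ⊔ B n)) (C := ↥(K ⊔ B n')) hint)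
    rw [IsGalois.card_aut_eq_finrank, IsGalois.card_aut_eq_finrank] at h2
    have h3 := finrank_algC hFL
    have h4 := finrank_algC hle
    have h5 : p ∣ l ^ n' := by
      refine (hp.trans ?_).trans h1
      rw [← h3, ← h4]
      exact h2
    exact hpl ((Nat.prime_dvd_prime_iff_eq Fact.out Fact.out).1 (Nat.Prime.dvd_of_dvd_pow Fact.out h5))
  -- the primes above `p`
  have hns : Nonsplit p hFL := by
    exact nonsplit_desc (F := ↥(L ⊓ (K ⊔ B n))) (K := L) (A := ↥(K ⊔ B n))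
      (C := ↥(K ⊔ B n')) p hint h1
  have hcl' : padicValNat p (classNo L) = padicValNat p (classNo (L ⊓ (K ⊔ B n))) :=
    hcl.elim id fun h => cl_of_ndvd p hFL ((isGalois_algC hFL).1 gLF) hd h
  exact finalC p (L ⊓ (K ⊔ B n)) L hFL ((isGalois_algC hFL).1 gLF) hd hns hcl' m Q hQ

/-- the set of primes of the theorem: all fields `L`, `k ≤ L ≤ K B_n`, and all layers -/
def Eq (k K : IntermediateField ℚ ℂ) (B : ℕ → IntermediateField ℚ ℂ) (N n : ℕ) : Set ℕ :=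
  {p : ℕ | ∀ L : IntermediateField ℚ ℂ, k ≤ L → L ≤ K ⊔ B n → Same p L (L ⊓ (K ⊔ B N))}

theorem classNo_ne_zero (E : IntermediateField ℚ ℂ) (hE : FiniteDimensional ℚ E) :
    classNo E ≠ 0 := by
  have : NumberField E := ⟨⟩
  have : Finite (ClassGroup (𝓞 E)) := Finite.of_fintype _
  exact Nat.card_pos.ne'

/-- the subfields of a number field are finite in number -/
theorem sub_finite (C : IntermediateField ℚ ℂ) [FiniteDimensional ℚ C] :
    {L : IntermediateField ℚ ℂ | L ≤ C}.Finite := by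
  have h1 : Finite (IntermediateField ℚ C) :=
    Field.finite_intermediateField_of_exists_primitive_element ℚ C
      (Field.exists_primitive_element ℚ C)
  refine Set.Finite.subset (Set.finite_range fun E : IntermediateField ℚ C => E.map C.val) ?_
  intro L hL
  refine ⟨L.comap C.val, ?_⟩
  ext x
  constructor
  · rintro ⟨y, hy, rfl⟩
    exact hy
  · intro hx
    exact ⟨⟨x, hL hx⟩, hx, rfl⟩

theorem mono_density {S : Set ℕ} {δ δ' : ℝ} (h : DensityGE S δ) (hd : δ' ≤ δ) :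
    DensityGE S δ' := by
  obtain ⟨C, hC⟩ := h
  refine ⟨C, fun s hs hs2 => le_trans ?_ (hC s hs hs2)⟩
  have h1 : 0 ≤ Real.log (1 / (s - 1)) := by
    apply Real.log_nonneg
    rw [le_div_iff₀ (by linarith)]
    linarith
  have := mul_le_mul_of_nonneg_right hd h1
  linarith

/-- THE EXPLICIT CONDITION: if the order of `p` modulo `l^(N+2)` is large -/
theorem expl (l : ℕ) [Fact l.Prime] (k K : IntermediateField ℚ ℂ)
    (B : ℕ → IntermediateField ℚ ℂ) [FiniteDimensional ℚ K]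
    [∀ n, FiniteDimensional ℚ ↥(K ⊔ B n)] (hB : Twr l k K B) (s : ℕ)
    (hs : ¬ l ^ (s + 1) ∣ Module.finrank ℚ (IntermediateField.normalClosure ℚ K ℂ))
    (p : ℕ) (hp : p.Prime) (hpl : p ≠ l) (N n : ℕ)
    (hord : ¬ p ^ (2 * (l - 1) * l ^ s) ≡ 1 [MOD l ^ (N + 2)])
    (L : IntermediateField ℚ ℂ) (hkL : k ≤ L) (hL : L ≤ K ⊔ B n)
    (hcl : padicValNat p (classNo L) = padicValNat p (classNo (L ⊓ (K ⊔ B N))) ∨
      ¬ p ∣ classNo L) : Same p L (L ⊓ (K ⊔ B N)) := by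
  have : Fact p.Prime := ⟨hp⟩
  have hle : K ⊔ B N ≤ K ⊔ B (n + N + 1) := sup_le_sup_left (hB.mono (by omega)) K
  exact end1' p l hpl k K B hB N (n + N + 1) (by omega) hle
    (nonsplit_exp l K B hB.lay hB.mono s hs p hp hpl N (n + N + 1) hord (by omega) hle) L hkL
    (hL.trans (sup_le_sup_left (hB.mono (by omega)) K)) hcl

/-- THE DENSITY: for every `n ≥ N` the primes in `Eq k K B N n` have density at least
`1 - l^s/l^(N+1)` -/
theorem den (l : ℕ) [Fact l.Prime] (k K : IntermediateField ℚ ℂ)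
    (B : ℕ → IntermediateField ℚ ℂ) [FiniteDimensional ℚ K]
    [∀ n, FiniteDimensional ℚ ↥(K ⊔ B n)] (hB : Twr l k K B) (s : ℕ)
    (hs : ¬ l ^ (s + 1) ∣ Module.finrank ℚ (IntermediateField.normalClosure ℚ K ℂ))
    (N n : ℕ) (hNn : N ≤ n) :
    DensityGE (Eq k K B N n) (1 - (l : ℝ) ^ s / (l : ℝ) ^ (N + 1)) := by
  -- it is enough to treat `n + 1`
  have hmon : Eq k K B N (n + 1) ⊆ Eq k K B N n := fun p hp L hkL hL =>
    hp L hkL (hL.trans (sup_le_sup_left (hB.mono (Nat.le_succ n)) K))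
  have hle : K ⊔ B N ≤ K ⊔ B (n + 1) := sup_le_sup_left (hB.mono (by omega)) K
  obtain ⟨L, fdL, gL, hKL, hden⟩ := good_of l K B hB.lay hB.mono N (n + 1) s (by omega) hs
  have : NumberField L := ⟨⟩
  have hdens := FROBD_thm L {g | Good (K ⊔ B N) (K ⊔ B (n + 1)) L g} (by
    intro g h τ₀ hg hh τ ρ hρ
    obtain ⟨j, hj⟩ := hg (τ * τ₀) ρ hρ
    have hmem : (τ₀ * g * τ₀⁻¹) ^ j ∈ Subgroup.zpowers h := by
      rw [hh]
      exact Subgroup.zpow_mem_zpowers _ _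
    obtain ⟨i, hi⟩ := hmem
    refine ⟨i, fun x hx => ?_⟩
    have h1 : τ * h ^ i * τ⁻¹ = τ * τ₀ * g ^ j * (τ * τ₀)⁻¹ := by
      have h2 : h ^ i = (τ₀ * g * τ₀⁻¹) ^ j := hi
      rw [h2, conj_zpow, mul_inv_rev]
      group
    rw [h1]
    exact hj x hx)
  have hfinL := sub_finite (K ⊔ B (n + 1))
  have hbad : {q : ℕ | ∃ E : IntermediateField ℚ ℂ, E ≤ K ⊔ B (n + 1) ∧ q ∣ classNo E}.Finite := by
    have h1 : {q : ℕ | ∃ E : IntermediateField ℚ ℂ, E ≤ K ⊔ B (n + 1) ∧ q ∣ classNo E} =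
        ⋃ E ∈ {E : IntermediateField ℚ ℂ | E ≤ K ⊔ B (n + 1)}, {q : ℕ | q ∣ classNo E} := by
      ext q
      simp
    rw [h1]
    refine Set.Finite.biUnion hfinL fun E hE => ?_
    have fdE : FiniteDimensional ℚ E := FiniteDimensional.of_injective
      (IntermediateField.inclusion (show E ≤ K ⊔ B (n + 1) from hE)).toLinearMap
      (IntermediateField.inclusion (show E ≤ K ⊔ B (n + 1) from hE)).toRingHom.injective
    refine Set.Finite.subset (Set.finite_Iic (classNo E)) fun q hq => ?_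
    exact Nat.le_of_dvd (Nat.pos_of_ne_zero (classNo_ne_zero E fdE)) hq
  have key : DensityGE (Eq k K B N (n + 1))
      ((Nat.card {g : L ≃ₐ[ℚ] L // Good (K ⊔ B N) (K ⊔ B (n + 1)) L g} : ℝ) /
        Nat.card (L ≃ₐ[ℚ] L)) := by
    refine PDGE_thm _ _ (insert l hbad.toFinset) _ hdens ?_
    rintro q ⟨g, hg, P, hP, hqP, hst⟩ hq hqA E hkE hE
    rw [Finset.mem_insert, Set.Finite.mem_toFinset, not_or] at hqA
    have : Fact q.Prime := ⟨hq⟩
    have hns : Nonsplit q hle := MAINB.nonsplit_of NSF_thm hle hKL g hg q hq P hP hqP hst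
    have hd : ∀ F : IntermediateField ℚ ℂ, F ≤ K ⊔ B (n + 1) → padicValNat q (classNo F) = 0 :=
      fun F hF => padicValNat.eq_zero_of_not_dvd fun h => hqA.2 ⟨F, hF, h⟩
    exact end1' q l hqA.1 k K B hB N (n + 1) (by omega) hle hns E hkE hE
      (Or.inl (by rw [hd E hE, hd _ (inf_le_left.trans hE)]))
  have h2 := mono_density key hden
  exact PDGE_thm _ _ ∅ _ h2 fun q hq _ _ => hmon hq

end Pool.Agent.TWD


end

section

/-!
# TWD: all primes `p ≤ X` and almost all primes at one level (helper11)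
-/

set_option autoImplicit false

open NumberField

namespace Pool.Agent.TWD

open Pool.Agent.MU3 Pool.Agent.RI Pool.Agent.RID Pool.Agent.TWF

/-- The theorem for the field `K` and the prime `p` (Theorem C): for all large `n` the class numbers of the
fields between `k` and `K B_n` come from `K B_(n₀)`. -/
def Thm (k K : IntermediateField ℚ ℂ) (B : ℕ → IntermediateField ℚ ℂ) (p : ℕ) : Prop :=
  ∃ n₀ : ℕ, ∀ n : ℕ, n₀ ≤ n → ∀ L : IntermediateField ℚ ℂ, k ≤ L → L ≤ K ⊔ B n →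
    Same p L (L ⊓ (K ⊔ B n₀))

/-- any larger level may be used as the bottom level -/
theorem Thm.up {k K : IntermediateField ℚ ℂ} {B : ℕ → IntermediateField ℚ ℂ} {p : ℕ}
    (hk : k ≤ K) (hmono : Monotone B) (h : Thm k K B p) : ∃ n₀ : ℕ, ∀ N : ℕ, n₀ ≤ N →
      ∀ n : ℕ, N ≤ n → ∀ L : IntermediateField ℚ ℂ, k ≤ L → L ≤ K ⊔ B n →
        Same p L (L ⊓ (K ⊔ B N)) := by
  obtain ⟨n₀, h0⟩ := h
  refine ⟨n₀, fun N hN n hn L hkL hL m Q hQ => ?_⟩
  have e1 := h0 n (hN.trans hn) L hkL hL m Q hQ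
  have e2 := h0 N hN (L ⊓ (K ⊔ B N)) (le_inf hkL (hk.trans le_sup_left)) inf_le_right m Q hQ
  have e3 : L ⊓ (K ⊔ B N) ⊓ (K ⊔ B n₀) = L ⊓ (K ⊔ B n₀) := by
    rw [inf_assoc]
    congr 1
    exact inf_eq_right.2 (sup_le_sup_left (hmono hN) K)
  rw [e3] at e2
  rw [e1, e2]

/-- one level for all primes `p ≤ X` of the set `S` -/
theorem allp {k K : IntermediateField ℚ ℂ} {B : ℕ → IntermediateField ℚ ℂ} {S : Set ℕ}
    (hk : k ≤ K) (hmono : Monotone B)
    (h : ∀ p ∈ S, Thm k K B p) (X : ℕ) : ∃ n₁ : ℕ, ∀ N : ℕ, n₁ ≤ N →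
      ∀ n : ℕ, N ≤ n → ∀ p : ℕ, p ≤ X → p ∈ S → p ∈ Eq k K B N n := by
  have h1 : ∀ p : ℕ, ∃ n₀ : ℕ, p ∈ S → ∀ N : ℕ, n₀ ≤ N →
      ∀ n : ℕ, N ≤ n → ∀ L : IntermediateField ℚ ℂ, k ≤ L → L ≤ K ⊔ B n →
        Same p L (L ⊓ (K ⊔ B N)) := by
    intro p
    by_cases hp : p ∈ S
    · obtain ⟨n₀, h0⟩ := (h p hp).up hk hmono
      exact ⟨n₀, fun _ => h0⟩
    · exact ⟨0, fun a => absurd a hp⟩
  choose f hf using h1
  refine ⟨(Finset.range (X + 1)).sup f, fun N hN n hn p hpX hpS L hkL hL => ?_⟩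
  have h2 : f p ≤ (Finset.range (X + 1)).sup f :=
    Finset.le_sup (Finset.mem_range.2 (Nat.lt_succ_of_le hpX))
  exact hf p hpS N (h2.trans hN) n hn L hkL hL

/-- the intersection of a twist with `K B_N` -/
theorem twist_inf (l a : ℕ) [Fact l.Prime] (k K : IntermediateField ℚ ℂ)
    (B : ℕ → IntermediateField ℚ ℂ) [FiniteDimensional ℚ K] (hB : Twr l k K B)
    (ha : ¬ l ^ (a + 1) ∣ Module.finrank k (IntermediateField.extendScalars hB.hk)) :
    ∃ n₁ : ℕ, ∀ n : ℕ, n₁ ≤ n → ∀ L₁ L : IntermediateField ℚ ℂ, Twist l k K B n L₁ L →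
      L ⊓ (K ⊔ B (n - a)) = L₁ ⊔ B (n - a) := by
  have hl : l.Prime := Fact.out
  have hfL : ∀ n, FiniteDimensional ℚ ↥(K ⊔ B n) := fun n => by
    have : FiniteDimensional ℚ (B n) := (LAY_thm l n (B n) (hB.lay n)).1
    exact IntermediateField.finiteDimensional_sup K (B n)
  obtain ⟨n₃, h3⟩ := grow l k K B hB
  have hK0 : Module.finrank k (IntermediateField.extendScalars hB.hk) ≠ 0 := by
    have h4 := finrank_algC hB.hk
    let i1 : Algebra k K := algC hB.hk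
    have : IsScalarTower ℚ k K := IsScalarTower.of_algebraMap_eq (fun _ => rfl)
    have : FiniteDimensional k K := Module.Finite.of_restrictScalars_finite ℚ k K
    rw [← h4]
    exact Module.finrank_pos.ne'
  obtain ⟨a', r, hr, har⟩ := Nat.exists_eq_pow_mul_and_not_dvd hK0 l hl.ne_one
  have ha' : a' ≤ a := by
    by_contra h
    push Not at h
    apply ha
    rw [har]
    exact (pow_dvd_pow l h).mul_right r
  refine ⟨n₃ + a + 1, fun n hn L₁ L hT => ?_⟩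
  obtain ⟨h₁, h₂, hL, hnL, hcyc, hd, e, he⟩ := hT
  exact cor2 l a r (n - a) hr k K B hB (by
    rw [har]
    exact Nat.mul_dvd_mul (pow_dvd_pow l ha') dvd_rfl) (h3 _ (by omega)) (n + 1) (by omega) L
    (h₁.trans h₂) hL hcyc hnL L₁ h₁ h₂ e (dvd_of_eq he) hd

/-- All primes `p ≤ X` of the set `S`, the primes with the explicit condition, and a set of density close
to `1`, for the twists. -/
theorem main (l : ℕ) [Fact l.Prime] (k K : IntermediateField ℚ ℂ)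
    (B : ℕ → IntermediateField ℚ ℂ) [FiniteDimensional ℚ K] (hB : Twr l k K B) (S : Set ℕ)
    (hS : ∀ p ∈ S, Thm k K B p) (a s : ℕ)
    (ha : ¬ l ^ (a + 1) ∣ Module.finrank k (IntermediateField.extendScalars hB.hk))
    (hs : ¬ l ^ (s + 1) ∣ Module.finrank ℚ (IntermediateField.normalClosure ℚ K ℂ)) (X : ℕ) :
    ∃ n₁ : ℕ, ∀ n : ℕ, n₁ ≤ n →
      (∀ L₁ L : IntermediateField ℚ ℂ, Twist l k K B n L₁ L → ∀ p : ℕ, p.Prime →
        ((p ≤ X ∧ p ∈ S) ∨ (p ≠ l ∧ ¬ p ∣ classNo L ∧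
          ¬ p ^ (2 * (l - 1) * l ^ s) ≡ 1 [MOD l ^ (n - a + 2)])) →
        Same p L (L₁ ⊔ B (n - a))) ∧
      DensityGE {p : ℕ | ∀ L₁ L : IntermediateField ℚ ℂ, Twist l k K B n L₁ L →
        Same p L (L₁ ⊔ B (n - a))} (1 - (l : ℝ) ^ (s + a) / (l : ℝ) ^ (n + 1)) := by
  have hl : l.Prime := Fact.out
  have hfL : ∀ n, FiniteDimensional ℚ ↥(K ⊔ B n) := fun n => by
    have : FiniteDimensional ℚ (B n) := (LAY_thm l n (B n) (hB.lay n)).1
    exact IntermediateField.finiteDimensional_sup K (B n)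
  obtain ⟨n₂, h2⟩ := allp hB.hk hB.mono hS X
  obtain ⟨n₄, h4⟩ := twist_inf l a k K B hB ha
  refine ⟨n₂ + n₄ + a, fun n hn => ⟨?_, ?_⟩⟩
  · intro L₁ L hT p hp hor
    rw [← h4 n (by omega) L₁ L hT]
    obtain ⟨h₁, h₂, hL, hnL, hcyc, hd, e, he⟩ := hT
    rcases hor with ⟨hpX, hpS⟩ | ⟨hpl, hpd, hord⟩
    · exact h2 (n - a) (by omega) (n + 1) (by omega) p hpX hpS L (h₁.trans h₂) hL
    · exact expl l k K B hB s hs p hp hpl (n - a) (n + 1) hord L (h₁.trans h₂) hL (Or.inr hpd)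
  · have h5 := den l k K B hB s hs (n - a) (n + 1) (by omega)
    have h6 : (1 : ℝ) - (l : ℝ) ^ (s + a) / (l : ℝ) ^ (n + 1) =
        1 - (l : ℝ) ^ s / (l : ℝ) ^ (n - a + 1) := by
      have hlpos : (0 : ℝ) < l := by exact_mod_cast hl.pos
      congr 1
      rw [div_eq_div_iff (pow_pos hlpos _).ne' (pow_pos hlpos _).ne', ← pow_add, ← pow_add]
      congr 1
      omega
    rw [h6]
    refine PDGE_thm _ _ ∅ _ h5 fun p hp _ _ L₁ L hT => ?_
    rw [← h4 n (by omega) L₁ L hT]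
    obtain ⟨h₁, h₂, hL, hnL, hcyc, hd, e, he⟩ := hT
    exact hp L (h₁.trans h₂) hL

/-- `μ = 0` from the theorem of Ferrero and Washington -/
theorem mu_of (hFW : FerreroWashington) (l : ℕ) [Fact l.Prime] (p : ℕ) (hp : p.Prime)
    (L₁ L B : IntermediateField ℚ ℂ) [FiniteDimensional ℚ L₁] (h1 : AbelianQ L₁) (j : ℕ)
    (hB : IsLayer l j B) (hS : Same p L (L₁ ⊔ B)) : MuZero p L := by
  obtain ⟨fdB, hGB, -⟩ := LAY_thm l j B hB
  have hcyc : IsCyclic (B ≃ₐ[ℚ] B) := t_LAYC l j B hB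
  have cB : ∀ a b : B ≃ₐ[ℚ] B, a * b = b * a := by
    let _ := IsCyclic.commGroup (α := B ≃ₐ[ℚ] B)
    exact fun a b => mul_comm a b
  have h2 : AbelianQ (L₁ ⊔ B) := ab_sup L₁ B h1.1 hGB h1.2 cB
  exact hS.muZero (hFW p (L₁ ⊔ B) hp (IntermediateField.finiteDimensional_sup L₁ B) h2)

end Pool.Agent.TWD


end

section

/-!
# TWD: the theorem on all primes `p ≤ X` and almost all primes, from Theorem C (helper11)
-/

set_option autoImplicit false

open NumberField IntermediateField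

namespace Pool.Agent.TWD

open Pool.Agent.MU3 Pool.Agent.RI Pool.Agent.RID Pool.Agent.TWF

/-- Theorem C for the field `k` and the prime `p` (`Pool.Agent.TWI.StPE`, same text). -/
def StC (k : IntermediateField ℚ ℂ) (p : ℕ) : Prop :=
  ∀ (K : IntermediateField ℚ ℂ) [FiniteDimensional ℚ K] (hk : k ≤ K),
    IsGalois k (IntermediateField.extendScalars hk) →
    (∀ σ τ : (IntermediateField.extendScalars hk) ≃ₐ[k] (IntermediateField.extendScalars hk),
      σ * τ = τ * σ) →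
    ¬ p ∣ Module.finrank k (IntermediateField.extendScalars hk) →
    (∀ Q : Ideal (𝓞 K), Q.IsPrime → (p : 𝓞 K) ∈ Q → (p : 𝓞 K) ∉ Q ^ 2) →
    ∀ (E : IntermediateField ℚ ℂ) [FiniteDimensional ℚ E] (hE : k ≤ E),
    IsGalois k (IntermediateField.extendScalars hE) →
    (∃ c : ℕ, Module.finrank k (IntermediateField.extendScalars hE) = p ^ c) →
    ∀ l : ℕ, (l = 2 ∨ l = 3) → ∃ n₀ : ℕ, ∀ B₀ : IntermediateField ℚ ℂ, IsLayer l n₀ B₀ →
      (∀ a : ℕ, ¬ l ^ (a + 1) ∣ Module.finrank k (IntermediateField.extendScalars hk) →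
        ∀ n : ℕ, n₀ + a ≤ n → ∀ B B' : IntermediateField ℚ ℂ, IsLayer l n B →
        IsLayer l (n + 1) B' → ∀ (L : IntermediateField ℚ ℂ) (hL : k ≤ L),
        L ≤ K ⊔ B' → ¬ L ≤ K ⊔ B →
        IsCyclic ((IntermediateField.extendScalars hL) ≃ₐ[k]
          (IntermediateField.extendScalars hL)) →
        ∀ (L₁ : IntermediateField ℚ ℂ) (h₁ : k ≤ L₁) (h₂ : L₁ ≤ L),
        ¬ l ∣ Module.finrank k (IntermediateField.extendScalars h₁) →
        (∃ e : ℕ, Module.finrank L₁ (IntermediateField.extendScalars h₂) = l ^ e) →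
        ∀ (m : ℕ) (Q : IntermediateField ℚ ℂ), IsLayer p m Q →
          padicValNat p (classNo (L ⊔ E ⊔ Q)) = padicValNat p (classNo (L₁ ⊔ B₀ ⊔ E ⊔ Q))) ∧
      ∀ n : ℕ, n₀ ≤ n → ∀ B : IntermediateField ℚ ℂ, IsLayer l n B →
        ∀ L : IntermediateField ℚ ℂ, k ≤ L → L ≤ K ⊔ B →
        ∀ (m : ℕ) (Q : IntermediateField ℚ ℂ), IsLayer p m Q →
          padicValNat p (classNo (L ⊔ E ⊔ Q)) =
            padicValNat p (classNo ((L ⊓ (K ⊔ B₀)) ⊔ E ⊔ Q))

theorem self_data (k : IntermediateField ℚ ℂ) [FiniteDimensional ℚ k] :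
    IsGalois k (extendScalars (le_refl k)) ∧
      Module.finrank k (extendScalars (le_refl k)) = 1 := by
  have h1 : extendScalars (le_refl k) = ⊥ := by
    ext x
    rw [IntermediateField.mem_bot]
    constructor
    · intro hx
      exact ⟨⟨x, hx⟩, rfl⟩
    · rintro ⟨y, rfl⟩
      exact y.2
  rw [h1]
  refine ⟨?_, IntermediateField.finrank_bot⟩
  have h2 : IsAbelianGalois k (⊥ : IntermediateField k ℂ) := inferInstance
  exact h2.toIsGalois

/-- Theorem C for one prime, without `E` -/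
theorem thm_of (k K : IntermediateField ℚ ℂ) [FiniteDimensional ℚ K] (h : k ≤ K)
    (hG : IsGalois k (extendScalars h))
    (hab : ∀ σ τ : (extendScalars h) ≃ₐ[k] (extendScalars h), σ * τ = τ * σ) (p : ℕ)
    (hC : StC k p) (hd : ¬ p ∣ Module.finrank k (extendScalars h))
    (hram : ∀ Q : Ideal (𝓞 K), Q.IsPrime → (p : 𝓞 K) ∈ Q → (p : 𝓞 K) ∉ Q ^ 2)
    (l : ℕ) (hl : l = 2 ∨ l = 3) (B : ℕ → IntermediateField ℚ ℂ)
    (hlay : ∀ n, IsLayer l n (B n)) : Thm k K B p := by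
  have fdk : FiniteDimensional ℚ k := FiniteDimensional.of_injective
    (IntermediateField.inclusion h).toLinearMap
    (IntermediateField.inclusion h).toRingHom.injective
  obtain ⟨g1, g2⟩ := self_data k
  obtain ⟨n₀, h0⟩ := hC K h hG hab hd hram k (le_refl k) g1 ⟨0, by rw [g2, pow_zero]⟩ l hl
  refine ⟨n₀, fun n hn L hkL hL m Q hQ => ?_⟩
  have h1 := (h0 (B n₀) (hlay n₀)).2 n hn (B n) (hlay n) L hkL hL m Q hQ
  have e1 : L ⊔ k = L := sup_eq_left.2 hkL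
  have e2 : L ⊓ (K ⊔ B n₀) ⊔ k = L ⊓ (K ⊔ B n₀) :=
    sup_eq_left.2 (le_inf hkL (h.trans le_sup_left))
  rw [e1, e2] at h1
  exact h1

/-- The theorem, from Theorem C. -/
theorem t2 (hC : ∀ k : IntermediateField ℚ ℂ, Module.finrank ℚ k = 2 →
      (∃ z ∈ k, (starRingEnd ℂ) z ≠ z) → (∀ z ∈ k, z ^ 2 ≠ -1) → (∀ z ∈ k, z ^ 2 ≠ -3) →
      ∃ S : Finset ℕ, ∀ p : ℕ, p.Prime → p ∉ S → StC k p) :
    -- (1)
    (∀ k : IntermediateField ℚ ℂ, Module.finrank ℚ k = 2 → (∃ z ∈ k, (starRingEnd ℂ) z ≠ z) →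
      (∀ z ∈ k, z ^ 2 ≠ -1) → (∀ z ∈ k, z ^ 2 ≠ -3) → ∃ S : Finset ℕ,
      ∀ (K : IntermediateField ℚ ℂ) [FiniteDimensional ℚ K] (h : k ≤ K),
      IsGalois k (extendScalars h) →
      (∀ σ τ : (extendScalars h) ≃ₐ[k] (extendScalars h), σ * τ = τ * σ) →
      ∀ l : ℕ, (l = 2 ∨ l = 3) → ∀ B : ℕ → IntermediateField ℚ ℂ, (∀ n, IsLayer l n (B n)) →
      Monotone B → ∀ a s : ℕ, ¬ l ^ (a + 1) ∣ Module.finrank k (extendScalars h) →
      ¬ l ^ (s + 1) ∣ Module.finrank ℚ (normalClosure ℚ K ℂ) →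
      ∀ X : ℕ, ∃ n₁ : ℕ, ∀ n : ℕ, n₁ ≤ n →
        (∀ L₁ L : IntermediateField ℚ ℂ, Twist l k K B n L₁ L → ∀ p : ℕ, p.Prime →
          ((p ≤ X ∧ p ∉ S ∧ ¬ p ∣ Module.finrank k (extendScalars h) ∧
            ∀ Q : Ideal (𝓞 K), Q.IsPrime → (p : 𝓞 K) ∈ Q → (p : 𝓞 K) ∉ Q ^ 2) ∨
          (p ≠ l ∧ ¬ p ∣ classNo L ∧
            ¬ p ^ (2 * (l - 1) * l ^ s) ≡ 1 [MOD l ^ (n - a + 2)])) →
          Same p L (L₁ ⊔ B (n - a)) ∧ (FerreroWashington → AbelianQ L₁ → MuZero p L)) ∧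
        DensityGE {p : ℕ | ∀ L₁ L : IntermediateField ℚ ℂ, Twist l k K B n L₁ L →
          Same p L (L₁ ⊔ B (n - a)) ∧ (FerreroWashington → AbelianQ L₁ → MuZero p L)}
          (1 - (l : ℝ) ^ (s + a) / (l : ℝ) ^ (n + 1))) ∧
    -- (2)
    (∀ k : IntermediateField ℚ ℂ, Module.finrank ℚ k = 2 → (∃ z ∈ k, (starRingEnd ℂ) z ≠ z) →
      (∀ z ∈ k, z ^ 2 ≠ -1) → (∀ z ∈ k, z ^ 2 ≠ -3) → ∃ S : Finset ℕ,
      ∀ (K : IntermediateField ℚ ℂ) [FiniteDimensional ℚ K] (h : k ≤ K),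
      IsGalois k (extendScalars h) →
      (∀ σ τ : (extendScalars h) ≃ₐ[k] (extendScalars h), σ * τ = τ * σ) →
      ∀ l : ℕ, (l = 2 ∨ l = 3) → ∀ B : ℕ → IntermediateField ℚ ℂ, (∀ n, IsLayer l n (B n)) →
      Monotone B → ∀ X : ℕ, ∃ n₁ : ℕ, ∀ N n : ℕ, n₁ ≤ N → N ≤ n → ∀ p : ℕ, p.Prime → p ≤ X →
        p ∉ S → ¬ p ∣ Module.finrank k (extendScalars h) →
        (∀ Q : Ideal (𝓞 K), Q.IsPrime → (p : 𝓞 K) ∈ Q → (p : 𝓞 K) ∉ Q ^ 2) →
        ∀ L : IntermediateField ℚ ℂ, k ≤ L → L ≤ K ⊔ B n → Same p L (L ⊓ (K ⊔ B N))) ∧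
    -- (3)
    (∀ (k K : IntermediateField ℚ ℂ) [FiniteDimensional ℚ K] (h : k ≤ K),
      IsGalois k (extendScalars h) →
      (∀ σ τ : (extendScalars h) ≃ₐ[k] (extendScalars h), σ * τ = τ * σ) →
      ∀ l : ℕ, l.Prime → ∀ B : ℕ → IntermediateField ℚ ℂ, (∀ n, IsLayer l n (B n)) →
      Monotone B → ∀ s : ℕ, ¬ l ^ (s + 1) ∣ Module.finrank ℚ (normalClosure ℚ K ℂ) →
      ∀ N n : ℕ, N ≤ n →
        (∀ L : IntermediateField ℚ ℂ, k ≤ L → L ≤ K ⊔ B n → ∀ p : ℕ, p.Prime → p ≠ l →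
          ¬ p ∣ classNo L → ¬ p ^ (2 * (l - 1) * l ^ s) ≡ 1 [MOD l ^ (N + 2)] →
          Same p L (L ⊓ (K ⊔ B N))) ∧
        DensityGE {p : ℕ | ∀ L : IntermediateField ℚ ℂ, k ≤ L → L ≤ K ⊔ B n →
          Same p L (L ⊓ (K ⊔ B N))} (1 - (l : ℝ) ^ s / (l : ℝ) ^ (N + 1))) ∧
    -- (4)
    (∀ (F K L : IntermediateField ℚ ℂ) [FiniteDimensional ℚ L] (hFK : F ≤ K) (_hKL : K ≤ L),
      IsGalois ℚ L → IsGalois F (extendScalars hFK) →
      DensityGE {p : ℕ | Same p K F}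
        ((Nat.card {g : L ≃ₐ[ℚ] L // Good F K L g} : ℝ) / Nat.card (L ≃ₐ[ℚ] L))) := by
  refine ⟨?_, ?_, ?_, ?_⟩
  · intro k h2 hi h4 h3
    obtain ⟨S, hS⟩ := hC k h2 hi h4 h3
    refine ⟨S, ?_⟩
    intro K fdK h hG hab l hl B hlay hmono a s ha hs X
    have hlp : l.Prime := by
      rcases hl with rfl | rfl
      · exact Nat.prime_two
      · exact Nat.prime_three
    have hlF : Fact l.Prime := ⟨hlp⟩
    have hB : Twr l k K B := ⟨h, hG, hab, hlay, hmono⟩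
    obtain ⟨n₁, h1⟩ := main l k K B hB {p : ℕ | p.Prime ∧ p ∉ S ∧
      ¬ p ∣ Module.finrank k (extendScalars h) ∧
      ∀ Q : Ideal (𝓞 K), Q.IsPrime → (p : 𝓞 K) ∈ Q → (p : 𝓞 K) ∉ Q ^ 2} (by
        rintro p ⟨hp, hpS, hpd, hram⟩
        exact thm_of k K h hG hab p (hS p hp hpS) hpd hram l hl B hlay) a s ha hs X
    refine ⟨n₁, fun n hn => ?_⟩
    obtain ⟨h5, h6⟩ := h1 n hn
    have key : ∀ L₁ L : IntermediateField ℚ ℂ, Twist l k K B n L₁ L → ∀ p : ℕ, p.Prime →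
        Same p L (L₁ ⊔ B (n - a)) →
        Same p L (L₁ ⊔ B (n - a)) ∧ (FerreroWashington → AbelianQ L₁ → MuZero p L) := by
      intro L₁ L hT p hp hSm
      refine ⟨hSm, fun hFW hA => ?_⟩
      obtain ⟨h₁, h₂, hL, -⟩ := hT
      have fdC : FiniteDimensional ℚ ↥(K ⊔ B (n + 1)) := by
        have : FiniteDimensional ℚ (B (n + 1)) := (LAY_thm l (n + 1) (B (n + 1)) (hlay _)).1
        exact IntermediateField.finiteDimensional_sup K (B (n + 1))
      have fdL₁ : FiniteDimensional ℚ L₁ := FiniteDimensional.of_injective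
        (IntermediateField.inclusion (h₂.trans hL)).toLinearMap
        (IntermediateField.inclusion (h₂.trans hL)).toRingHom.injective
      exact mu_of hFW l p hp L₁ L (B (n - a)) hA (n - a) (hlay _) hSm
    refine ⟨fun L₁ L hT p hp hor => ?_, ?_⟩
    · refine key L₁ L hT p hp (h5 L₁ L hT p hp ?_)
      rcases hor with ⟨e1, e2, e3, e4⟩ | h
      · exact Or.inl ⟨e1, hp, e2, e3, e4⟩
      · exact Or.inr h
    · exact PDGE_thm _ _ ∅ _ h6 fun p hp hpp _ L₁ L hT => key L₁ L hT p hpp (hp L₁ L hT)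
  · intro k h2 hi h4 h3
    obtain ⟨S, hS⟩ := hC k h2 hi h4 h3
    refine ⟨S, ?_⟩
    intro K fdK h hG hab l hl B hlay hmono X
    obtain ⟨n₁, h1⟩ := allp (S := {p : ℕ | p.Prime ∧ p ∉ S ∧
      ¬ p ∣ Module.finrank k (extendScalars h) ∧
      ∀ Q : Ideal (𝓞 K), Q.IsPrime → (p : 𝓞 K) ∈ Q → (p : 𝓞 K) ∉ Q ^ 2}) (B := B) h hmono (by
        rintro p ⟨hp, hpS, hpd, hram⟩
        exact thm_of k K h hG hab p (hS p hp hpS) hpd hram l hl B hlay) X
    exact ⟨n₁, fun N n hN hn p hp hpX hpS hpd hram L hkL hL =>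
      h1 N hN n hn p hpX ⟨hp, hpS, hpd, hram⟩ L hkL hL⟩
  · intro k K fdK h hG hab l hl B hlay hmono s hs N n hNn
    have hlF : Fact l.Prime := ⟨hl⟩
    have hB : Twr l k K B := ⟨h, hG, hab, hlay, hmono⟩
    have hfL : ∀ n, FiniteDimensional ℚ ↥(K ⊔ B n) := fun n => by
      have : FiniteDimensional ℚ (B n) := (LAY_thm l n (B n) (hlay n)).1
      exact IntermediateField.finiteDimensional_sup K (B n)
    exact ⟨fun L hkL hL p hp hpl hpd hord =>
      expl l k K B hB s hs p hp hpl N n hord L hkL hL (Or.inr hpd),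
      den l k K B hB s hs N n hNn⟩
  · exact finalD

end Pool.Agent.TWD


end

section

/-!
# TWD: the `p`-part of an abelian extension (helper11)
-/

set_option autoImplicit false

open NumberField

namespace Pool.Agent.TWD

open Pool.Agent.MU3 Pool.Agent.RI Pool.Agent.RID Pool.Agent.TWF

/-- an element which is in `H A` and in `H A'` is in `H`, if the elements of `A` and of `A'` have coprime
orders -/
theorem mem_of_two {G : Type} [CommGroup G] (H : Subgroup G) (h₁ h₂ a b : G) (q m : ℕ)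
    (hqm : Nat.Coprime q m) (h1 : h₁ ∈ H) (h2 : h₂ ∈ H) (ha : a ^ q = 1) (hb : b ^ m = 1)
    (h : h₁ * a = h₂ * b) : h₁ * a ∈ H := by
  have e1 : b * a⁻¹ ∈ H := by
    have e2 : b * a⁻¹ = h₂⁻¹ * h₁ := by
      rw [mul_inv_eq_iff_eq_mul, mul_assoc, h, inv_mul_cancel_left]
    rw [e2]
    exact H.mul_mem (H.inv_mem h2) h1
  obtain ⟨c, hc0, hc1⟩ := Nat.chineseRemainder hqm 0 1
  have e3 : (b * a⁻¹) ^ c = b := by
    rw [mul_pow, inv_pow]
    obtain ⟨d, hd⟩ := (Nat.modEq_zero_iff_dvd).1 hc0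
    have e4 : a ^ c = 1 := by rw [hd, pow_mul, ha, one_pow]
    have e5 : b ^ c = b := by
      have h6 : orderOf b ∣ m := orderOf_dvd_of_pow_eq_one hb
      have h7 : c ≡ 1 [MOD orderOf b] := hc1.of_dvd h6
      have h8 := (pow_eq_pow_iff_modEq (x := b)).2 h7
      rwa [pow_one] at h8
    rw [e4, e5, inv_one, mul_one]
  have e6 : b ∈ H := by
    rw [← e3]
    exact H.pow_mem e1 c
  rw [h]
  exact H.mul_mem h2 e6

section

variable {k C : IntermediateField ℚ ℂ} (hkC : k ≤ C)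

/-- an automorphism which is trivial on `E ⊓ F` is a product -/
theorem fix_inf [FiniteDimensional ℚ C] (E F : IntermediateField ℚ ℂ) (hkE : k ≤ E) (hkF : k ≤ F)
    (hE : E ≤ C) (hF : F ≤ C) : letI := algC hkC
    IsGalois k C → ∀ σ : C ≃ₐ[k] C, σ ∈ Fix hkC (E ⊓ F) → σ ∈ Fix hkC E ⊔ Fix hkC F := by
  let i1 : Algebra k C := algC hkC
  intro hG σ hσ
  have t2 : IsScalarTower ℚ k C := IsScalarTower.of_algebraMap_eq (fun _ => rfl)
  have hf : FiniteDimensional k C := Module.Finite.of_restrictScalars_finite ℚ k C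
  rw [← IntermediateField.fixingSubgroup_fixedField (Fix hkC E ⊔ Fix hkC F),
    IntermediateField.mem_fixingSubgroup_iff]
  intro x hx
  refine hσ x ⟨?_, ?_⟩
  · exact fix_mem hkE hE hkC hG x fun τ hτ => hx ⟨τ, (le_sup_left : Fix hkC E ≤ _) hτ⟩
  · exact fix_mem hkF hF hkC hG x fun τ hτ => hx ⟨τ, (le_sup_right : Fix hkC F ≤ _) hτ⟩

/-- `L = (L ⊓ C₁) ⊔ (L ⊓ C₂)` if the automorphisms over `C₁` and over `C₂` have coprime orders -/
theorem split_of [FiniteDimensional ℚ C] (C₁ C₂ : IntermediateField ℚ ℂ) (hk1 : k ≤ C₁)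
    (hk2 : k ≤ C₂) (h1 : C₁ ≤ C) (h2 : C₂ ≤ C) (q m : ℕ) (hqm : Nat.Coprime q m) :
    letI := algC hkC
    IsGalois k C → (∀ σ τ : C ≃ₐ[k] C, σ * τ = τ * σ) →
    (∀ σ ∈ Fix hkC C₁, σ ^ q = 1) → (∀ σ ∈ Fix hkC C₂, σ ^ m = 1) →
    ∀ L : IntermediateField ℚ ℂ, k ≤ L → L ≤ C → L = (L ⊓ C₁) ⊔ (L ⊓ C₂) := by
  let i1 : Algebra k C := algC hkC
  intro hG hab hq hm L hkL hL
  let cG : CommGroup (C ≃ₐ[k] C) := { (inferInstance : Group (C ≃ₐ[k] C)) with mul_comm := hab }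
  refine le_antisymm ?_ (sup_le inf_le_left inf_le_left)
  intro x hx
  refine fix_mem (E := (L ⊓ C₁) ⊔ (L ⊓ C₂)) ((le_inf hkL hk1).trans le_sup_left)
    (sup_le (inf_le_left.trans hL) (inf_le_left.trans hL)) hkC hG ⟨x, hL hx⟩ fun σ hσ => ?_
  have s1 : σ ∈ Fix hkC L ⊔ Fix hkC C₁ := fix_inf hkC L C₁ hkL hk1 hL h1 hG σ fun y hy =>
    hσ y ((le_sup_left : L ⊓ C₁ ≤ _) hy)
  have s2 : σ ∈ Fix hkC L ⊔ Fix hkC C₂ := fix_inf hkC L C₂ hkL hk2 hL h2 hG σ fun y hy =>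
    hσ y ((le_sup_right : L ⊓ C₂ ≤ _) hy)
  obtain ⟨g1, hg1, a, ha, e1⟩ := Subgroup.mem_sup.1 s1
  obtain ⟨g2, hg2, b, hb, e2⟩ := Subgroup.mem_sup.1 s2
  have s3 : σ ∈ Fix hkC L := by
    rw [← e1]
    exact mem_of_two (Fix hkC L) g1 g2 a b q m hqm hg1 hg2 (hq a ha) (hm b hb) (e1.trans e2.symm)
  exact s3 ⟨x, hL hx⟩ hx

end

/-- the fixed field of a group of automorphisms, as a subfield of `ℂ` -/
theorem ffield {k K : IntermediateField ℚ ℂ} (hk : k ≤ K) [FiniteDimensional ℚ K] :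
    letI := algC hk
    IsGalois k K → ∀ H : Subgroup (K ≃ₐ[k] K), ∃ (L : IntermediateField ℚ ℂ) (h1 : k ≤ L),
      L ≤ K ∧ (∀ g : K ≃ₐ[k] K, (∀ y : K, (y : ℂ) ∈ L → g y = y) ↔ g ∈ H) ∧
      Module.finrank k (IntermediateField.extendScalars h1) = H.index := by
  let i1 : Algebra k K := algC hk
  intro hG H
  have t2 : IsScalarTower ℚ k K := IsScalarTower.of_algebraMap_eq (fun _ => rfl)
  have hf : FiniteDimensional k K := Module.Finite.of_restrictScalars_finite ℚ k K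
  let F : IntermediateField k K := IntermediateField.fixedField H
  let L : IntermediateField ℚ ℂ := (F.restrictScalars ℚ).map K.val
  have hmem : ∀ z : ℂ, z ∈ L ↔ ∃ hz : z ∈ K, (⟨z, hz⟩ : K) ∈ F := by
    intro z
    constructor
    · rintro ⟨y, hy, rfl⟩
      exact ⟨y.2, hy⟩
    · rintro ⟨hz, hy⟩
      exact ⟨⟨z, hz⟩, hy, rfl⟩
  have hL : L ≤ K := fun z hz => ((hmem z).1 hz).1
  have hkL : k ≤ L := by
    intro z hz
    exact (hmem z).2 ⟨hk hz, F.algebraMap_mem ⟨z, hz⟩⟩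
  let e : F ≃ₐ[k] (IntermediateField.extendScalars hkL) :=
    { toFun := fun y => ⟨(y : K), (hmem _).2 ⟨y.1.2, y.2⟩⟩
      invFun := fun z => ⟨⟨z.1, hL z.2⟩, ((hmem _).1 z.2).2⟩
      left_inv := fun _ => rfl
      right_inv := fun _ => rfl
      map_mul' := fun _ _ => rfl
      map_add' := fun _ _ => rfl
      commutes' := fun _ => rfl }
  refine ⟨L, hkL, hL, fun g => ?_, ?_⟩
  · have h1 : g ∈ F.fixingSubgroup ↔ g ∈ H := by
      rw [IntermediateField.fixingSubgroup_fixedField]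
    rw [← h1, IntermediateField.mem_fixingSubgroup_iff]
    constructor
    · intro h x hx
      exact h x ((hmem _).2 ⟨x.2, hx⟩)
    · intro h y hy
      exact h y ((hmem _).1 hy).2
  · rw [← e.toLinearEquiv.finrank_eq, IntermediateField.finrank_eq_fixingSubgroup_index,
      IntermediateField.fixingSubgroup_fixedField]

/-- the index of the subgroup of the elements killed by `q` -/
theorem index_pow {G : Type} [CommGroup G] [Finite G] (p q m : ℕ) [hp : Fact p.Prime]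
    (hc : Nat.card G = q * m) :
    (¬ p ∣ m → ¬ p ∣ (powMonoidHom q : G →* G).ker.index) ∧
    ((∃ v, q = p ^ v) → ∃ c, (powMonoidHom m : G →* G).ker.index = p ^ c) := by
  constructor
  · intro hpm hd
    rw [Subgroup.index_ker] at hd
    obtain ⟨x, hx⟩ := exists_prime_orderOf_dvd_card' (G := (powMonoidHom q : G →* G).range) p hd
    obtain ⟨⟨_, y, rfl⟩, hy⟩ : ∃ z : (powMonoidHom q : G →* G).range, z = x := ⟨x, rfl⟩
    apply hpm
    rw [← hx]
    apply orderOf_dvd_of_pow_eq_one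
    rw [← hy]
    apply Subtype.ext
    show (y ^ q) ^ m = 1
    rw [← pow_mul, ← hc, pow_card_eq_one']
  · rintro ⟨v, rfl⟩
    rw [Subgroup.index_ker]
    have h1 : IsPGroup p (powMonoidHom m : G →* G).range := by
      rintro ⟨_, y, rfl⟩
      refine ⟨v, Subtype.ext ?_⟩
      show (y ^ m) ^ p ^ v = 1
      rw [← pow_mul, mul_comm m, ← hc, pow_card_eq_one']
    exact (IsPGroup.iff_card.1 h1)

/-- `K = K' E`, `[K' : k]` prime to `p`, `[E : k]` a power of `p` -/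
theorem pparts {k K : IntermediateField ℚ ℂ} (hk : k ≤ K) [FiniteDimensional ℚ K] (p : ℕ)
    [hp : Fact p.Prime] :
    letI := algC hk
    IsGalois k K → (∀ σ τ : K ≃ₐ[k] K, σ * τ = τ * σ) → ∀ v m : ℕ,
      Module.finrank k K = p ^ v * m → ¬ p ∣ m →
      ∃ (K' E : IntermediateField ℚ ℂ) (h1 : k ≤ K') (h3 : k ≤ E), K' ≤ K ∧ E ≤ K ∧
        K' ⊔ E = K ∧ ¬ p ∣ Module.finrank k (IntermediateField.extendScalars h1) ∧
        (∃ c : ℕ, Module.finrank k (IntermediateField.extendScalars h3) = p ^ c) ∧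
        (∀ g : K ≃ₐ[k] K, (∀ y : K, (y : ℂ) ∈ K' → g y = y) → g ^ (p ^ v) = 1) ∧
        ∀ g : K ≃ₐ[k] K, (∀ y : K, (y : ℂ) ∈ E → g y = y) → g ^ m = 1 := by
  let i1 : Algebra k K := algC hk
  intro hG hab v m hd hpm
  have t2 : IsScalarTower ℚ k K := IsScalarTower.of_algebraMap_eq (fun _ => rfl)
  have hf : FiniteDimensional k K := Module.Finite.of_restrictScalars_finite ℚ k K
  let cG : CommGroup (K ≃ₐ[k] K) := { (inferInstance : Group (K ≃ₐ[k] K)) with mul_comm := hab }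
  have hcard : Nat.card (K ≃ₐ[k] K) = p ^ v * m := by
    rw [IsGalois.card_aut_eq_finrank]
    exact hd
  obtain ⟨K', h1, h2, hK, hKd⟩ := ffield hk hG (powMonoidHom (p ^ v) : (K ≃ₐ[k] K) →* (K ≃ₐ[k] K)).ker
  obtain ⟨E, h3, h4, hE, hEd⟩ := ffield hk hG (powMonoidHom m : (K ≃ₐ[k] K) →* (K ≃ₐ[k] K)).ker
  obtain ⟨i1', i2'⟩ := index_pow (G := K ≃ₐ[k] K) p (p ^ v) m hcard
  have hqm : Nat.Coprime (p ^ v) m := Nat.Coprime.pow_left v ((Nat.Prime.coprime_iff_not_dvd hp.out).2 hpm)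
  refine ⟨K', E, h1, h3, h2, h4, le_antisymm (sup_le h2 h4) ?_, ?_, ?_, ?_, ?_⟩
  · intro x hx
    refine fix_mem (E := K' ⊔ E) (h1.trans le_sup_left) (sup_le h2 h4) hk hG ⟨x, hx⟩
      fun σ hσ => ?_
    have s1 := (hK σ).1 fun y hy => hσ y ((le_sup_left : K' ≤ K' ⊔ E) hy)
    have s2 := (hE σ).1 fun y hy => hσ y ((le_sup_right : E ≤ K' ⊔ E) hy)
    have e1 : σ ^ p ^ v = 1 := s1
    have e2 : σ ^ m = 1 := s2
    have e3 : σ = 1 := by
      rw [← orderOf_eq_one_iff]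
      have h5 := Nat.dvd_gcd (orderOf_dvd_of_pow_eq_one e1) (orderOf_dvd_of_pow_eq_one e2)
      rw [Nat.Coprime.gcd_eq_one hqm] at h5
      exact Nat.dvd_one.1 h5
    rw [e3]
    rfl
  · rw [hKd]
    exact i1' hpm
  · rw [hEd]
    exact i2' ⟨v, rfl⟩
  · intro g hg
    exact (hK g).1 hg
  · intro g hg
    exact (hE g).1 hg

/-- the decomposition at the level `n` -/
theorem split_lay (l : ℕ) [Fact l.Prime] {k K : IntermediateField ℚ ℂ}
    {B : ℕ → IntermediateField ℚ ℂ} [FiniteDimensional ℚ K] (hB : Twr l k K B)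
    (K' E : IntermediateField ℚ ℂ) (h1 : k ≤ K') (h3 : k ≤ E) (h2 : K' ≤ K) (h4 : E ≤ K)
    (q m : ℕ) (hqm : Nat.Coprime q m) (hql : Nat.Coprime q l) :
    letI := algC hB.hk
    (∀ g : K ≃ₐ[k] K, (∀ y : K, (y : ℂ) ∈ K' → g y = y) → g ^ q = 1) →
    (∀ g : K ≃ₐ[k] K, (∀ y : K, (y : ℂ) ∈ E → g y = y) → g ^ m = 1) →
    ∀ n : ℕ, ∀ L : IntermediateField ℚ ℂ, k ≤ L → L ≤ K ⊔ B n →
      L = (L ⊓ (K' ⊔ B n)) ⊔ (L ⊓ E) := by
  let aK : Algebra k K := algC hB.hk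
  intro hK' hE' n L hkL hL
  have hfL : ∀ n, FiniteDimensional ℚ ↥(K ⊔ B n) := fun n => by
    have : FiniteDimensional ℚ (B n) := (LAY_thm l n (B n) (hB.lay n)).1
    exact IntermediateField.finiteDimensional_sup K (B n)
  have hkC : k ≤ K ⊔ B n := hB.hk.trans le_sup_left
  let aC : Algebra k ↥(K ⊔ B n) := algC hkC
  obtain ⟨galC, comC⟩ := gal_ab l k K B hB n hkC
  obtain ⟨r₁, r₂, p1, p2, -⟩ := chr_split l k K B hB n hkC
  obtain ⟨fdB, hGB, -⟩ := LAY_thm l n (B n) (hB.lay n)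
  have hone : ∀ τ : ↥(K ⊔ B n) ≃ₐ[k] ↥(K ⊔ B n), r₁ τ = 1 → r₂ τ = 1 → τ = 1 := by
    intro τ h1 h2
    refine eq_one_of hkC τ ?_ ?_
    · intro x hx
      have h3 := p1 τ ⟨(x : ℂ), hx⟩ x rfl
      rw [h1] at h3
      exact Subtype.ext h3
    · intro x hx
      have h3 := p2 τ ⟨(x : ℂ), hx⟩ x rfl
      rw [h2] at h3
      exact Subtype.ext h3
  have hcardB : Nat.card (B n ≃ₐ[ℚ] B n) = l ^ n := by
    rw [IsGalois.card_aut_eq_finrank, (hB.lay n).1]
  have hr1 : ∀ (τ : ↥(K ⊔ B n) ≃ₐ[k] ↥(K ⊔ B n)) (y : K),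
      τ ⟨(y : ℂ), (le_sup_left : K ≤ K ⊔ B n) y.2⟩ =
        ⟨(y : ℂ), (le_sup_left : K ≤ K ⊔ B n) y.2⟩ → r₁ τ y = y := by
    intro τ y h
    have h3 := p1 τ y ⟨(y : ℂ), (le_sup_left : K ≤ K ⊔ B n) y.2⟩ rfl
    rw [h] at h3
    exact Subtype.ext h3.symm
  have hr2 : ∀ (τ : ↥(K ⊔ B n) ≃ₐ[k] ↥(K ⊔ B n)) (x : B n),
      τ ⟨(x : ℂ), (le_sup_right : B n ≤ K ⊔ B n) x.2⟩ =
        ⟨(x : ℂ), (le_sup_right : B n ≤ K ⊔ B n) x.2⟩ → r₂ τ x = x := by
    intro τ x h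
    have h3 := p2 τ x ⟨(x : ℂ), (le_sup_right : B n ≤ K ⊔ B n) x.2⟩ rfl
    rw [h] at h3
    exact Subtype.ext h3.symm
  refine split_of hkC (K' ⊔ B n) E (h1.trans le_sup_left) h3 (sup_le_sup_right h2 (B n))
    (h4.trans le_sup_left) q (m * l ^ n) (hqm.mul_right (hql.pow_right n)) galC comC ?_ ?_ L hkL hL
  · intro σ hσ
    have e1 : (r₁ σ) ^ q = 1 := hK' (r₁ σ) fun y hy =>
      hr1 σ y (hσ _ ((le_sup_left : K' ≤ K' ⊔ B n) hy))
    have e2 : r₂ σ = 1 := by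
      ext x
      exact congrArg Subtype.val (hr2 σ x (hσ _ ((le_sup_right : B n ≤ K' ⊔ B n) x.2)))
    apply hone
    · rw [map_pow, e1]
    · rw [map_pow, e2, one_pow]
  · intro σ hσ
    have e1 : (r₁ σ) ^ m = 1 := hE' (r₁ σ) fun y hy => hr1 σ y (hσ _ hy)
    have e2 : (r₂ σ) ^ (l ^ n) = 1 := by
      rw [← hcardB]
      exact pow_card_eq_one'
    apply hone
    · rw [map_pow, pow_mul, e1, one_pow]
    · rw [map_pow, mul_comm, pow_mul, e2, one_pow]

/-- Theorem C, part (2), for the fields `K` with the property `R` -/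
def StR (R : IntermediateField ℚ ℂ → Prop) (k : IntermediateField ℚ ℂ) (p : ℕ) : Prop :=
  ∀ (K : IntermediateField ℚ ℂ) [FiniteDimensional ℚ K] (hk : k ≤ K),
    IsGalois k (IntermediateField.extendScalars hk) →
    (∀ σ τ : (IntermediateField.extendScalars hk) ≃ₐ[k] (IntermediateField.extendScalars hk),
      σ * τ = τ * σ) →
    ¬ p ∣ Module.finrank k (IntermediateField.extendScalars hk) → R K →
    ∀ (E : IntermediateField ℚ ℂ) [FiniteDimensional ℚ E] (hE : k ≤ E),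
    IsGalois k (IntermediateField.extendScalars hE) →
    (∃ c : ℕ, Module.finrank k (IntermediateField.extendScalars hE) = p ^ c) →
    ∀ l : ℕ, (l = 2 ∨ l = 3) → ∃ n₀ : ℕ, ∀ B₀ : IntermediateField ℚ ℂ, IsLayer l n₀ B₀ →
      ∀ n : ℕ, n₀ ≤ n → ∀ B : IntermediateField ℚ ℂ, IsLayer l n B →
        ∀ L : IntermediateField ℚ ℂ, k ≤ L → L ≤ K ⊔ B →
        ∀ (m : ℕ) (Q : IntermediateField ℚ ℂ), IsLayer p m Q →
          padicValNat p (classNo (L ⊔ E ⊔ Q)) =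
            padicValNat p (classNo ((L ⊓ (K ⊔ B₀)) ⊔ E ⊔ Q))

/-- `p` is unramified in `K` -/
def Unr (p : ℕ) (K : IntermediateField ℚ ℂ) : Prop :=
  ∀ Q : Ideal (𝓞 K), Q.IsPrime → (p : 𝓞 K) ∈ Q → (p : 𝓞 K) ∉ Q ^ 2

theorem StC.toR {k : IntermediateField ℚ ℂ} {p : ℕ} (h : StC k p) : StR (Unr p) k p := by
  intro K fdK hk hG hab hd hR E fdE hE hGE hcE l hl
  obtain ⟨n₀, h0⟩ := h K hk hG hab hd hR E hE hGE hcE l hl
  exact ⟨n₀, fun B₀ hB₀ n hn B hB L hkL hL m Q hQ => (h0 B₀ hB₀).2 n hn B hB L hkL hL m Q hQ⟩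

theorem Unr.sub (p : ℕ) (K' K : IntermediateField ℚ ℂ) (hle : K' ≤ K) [FiniteDimensional ℚ K]
    (h : Unr p K) : Unr p K' := by
  intro Q hQ hp hp2
  let i1 : Algebra K' K := algC hle
  have fdK' : FiniteDimensional ℚ K' := FiniteDimensional.of_injective
    (IntermediateField.inclusion hle).toLinearMap
    (IntermediateField.inclusion hle).toRingHom.injective
  have t2 : IsScalarTower ℚ K' K := IsScalarTower.of_algebraMap_eq (fun _ => rfl)
  have hf : FiniteDimensional K' K := Module.Finite.of_restrictScalars_finite ℚ K' K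
  have hker : RingHom.ker (algebraMap (𝓞 K') (𝓞 K)) ≤ Q := by
    rw [(RingHom.injective_iff_ker_eq_bot _).1 (FaithfulSMul.algebraMap_injective (𝓞 K') (𝓞 K))]
    exact bot_le
  obtain ⟨P, hP, hPQ⟩ := Ideal.exists_ideal_over_prime_of_isIntegral_of_isDomain Q hker
  have hle2 : Q.map (algebraMap (𝓞 K') (𝓞 K)) ≤ P := by
    rw [Ideal.map_le_iff_le_comap, hPQ]
  have e1 : algebraMap (𝓞 K') (𝓞 K) (p : 𝓞 K') = (p : 𝓞 K) := map_natCast _ p
  refine h P hP ?_ ?_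
  · rw [← e1]
    exact hle2 (Ideal.mem_map_of_mem _ hp)
  · have e2 := Ideal.mem_map_of_mem (algebraMap (𝓞 K') (𝓞 K)) hp2
    rw [Ideal.map_pow, e1] at e2
    exact Ideal.pow_right_mono hle2 2 e2

/-- Theorem C for one prime, any degree -/
theorem thm_R (R : IntermediateField ℚ ℂ → Prop)
    (hRs : ∀ K' K : IntermediateField ℚ ℂ, K' ≤ K → FiniteDimensional ℚ K → R K → R K')
    (k K : IntermediateField ℚ ℂ) [FiniteDimensional ℚ K] (h : k ≤ K)
    (hG : IsGalois k (IntermediateField.extendScalars h))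
    (hab : ∀ σ τ : (IntermediateField.extendScalars h) ≃ₐ[k] (IntermediateField.extendScalars h),
      σ * τ = τ * σ) (p : ℕ) (hp : p.Prime) (hC : StR R k p) (hR : R K)
    (l : ℕ) (hl : l = 2 ∨ l = 3) (hpl : p ≠ l) (B : ℕ → IntermediateField ℚ ℂ)
    (hlay : ∀ n, IsLayer l n (B n)) (hmono : Monotone B) : Thm k K B p := by
  classical
  have hlp : l.Prime := by
    rcases hl with rfl | rfl
    · exact Nat.prime_two
    · exact Nat.prime_three
  have hlF : Fact l.Prime := ⟨hlp⟩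
  have hpF : Fact p.Prime := ⟨hp⟩
  have hB : Twr l k K B := ⟨h, hG, hab, hlay, hmono⟩
  let aK : Algebra k K := algC h
  have t2 : IsScalarTower ℚ k K := IsScalarTower.of_algebraMap_eq (fun _ => rfl)
  have hf : FiniteDimensional k K := Module.Finite.of_restrictScalars_finite ℚ k K
  have galK : IsGalois k K := (isGalois_algC h).2 hG
  have hab' : ∀ a b : K ≃ₐ[k] K, a * b = b * a := by
    intro a b
    have h1 := hab ((extEquiv h).symm.autCongr a) ((extEquiv h).symm.autCongr b)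
    rw [← map_mul, ← map_mul] at h1
    exact (extEquiv h).symm.autCongr.injective h1
  obtain ⟨v, m, hm, hvm⟩ := Nat.exists_eq_pow_mul_and_not_dvd
    (Module.finrank_pos (R := k) (M := K)).ne' p hp.ne_one
  obtain ⟨K', E, h1, h3, h2, h4, hKE, hdK', ⟨c, hc⟩, hK'g, hEg⟩ := pparts h p galK hab' v m hvm hm
  have hsp := split_lay l hB K' E h1 h3 h2 h4 (p ^ v) m
    (Nat.Coprime.pow_left v ((Nat.Prime.coprime_iff_not_dvd hp).2 hm))
    (Nat.Coprime.pow_left v ((Nat.coprime_primes hp hlp).2 hpl)) hK'g hEg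
  have fdE : FiniteDimensional ℚ E := FiniteDimensional.of_injective
    (IntermediateField.inclusion h4).toLinearMap
    (IntermediateField.inclusion h4).toRingHom.injective
  have fdK' : FiniteDimensional ℚ K' := FiniteDimensional.of_injective
    (IntermediateField.inclusion h2).toLinearMap
    (IntermediateField.inclusion h2).toRingHom.injective
  -- subfields are Galois with abelian groups
  have hsub : ∀ (F : IntermediateField ℚ ℂ) (hkF : k ≤ F), F ≤ K →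
      IsGalois k (IntermediateField.extendScalars hkF) ∧
      ∀ σ τ : (IntermediateField.extendScalars hkF) ≃ₐ[k] (IntermediateField.extendScalars hkF),
        σ * τ = τ * σ := by
    intro F hkF hFK
    have f : (IntermediateField.extendScalars hkF) →ₐ[k] (IntermediateField.extendScalars h) :=
      IntermediateField.inclusion
        ((IntermediateField.extendScalars_le_extendScalars_iff hkF h).2 hFK)
    exact ab_aux f hG hab
  have hK'G := hsub K' h1 h2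
  have key : ∀ E' : IntermediateField ℚ ℂ, ∃ n₀ : ℕ, k ≤ E' → E' ≤ E →
      ∀ n : ℕ, n₀ ≤ n → ∀ L : IntermediateField ℚ ℂ, k ≤ L → L ≤ K' ⊔ B n →
      ∀ (m : ℕ) (Q : IntermediateField ℚ ℂ), IsLayer p m Q →
        padicValNat p (classNo (L ⊔ E' ⊔ Q)) =
          padicValNat p (classNo ((L ⊓ (K' ⊔ B n₀)) ⊔ E' ⊔ Q)) := by
    intro E'
    by_cases hE' : k ≤ E' ∧ E' ≤ E
    · obtain ⟨g1, g2⟩ := hE'
      have fdE' : FiniteDimensional ℚ E' := FiniteDimensional.of_injective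
        (IntermediateField.inclusion g2).toLinearMap
        (IntermediateField.inclusion g2).toRingHom.injective
      have gal := (hsub E' g1 (g2.trans h4)).1
      have hcE : ∃ c' : ℕ, Module.finrank k (IntermediateField.extendScalars g1) = p ^ c' := by
        let a1 : Algebra k E' := algC g1
        let a2 : Algebra E' E := algC g2
        let a3 : Algebra k E := algC h3
        have t1 : IsScalarTower k E' E := towerC g1 g2
        have e1 := Module.finrank_mul_finrank k E' E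
        have e2 := finrank_algC g1
        have e3 := finrank_algC h3
        have e4 : Module.finrank k E' ∣ p ^ c := by
          rw [← hc, ← e3]
          exact Dvd.intro _ e1
        obtain ⟨c', -, hc'⟩ := (Nat.dvd_prime_pow hp).1 e4
        exact ⟨c', by rw [← e2]; exact hc'⟩
      obtain ⟨n₀, h0⟩ := hC K' h1 hK'G.1 hK'G.2 hdK' (hRs K' K h2 inferInstance hR) E' g1 gal hcE
        l hl
      exact ⟨n₀, fun _ _ n hn L hkL hL m Q hQ =>
        h0 (B n₀) (hlay n₀) n hn (B n) (hlay n) L hkL hL m Q hQ⟩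
    · exact ⟨0, fun g1 g2 => absurd ⟨g1, g2⟩ hE'⟩
  choose f hf2 using key
  refine ⟨(sub_finite E).toFinset.sup f, fun n hn L hkL hL m Q hQ => ?_⟩
  set N : ℕ := (sub_finite E).toFinset.sup f with hN
  let E' : IntermediateField ℚ ℂ := L ⊓ E
  have g1 : k ≤ E' := le_inf hkL h3
  have g2 : E' ≤ E := inf_le_right
  have hfN : f E' ≤ N := Finset.le_sup ((sub_finite E).mem_toFinset.2 g2)
  have k0 := hf2 E' g1 g2
  -- the field `L`
  have sL := hsp n L hkL hL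
  have eL := k0 n (hfN.trans hn) (L ⊓ (K' ⊔ B n)) (le_inf hkL (h1.trans le_sup_left)) inf_le_right
    m Q hQ
  -- the field `L ⊓ (K ⊔ B N)`
  let F : IntermediateField ℚ ℂ := L ⊓ (K ⊔ B N)
  have sF := hsp N F (le_inf hkL (h.trans le_sup_left)) inf_le_right
  have eF := k0 N hfN (F ⊓ (K' ⊔ B N)) (le_inf (le_inf hkL (h.trans le_sup_left))
    (h1.trans le_sup_left)) inf_le_right m Q hQ
  have i1 : F ⊓ E = E' := by
    show L ⊓ (K ⊔ B N) ⊓ E = L ⊓ E
    rw [inf_assoc, inf_eq_right.2 (h4.trans le_sup_left : E ≤ K ⊔ B N)]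
  have i2 : F ⊓ (K' ⊔ B N) = L ⊓ (K' ⊔ B N) := by
    show L ⊓ (K ⊔ B N) ⊓ (K' ⊔ B N) = L ⊓ (K' ⊔ B N)
    rw [inf_assoc, inf_eq_right.2 (sup_le_sup_right h2 (B N))]
  have i3 : L ⊓ (K' ⊔ B n) ⊓ (K' ⊔ B (f E')) = L ⊓ (K' ⊔ B (f E')) := by
    rw [inf_assoc, inf_eq_right.2 (sup_le_sup_left (hmono (hfN.trans hn)) K')]
  have i4 : F ⊓ (K' ⊔ B N) ⊓ (K' ⊔ B (f E')) = L ⊓ (K' ⊔ B (f E')) := by
    rw [i2, inf_assoc, inf_eq_right.2 (sup_le_sup_left (hmono hfN) K')]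
  rw [i3] at eL
  rw [i4] at eF
  have j1 : L ⊔ Q = L ⊓ (K' ⊔ B n) ⊔ E' ⊔ Q := congrArg (· ⊔ Q) sL
  have j2 : F ⊔ Q = F ⊓ (K' ⊔ B N) ⊔ E' ⊔ Q := by
    have j3 := congrArg (· ⊔ Q) sF
    rwa [i1] at j3
  show padicValNat p (classNo (L ⊔ Q)) = padicValNat p (classNo (F ⊔ Q))
  rw [j1, j2, eL, eF]

end Pool.Agent.TWD


end

section

/-!
# TWD: the theorem on all primes `p ≤ X` and almost all primes, any degree (helper11)
-/

set_option autoImplicit false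

open NumberField IntermediateField

namespace Pool.Agent.TWD

open Pool.Agent.MU3 Pool.Agent.RI Pool.Agent.RID Pool.Agent.TWF

/-- The theorem, from Theorem C with a condition `R p K` on the fields `K`. -/
theorem t2R (R : ℕ → IntermediateField ℚ ℂ → Prop)
    (hRs : ∀ (p : ℕ) (K' K : IntermediateField ℚ ℂ), K' ≤ K → FiniteDimensional ℚ K →
      R p K → R p K')
    (hC : ∀ k : IntermediateField ℚ ℂ, Module.finrank ℚ k = 2 →
      (∃ z ∈ k, (starRingEnd ℂ) z ≠ z) → (∀ z ∈ k, z ^ 2 ≠ -1) → (∀ z ∈ k, z ^ 2 ≠ -3) →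
      ∃ S : Finset ℕ, ∀ p : ℕ, p.Prime → p ∉ S → StR (R p) k p) :
    -- (1), (2)
    (∀ k : IntermediateField ℚ ℂ, Module.finrank ℚ k = 2 → (∃ z ∈ k, (starRingEnd ℂ) z ≠ z) →
      (∀ z ∈ k, z ^ 2 ≠ -1) → (∀ z ∈ k, z ^ 2 ≠ -3) → ∃ S : Finset ℕ,
      ∀ (K : IntermediateField ℚ ℂ) [FiniteDimensional ℚ K] (h : k ≤ K),
      IsGalois k (extendScalars h) →
      (∀ σ τ : (extendScalars h) ≃ₐ[k] (extendScalars h), σ * τ = τ * σ) →
      ∀ l : ℕ, (l = 2 ∨ l = 3) → ∀ B : ℕ → IntermediateField ℚ ℂ, (∀ n, IsLayer l n (B n)) →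
      Monotone B →
      (∀ a s : ℕ, ¬ l ^ (a + 1) ∣ Module.finrank k (extendScalars h) →
        ¬ l ^ (s + 1) ∣ Module.finrank ℚ (normalClosure ℚ K ℂ) →
        ∀ X : ℕ, ∃ n₁ : ℕ, ∀ n : ℕ, n₁ ≤ n →
          (∀ L₁ L : IntermediateField ℚ ℂ, Twist l k K B n L₁ L → ∀ p : ℕ, p.Prime →
            ((p ≤ X ∧ p ∉ S ∧ R p K) ∨
            (p ≠ l ∧ ¬ p ∣ classNo L ∧
              ¬ p ^ (2 * (l - 1) * l ^ s) ≡ 1 [MOD l ^ (n - a + 2)])) →
            Same p L (L₁ ⊔ B (n - a)) ∧ (FerreroWashington → AbelianQ L₁ → MuZero p L)) ∧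
          DensityGE {p : ℕ | ∀ L₁ L : IntermediateField ℚ ℂ, Twist l k K B n L₁ L →
            Same p L (L₁ ⊔ B (n - a)) ∧ (FerreroWashington → AbelianQ L₁ → MuZero p L)}
            (1 - (l : ℝ) ^ (s + a) / (l : ℝ) ^ (n + 1))) ∧
      ∀ X : ℕ, ∃ n₁ : ℕ, ∀ N n : ℕ, n₁ ≤ N → N ≤ n → ∀ p : ℕ, p.Prime → p ≤ X → p ∉ S →
        R p K → ∀ L : IntermediateField ℚ ℂ, k ≤ L → L ≤ K ⊔ B n →
          Same p L (L ⊓ (K ⊔ B N))) ∧
    -- (3)
    (∀ (k K : IntermediateField ℚ ℂ) [FiniteDimensional ℚ K] (h : k ≤ K),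
      IsGalois k (extendScalars h) →
      (∀ σ τ : (extendScalars h) ≃ₐ[k] (extendScalars h), σ * τ = τ * σ) →
      ∀ l : ℕ, l.Prime → ∀ B : ℕ → IntermediateField ℚ ℂ, (∀ n, IsLayer l n (B n)) →
      Monotone B → ∀ s : ℕ, ¬ l ^ (s + 1) ∣ Module.finrank ℚ (normalClosure ℚ K ℂ) →
      ∀ N n : ℕ, N ≤ n →
        (∀ L : IntermediateField ℚ ℂ, k ≤ L → L ≤ K ⊔ B n → ∀ p : ℕ, p.Prime → p ≠ l →
          ¬ p ∣ classNo L → ¬ p ^ (2 * (l - 1) * l ^ s) ≡ 1 [MOD l ^ (N + 2)] →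
          Same p L (L ⊓ (K ⊔ B N))) ∧
        DensityGE {p : ℕ | ∀ L : IntermediateField ℚ ℂ, k ≤ L → L ≤ K ⊔ B n →
          Same p L (L ⊓ (K ⊔ B N))} (1 - (l : ℝ) ^ s / (l : ℝ) ^ (N + 1))) ∧
    -- (4)
    (∀ (F K L : IntermediateField ℚ ℂ) [FiniteDimensional ℚ L] (hFK : F ≤ K) (_hKL : K ≤ L),
      IsGalois ℚ L → IsGalois F (extendScalars hFK) →
      DensityGE {p : ℕ | Same p K F}
        ((Nat.card {g : L ≃ₐ[ℚ] L // Good F K L g} : ℝ) / Nat.card (L ≃ₐ[ℚ] L))) ∧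
    -- (5)
    (∀ (k K : IntermediateField ℚ ℂ) [FiniteDimensional ℚ K] (h : k ≤ K),
      IsGalois k (extendScalars h) → IsCyclic ((extendScalars h) ≃ₐ[k] (extendScalars h)) →
      ¬ AbelianQ K → ∀ l a : ℕ, l.Prime → Module.finrank k (extendScalars h) = l ^ a →
      ∀ B : ℕ → IntermediateField ℚ ℂ, (∀ n, IsLayer l n (B n)) → Monotone B →
      ∃ n₁ : ℕ, ∀ n : ℕ, n₁ ≤ n → ∃ L : IntermediateField ℚ ℂ,
        Twist l k K B n k L ∧ ¬ AbelianQ L) := by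
  refine ⟨?_, ?_, finalD, ?_⟩
  · intro k h2 hi h4 h3
    obtain ⟨S, hS⟩ := hC k h2 hi h4 h3
    refine ⟨insert 2 (insert 3 S), ?_⟩
    intro K fdK h hG hab l hl B hlay hmono
    refine ⟨?_, ?_⟩
    · intro a s ha hs X
      have hlp : l.Prime := by
        rcases hl with rfl | rfl
        · exact Nat.prime_two
        · exact Nat.prime_three
      have hlF : Fact l.Prime := ⟨hlp⟩
      have hB : Twr l k K B := ⟨h, hG, hab, hlay, hmono⟩
      obtain ⟨n₁, h1⟩ := main l k K B hB {p : ℕ | p.Prime ∧ p ∉ S ∧ p ≠ l ∧ R p K} (by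
          rintro p ⟨hp, hpS, hpl, hR⟩
          exact thm_R (R p) (hRs p) k K h hG hab p hp (hS p hp hpS) hR l hl hpl B hlay hmono)
          a s ha hs X
      refine ⟨n₁, fun n hn => ?_⟩
      obtain ⟨h5, h6⟩ := h1 n hn
      have key : ∀ L₁ L : IntermediateField ℚ ℂ, Twist l k K B n L₁ L → ∀ p : ℕ, p.Prime →
          Same p L (L₁ ⊔ B (n - a)) →
          Same p L (L₁ ⊔ B (n - a)) ∧ (FerreroWashington → AbelianQ L₁ → MuZero p L) := by
        intro L₁ L hT p hp hSm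
        refine ⟨hSm, fun hFW hA => ?_⟩
        obtain ⟨h₁, h₂, hL, -⟩ := hT
        have fdC : FiniteDimensional ℚ ↥(K ⊔ B (n + 1)) := by
          have : FiniteDimensional ℚ (B (n + 1)) := (LAY_thm l (n + 1) (B (n + 1)) (hlay _)).1
          exact IntermediateField.finiteDimensional_sup K (B (n + 1))
        have fdL₁ : FiniteDimensional ℚ L₁ := FiniteDimensional.of_injective
          (IntermediateField.inclusion (h₂.trans hL)).toLinearMap
          (IntermediateField.inclusion (h₂.trans hL)).toRingHom.injective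
        exact mu_of hFW l p hp L₁ L (B (n - a)) hA (n - a) (hlay _) hSm
      refine ⟨fun L₁ L hT p hp hor => ?_, ?_⟩
      · refine key L₁ L hT p hp (h5 L₁ L hT p hp ?_)
        rcases hor with ⟨e1, e2, e3⟩ | h
        · rw [Finset.mem_insert, Finset.mem_insert] at e2
          push Not at e2
          refine Or.inl ⟨e1, hp, e2.2.2, ?_, e3⟩
          rcases hl with rfl | rfl
          · exact e2.1
          · exact e2.2.1
        · exact Or.inr h
      · exact PDGE_thm _ _ ∅ _ h6 fun p hp hpp _ L₁ L hT => key L₁ L hT p hpp (hp L₁ L hT)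
    · intro X
      obtain ⟨n₁, h1⟩ := allp (S := {p : ℕ | p.Prime ∧ p ∉ S ∧ p ≠ l ∧ R p K}) (B := B) h hmono (by
          rintro p ⟨hp, hpS, hpl, hR⟩
          exact thm_R (R p) (hRs p) k K h hG hab p hp (hS p hp hpS) hR l hl hpl B hlay hmono) X
      refine ⟨n₁, fun N n hN hn p hp hpX hpS hR L hkL hL => ?_⟩
      rw [Finset.mem_insert, Finset.mem_insert] at hpS
      push Not at hpS
      have hpl : p ≠ l := by
        rcases hl with rfl | rfl
        · exact hpS.1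
        · exact hpS.2.1
      exact h1 N hN n hn p hpX ⟨hp, hpS.2.2, hpl, hR⟩ L hkL hL
  · intro k K fdK h hG hab l hl B hlay hmono s hs N n hNn
    have hlF : Fact l.Prime := ⟨hl⟩
    have hB : Twr l k K B := ⟨h, hG, hab, hlay, hmono⟩
    have hfL : ∀ n, FiniteDimensional ℚ ↥(K ⊔ B n) := fun n => by
      have : FiniteDimensional ℚ (B n) := (LAY_thm l n (B n) (hlay n)).1
      exact IntermediateField.finiteDimensional_sup K (B n)
    exact ⟨fun L hkL hL p hp hpl hpd hord =>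
      expl l k K B hB s hs p hp hpl N n hord L hkL hL (Or.inr hpd),
      den l k K B hB s hs N n hNn⟩
  · intro k K fdK h hG hcyc hnA l a hl hd B hlay hmono
    have hlF : Fact l.Prime := ⟨hl⟩
    have hab : ∀ σ τ : (extendScalars h) ≃ₐ[k] (extendScalars h), σ * τ = τ * σ := by
      let _ := IsCyclic.commGroup (α := (extendScalars h) ≃ₐ[k] (extendScalars h))
      exact fun a b => mul_comm a b
    exact twist_nonab l k K B ⟨h, hG, hab, hlay, hmono⟩ a hd hcyc hnA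

end Pool.Agent.TWD


end

section

/-!
# TWD: the theorem with unramified fields `K` (helper11)
-/

set_option autoImplicit false

open NumberField IntermediateField

namespace Pool.Agent.TWD

open Pool.Agent.RI

/-- The theorem, from Theorem C. -/
theorem t2U (hC : ∀ k : IntermediateField ℚ ℂ, Module.finrank ℚ k = 2 →
      (∃ z ∈ k, (starRingEnd ℂ) z ≠ z) → (∀ z ∈ k, z ^ 2 ≠ -1) → (∀ z ∈ k, z ^ 2 ≠ -3) →
      ∃ S : Finset ℕ, ∀ p : ℕ, p.Prime → p ∉ S → StC k p) :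
    -- (1), (2)
    (∀ k : IntermediateField ℚ ℂ, Module.finrank ℚ k = 2 → (∃ z ∈ k, (starRingEnd ℂ) z ≠ z) →
      (∀ z ∈ k, z ^ 2 ≠ -1) → (∀ z ∈ k, z ^ 2 ≠ -3) → ∃ S : Finset ℕ,
      ∀ (K : IntermediateField ℚ ℂ) [FiniteDimensional ℚ K] (h : k ≤ K),
      IsGalois k (extendScalars h) →
      (∀ σ τ : (extendScalars h) ≃ₐ[k] (extendScalars h), σ * τ = τ * σ) →
      ∀ l : ℕ, (l = 2 ∨ l = 3) → ∀ B : ℕ → IntermediateField ℚ ℂ, (∀ n, IsLayer l n (B n)) →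
      Monotone B →
      (∀ a s : ℕ, ¬ l ^ (a + 1) ∣ Module.finrank k (extendScalars h) →
        ¬ l ^ (s + 1) ∣ Module.finrank ℚ (normalClosure ℚ K ℂ) →
        ∀ X : ℕ, ∃ n₁ : ℕ, ∀ n : ℕ, n₁ ≤ n →
          (∀ L₁ L : IntermediateField ℚ ℂ, Twist l k K B n L₁ L → ∀ p : ℕ, p.Prime →
            ((p ≤ X ∧ p ∉ S ∧
                ∀ Q : Ideal (𝓞 K), Q.IsPrime → (p : 𝓞 K) ∈ Q → (p : 𝓞 K) ∉ Q ^ 2) ∨
            (p ≠ l ∧ ¬ p ∣ classNo L ∧
              ¬ p ^ (2 * (l - 1) * l ^ s) ≡ 1 [MOD l ^ (n - a + 2)])) →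
            Same p L (L₁ ⊔ B (n - a)) ∧ (FerreroWashington → AbelianQ L₁ → MuZero p L)) ∧
          DensityGE {p : ℕ | ∀ L₁ L : IntermediateField ℚ ℂ, Twist l k K B n L₁ L →
            Same p L (L₁ ⊔ B (n - a)) ∧ (FerreroWashington → AbelianQ L₁ → MuZero p L)}
            (1 - (l : ℝ) ^ (s + a) / (l : ℝ) ^ (n + 1))) ∧
      ∀ X : ℕ, ∃ n₁ : ℕ, ∀ N n : ℕ, n₁ ≤ N → N ≤ n → ∀ p : ℕ, p.Prime → p ≤ X → p ∉ S →
        (∀ Q : Ideal (𝓞 K), Q.IsPrime → (p : 𝓞 K) ∈ Q → (p : 𝓞 K) ∉ Q ^ 2) →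
        ∀ L : IntermediateField ℚ ℂ, k ≤ L → L ≤ K ⊔ B n →
          Same p L (L ⊓ (K ⊔ B N))) ∧
    -- (3)
    (∀ (k K : IntermediateField ℚ ℂ) [FiniteDimensional ℚ K] (h : k ≤ K),
      IsGalois k (extendScalars h) →
      (∀ σ τ : (extendScalars h) ≃ₐ[k] (extendScalars h), σ * τ = τ * σ) →
      ∀ l : ℕ, l.Prime → ∀ B : ℕ → IntermediateField ℚ ℂ, (∀ n, IsLayer l n (B n)) →
      Monotone B → ∀ s : ℕ, ¬ l ^ (s + 1) ∣ Module.finrank ℚ (normalClosure ℚ K ℂ) →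
      ∀ N n : ℕ, N ≤ n →
        (∀ L : IntermediateField ℚ ℂ, k ≤ L → L ≤ K ⊔ B n → ∀ p : ℕ, p.Prime → p ≠ l →
          ¬ p ∣ classNo L → ¬ p ^ (2 * (l - 1) * l ^ s) ≡ 1 [MOD l ^ (N + 2)] →
          Same p L (L ⊓ (K ⊔ B N))) ∧
        DensityGE {p : ℕ | ∀ L : IntermediateField ℚ ℂ, k ≤ L → L ≤ K ⊔ B n →
          Same p L (L ⊓ (K ⊔ B N))} (1 - (l : ℝ) ^ s / (l : ℝ) ^ (N + 1))) ∧
    -- (4)
    (∀ (F K L : IntermediateField ℚ ℂ) [FiniteDimensional ℚ L] (hFK : F ≤ K) (_hKL : K ≤ L),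
      IsGalois ℚ L → IsGalois F (extendScalars hFK) →
      DensityGE {p : ℕ | Same p K F}
        ((Nat.card {g : L ≃ₐ[ℚ] L // Good F K L g} : ℝ) / Nat.card (L ≃ₐ[ℚ] L))) ∧
    -- (5)
    (∀ (k K : IntermediateField ℚ ℂ) [FiniteDimensional ℚ K] (h : k ≤ K),
      IsGalois k (extendScalars h) → IsCyclic ((extendScalars h) ≃ₐ[k] (extendScalars h)) →
      ¬ AbelianQ K → ∀ l a : ℕ, l.Prime → Module.finrank k (extendScalars h) = l ^ a →
      ∀ B : ℕ → IntermediateField ℚ ℂ, (∀ n, IsLayer l n (B n)) → Monotone B →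
      ∃ n₁ : ℕ, ∀ n : ℕ, n₁ ≤ n → ∃ L : IntermediateField ℚ ℂ,
        Twist l k K B n k L ∧ ¬ AbelianQ L) :=
  t2R Unr (fun p K' K hle _ h => Unr.sub p K' K hle h) fun k h2 hi h4 h3 => by
    obtain ⟨S, hS⟩ := hC k h2 hi h4 h3
    exact ⟨S, fun p hp hpS => (hS p hp hpS).toR⟩

end Pool.Agent.TWD


end
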